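import Pool.Agent.H435.CT.GT

/-!
Algebraic extensions of function fields of curves of genus at least two are of general type.
-/

set_option autoImplicit false
set_option linter.unusedSectionVars false

open FF Pool.Agent.W603.LV Pool.Agent.W603.PV Pool.Agent.TH145.GH
open Pool.Agent.W602.GT Pool.Agent.TH145.GF
open Pool.Agent.Y741

namespace Pool.Agent.H435.CT

open Pool.Agent.H435.ST (const_of_alg)

section below

variable {k E K : Type} [Field k] [Field E] [Field K] [Algebra k E] [Algebra k K] [Algebra E K]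
  [IsScalarTower k E K] [Algebra.IsAlgebraic E K]

theorem exists_pos_below (P : Place k K) : ∃ x : E, 0 < P.ord (algebraMap E K x) := by
  by_contra hcon
  push Not at hcon
  have h0 : ∀ {c : E}, c ≠ 0 → P.ord (algebraMap E K c) = 0 := by
    intro c hc
    have h1 := hcon c
    have h2 := hcon c⁻¹
    rw [map_inv₀, P.ord_inv] at h2
    omega
  obtain ⟨t, ht0, ht⟩ := P.surj
  obtain ⟨P', hP'⟩ : ∃ P' : Place E K, P'.ord = P.ord :=
    ⟨⟨P.ord, P.ord_zero, P.ord_mul, P.ord_add, h0, P.surj⟩, rfl⟩
  have h1 := P'.transcendental_of_ord_ne (f := t) (by rw [hP', ht]; exact one_ne_zero)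
  exact h1 (Algebra.IsAlgebraic.isAlgebraic t)

/-- The place below a place. -/
theorem exists_below (P : Place k K) : ∃ (P' : Place k E) (e : ℕ), 0 < e ∧
    ∀ x : E, P.ord (algebraMap E K x) = e * P'.ord x := by
  classical
  obtain ⟨x0, hx0⟩ := exists_pos_below (E := E) P
  have hex : ∃ m : ℕ, 0 < m ∧ ∃ x : E, P.ord (algebraMap E K x) = m :=
    ⟨(P.ord (algebraMap E K x0)).toNat, by omega, x0, by omega⟩
  obtain ⟨e, he⟩ : ∃ e, e = Nat.find hex := ⟨_, rfl⟩
  obtain ⟨he0, y, hy⟩ := Nat.find_spec hex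
  rw [← he] at he0 hy
  have hmin : ∀ x : E, 0 < P.ord (algebraMap E K x) → (e : ℤ) ≤ P.ord (algebraMap E K x) := by
    intro x hx
    have h1 : Nat.find hex ≤ (P.ord (algebraMap E K x)).toNat :=
      Nat.find_min' hex ⟨by omega, x, by omega⟩
    omega
  have hy0 : y ≠ 0 := by
    rintro rfl
    rw [map_zero, P.ord_zero] at hy
    omega
  have he0' : (0 : ℤ) < e := by exact_mod_cast he0
  have hdvd : ∀ x : E, (e : ℤ) ∣ P.ord (algebraMap E K x) := by
    intro x
    by_cases hx : x = 0
    · rw [hx, map_zero, P.ord_zero]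
      exact dvd_zero _
    obtain ⟨m, hm⟩ : ∃ m, m = P.ord (algebraMap E K x) := ⟨_, rfl⟩
    have h1 : P.ord (algebraMap E K (x * y ^ (-(m / e)))) = m % e := by
      rw [map_mul, map_zpow₀, P.ord_mul (by simpa using hx) (zpow_ne_zero _ (by simpa using hy0)),
        P.ord_zpow, hy, ← hm]
      have := Int.mul_ediv_add_emod m e
      linarith
    have h2 := Int.emod_nonneg m he0'.ne'
    have h3 := Int.emod_lt_of_pos m he0'
    rw [← hm]
    by_contra hcon
    have h4 : 0 < m % e := lt_of_le_of_ne h2 (fun h => hcon (Int.dvd_of_emod_eq_zero h.symm))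
    have h5 := hmin (x * y ^ (-(m / e))) (by rw [h1]; exact h4)
    rw [h1] at h5
    omega
  refine ⟨⟨fun x => P.ord (algebraMap E K x) / e, ?_, ?_, ?_, ?_, ?_⟩, e, he0, fun x =>
    (Int.mul_ediv_cancel' (hdvd x)).symm⟩
  · rw [map_zero, P.ord_zero, Int.zero_ediv]
  · intro f g hf hg
    rw [map_mul, P.ord_mul (by simpa using hf) (by simpa using hg),
      Int.add_ediv_of_dvd_left (hdvd f)]
  · intro f g hf hg hfg
    have h1 := P.ord_add (f := algebraMap E K f) (g := algebraMap E K g) (by simpa using hf)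
      (by simpa using hg) (by rw [← map_add, Ne, map_eq_zero]; exact hfg)
    rw [map_add]
    rcases min_le_iff.1 h1 with h | h
    · exact min_le_iff.2 (Or.inl (Int.ediv_le_ediv he0' h))
    · exact min_le_iff.2 (Or.inr (Int.ediv_le_ediv he0' h))
  · intro c hc
    rw [← IsScalarTower.algebraMap_apply k E K, P.ord_const hc, Int.zero_ediv]
  · exact ⟨y, hy0, by rw [hy, Int.ediv_self (by omega)]⟩

end below

section

variable {k E K : Type} [Field k] [Field E] [Field K] [Algebra k E] [Algebra k K] [Algebra E K]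
  [IsScalarTower k E K] [Algebra.IsAlgebraic E K] [CharZero k] [IsFF k E] [IsAlgClosed k]

/-- The extension of a vector field. -/
theorem exists_der_up (δ : Derivation k E E) :
    ∃ δ' : Derivation k K K, ∀ f : E, δ' (algebraMap E K f) = algebraMap E K (δ f) := by
  have hE : CharZero E := charZero_of_injective_algebraMap (algebraMap k E).injective
  obtain ⟨d, hd⟩ := exists_der_ext (L := E) (Ω := K) (δ.restrictScalars ℤ)
  have h2 : ∀ c : k, d (algebraMap k K c) = 0 := by
    intro c
    rw [IsScalarTower.algebraMap_apply k E K, hd]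
    change algebraMap E K (δ (algebraMap k E c)) = 0
    rw [δ.map_algebraMap, map_zero]
  refine ⟨{ toFun := fun m => d m
            map_add' := fun a b => map_add _ a b
            map_smul' := fun c m => ?_
            map_one_eq_zero' := ?_
            leibniz' := fun a b => ?_ }, fun f => hd f⟩
  · rw [RingHom.id_apply, Algebra.smul_def c m, d.leibniz, h2, smul_zero, add_zero, smul_eq_mul,
      Algebra.smul_def]
  · exact d.map_one_eq_zero
  · exact d.leibniz a b

/-- Algebraic extensions of function fields of curves of genus at least two. -/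
theorem gt_up (h : 1 ≤ canDeg k E) : GeneralType k K 1 := by
  classical
  have hFF : IsFF k E := inferInstance
  obtain ⟨δ, hδ⟩ := exists_der (k := k) (K := E)
  obtain ⟨u, hu⟩ := IsFF.exists_transcendental (k := k) (K := E)
  have hδu : δ u ≠ 0 := der_ne_zero hδ hu
  obtain ⟨δ', hδ'⟩ := exists_der_up (K := K) δ
  obtain ⟨u', hu'⟩ : ∃ u' : K, u' = algebraMap E K u := ⟨_, rfl⟩
  have hδu' : δ' u' ≠ 0 := by
    rw [hu', hδ']
    exact (map_ne_zero _).2 hδu
  have hb : IsTranscendenceBasis k (fun _ : Unit => u') := by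
    have h1 := (IsFF.basis (k := k) hu).algebraMap_comp (A := K)
    have h2 : (algebraMap E K ∘ fun _ : Unit => u) = fun _ => u' := by
      funext _
      exact hu'.symm
    rw [h2] at h1
    exact h1
  have hcomb : ∀ (D : Derivation k K K) g, D g = D u' / δ' u' * δ' g := by
    intro D g
    have h1 : D = (D u' / δ' u') • δ' := der_ext (fun _ : Unit => u') hb fun _ => by
      rw [Derivation.smul_apply, smul_eq_mul, div_mul_cancel₀ _ hδu']
    conv_lhs => rw [h1]
    rfl
  obtain ⟨γ, N0, h1, -⟩ := riemann k E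
  obtain ⟨Kd, hKd, hdd⟩ := exists_can (k := k) hδ
  obtain ⟨N, hN, hN2⟩ : ∃ N : ℕ, 0 < N ∧ γ + 2 ≤ N := ⟨(γ + 2).toNat + 1, by omega, by omega⟩
  have h3 : 2 ≤ ell (N • Kd) := by
    have h4 := h1 (N • Kd)
    rw [ddeg_nsmul, hdd] at h4
    nlinarith
  obtain ⟨f, hf, hfL⟩ : ∃ f : Fin 2 → E, LinearIndependent k f ∧ ∀ j, f j ∈ LL (N • Kd) := by
    have h4 : 2 ≤ Module.finrank k (LL (N • Kd)) := by
      unfold ell at h3
      exact_mod_cast h3
    obtain ⟨g, hg⟩ := exists_linearIndependent_of_le_finrank h4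
    refine ⟨fun j => (g j : E), ?_, fun j => (g j).2⟩
    exact hg.map' (LL (N • Kd)).subtype (Submodule.ker_subtype _)
  have hf0 : f 0 ≠ 0 := hf.ne_zero 0
  have hone : δ' u' / δ' u' = 1 := div_self hδu'
  refine ⟨?_, N, hN, fun j Dd => (Dd 0 u' / δ' u') ^ N * algebraMap E K (f j),
    fun j M Dd => ?_, fun P _ j Dd hDd => ?_, fun _ => δ', ?_, ?_⟩
  · have h4 := hb.lift_cardinalMk_eq_trdeg
    simpa using h4.symm
  · dsimp only
    rw [Fin.sum_univ_one, Matrix.det_unique]
    change (M 0 0 * Dd 0 u' / δ' u') ^ N * algebraMap E K (f j) =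
      M 0 0 ^ N * ((Dd 0 u' / δ' u') ^ N * algebraMap E K (f j))
    rw [mul_div_assoc, mul_pow, mul_assoc]
  · obtain ⟨c, hc⟩ : ∃ c, c = Dd 0 u' / δ' u' := ⟨_, rfl⟩
    have hcf := hcomb (Dd 0)
    rw [← hc] at hcf
    change P.Reg ((Dd 0 u' / δ' u') ^ N * algebraMap E K (f j))
    rw [← hc]
    by_cases hc0 : c = 0
    · left
      rw [hc0, zero_pow hN.ne', zero_mul]
    have hfj : f j ≠ 0 := hf.ne_zero j
    have hfj' : algebraMap E K (f j) ≠ 0 := (map_ne_zero _).2 hfj
    right
    obtain ⟨P', e, he, hP'⟩ := exists_below (E := E) P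
    have hπ := ord_unif P'
    have hδπ := der_pi_ne_zero hδ P' hπ
    have hδπ' : algebraMap E K (δ (unif P')) ≠ 0 := (map_ne_zero _).2 hδπ
    have h4 := hDd 0 (algebraMap E K (unif P')) (Or.inr (by rw [hP', hπ, mul_one]; positivity))
    rw [hcf, hδ'] at h4
    have h5 : 0 ≤ P.ord (c * algebraMap E K (δ (unif P'))) :=
      h4.resolve_left (mul_ne_zero hc0 hδπ')
    rw [P.ord_mul hc0 hδπ', hP'] at h5
    have h6 := ((mem_LL.1 (hfL j)).resolve_left hfj) P'
    rw [P.ord_mul (pow_ne_zero _ hc0) hfj', P.ord_pow, hP']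
    have h7 : (N • Kd) P' = N * -vo P' δ := by
      rw [Finsupp.smul_apply, hKd, nsmul_eq_mul]
    rw [h7] at h6
    have h8 : vo P' δ = P'.ord (δ (unif P')) := rfl
    rw [← h8] at h5
    have he' : (0 : ℤ) < e := by exact_mod_cast he
    have hN' : (0 : ℤ) < N := by exact_mod_cast hN
    nlinarith
  · dsimp only
    rw [hone, one_pow, one_mul]
    exact (map_ne_zero _).2 hf0
  · have h4 : Transcendental k (f 1 / f 0) := by
      intro hA
      obtain ⟨r, hr⟩ := const_of_alg (k := k) (L := E) (t := f 1 / f 0) fun h => h hA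
      have h5 : f 1 = r • f 0 := by
        rw [Algebra.smul_def, hr, div_mul_cancel₀ _ hf0]
      have h6 := (Fintype.linearIndependent_iff.1 hf) ![r, -1] (by
        rw [Fin.sum_univ_two]
        change r • f 0 + (-1 : k) • f 1 = 0
        rw [h5, neg_smul, one_smul, add_neg_cancel]) 1
      change (-1 : k) = 0 at h6
      exact one_ne_zero (neg_eq_zero.1 h6)
    rw [algebraicIndependent_unique_type_iff]
    change Transcendental k ((δ' u' / δ' u') ^ N * algebraMap E K (f 1) /
      ((δ' u' / δ' u') ^ N * algebraMap E K (f 0)))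
    rw [hone, one_pow, one_mul, one_mul, ← map_div₀]
    exact (transcendental_algebraMap_iff (algebraMap E K).injective).2 h4

end

end Pool.Agent.H435.CT
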