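import Pool.Agent.H435.CT.Tri
import Pool.Agent.H435.ST.Du

/-!
The degree of a curve on a generic complete intersection of dimension three, or a plane of small
height.
-/

set_option autoImplicit false
set_option linter.unusedSectionVars false

open MvPolynomial FF Pool.Agent.W603.LV Pool.Agent.W603.PV Pool.Agent.TH145.GH
open Pool.Agent.Y735 (lf pm tm pl vol vol_apply po po_le exists_po zp zp_pl zp_smul exists_xi rho
  eval_rho fht fht_fin fht_nonneg sum_two po_finite)
open Pool.Agent.W602.GT Pool.Agent.TH145.GF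
open Pool.Agent.TH145.GC (Cf Rt)

namespace Pool.Agent.H435.CT

open Pool.Agent.Y741
open Pool.Agent.H435.VG (ge_po le_po)
open Pool.Agent.H435.ST (exists_duals_T)
open Pool.Agent.H435.SC (deg_ineq)

section

variable {k L : Type} [Field k] [Field L] [Algebra k L] {n : ℕ}

theorem Pln.scale {x : Fin (n + 1) → L} {Y : T3 n → L} {c : L} (hc : c ≠ 0)
    (h : Pln (fun l => c * x l) Y) : Pln x Y := by
  refine ⟨h.ne, fun a b e f => ?_⟩
  have h1 := h.rel a b e f
  have h2 : c * (x a * Y (b, e, f) - x b * Y (a, e, f) + x e * Y (a, b, f) -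
      x f * Y (a, b, e)) = 0 := by linear_combination h1
  exact (mul_eq_zero.1 h2).resolve_left hc

variable [IsAlgClosed k] [CharZero k] [IsFF k L]

/-- The plane that is given by the line. -/
theorem pln_of_line (hn : 2 ≤ n) {x y : Fin (n + 1) → L} (h : pl x y ≠ 0) :
    ∃ Y, Pln x Y ∧ fht k Y ≤ fht k (pl x y) := by
  classical
  obtain ⟨q, hq⟩ := Function.ne_iff.1 h
  have hq' : pl x y q ≠ 0 := hq
  obtain ⟨i, hi1, hi2⟩ : ∃ i : Fin (n + 1), i ≠ q.1 ∧ i ≠ q.2 := by
    by_contra hcon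
    push Not at hcon
    have h1 : (Finset.univ : Finset (Fin (n + 1))) ⊆ {q.1, q.2} := by
      intro i _
      by_cases h2 : i = q.1
      · rw [h2]; exact Finset.mem_insert_self _ _
      · rw [hcon i h2]; exact Finset.mem_insert_of_mem (Finset.mem_singleton_self _)
    have h2 := Finset.card_le_card h1
    rw [Finset.card_univ, Fintype.card_fin] at h2
    have h3 := Finset.card_insert_le q.1 {q.2}
    rw [Finset.card_singleton] at h3
    omega
  obtain ⟨Y, hY⟩ : ∃ Y : T3 n → L, ∀ a b c, Y (a, b, c) =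
      pl x y (a, b) * (Pi.single i 1 : Fin (n + 1) → L) c -
      pl x y (a, c) * (Pi.single i 1 : Fin (n + 1) → L) b +
      pl x y (b, c) * (Pi.single i 1 : Fin (n + 1) → L) a :=
    ⟨fun q => pl x y (q.1, q.2.1) * (Pi.single i 1 : Fin (n + 1) → L) q.2.2 -
      pl x y (q.1, q.2.2) * (Pi.single i 1 : Fin (n + 1) → L) q.2.1 +
      pl x y (q.2.1, q.2.2) * (Pi.single i 1 : Fin (n + 1) → L) q.1, fun _ _ _ => rfl⟩
  have hY0 : Y ≠ 0 := by
    intro h0
    apply hq'
    have h1 := hY q.1 q.2 i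
    rw [h0, Pi.single_eq_same, Pi.single_eq_of_ne hi1.symm, Pi.single_eq_of_ne hi2.symm,
      mul_zero, mul_zero, mul_one, sub_zero, add_zero] at h1
    exact h1.symm
  refine ⟨Y, ⟨hY0, fun a b c e => ?_⟩, ?_⟩
  · rw [hY, hY, hY, hY]
    simp only [pl]
    ring
  · have hle : ∀ P : Place k L, po P (pl x y) ≤ po P Y := by
      intro P
      refine le_po P hY0 fun q => ?_
      obtain ⟨a, b, c⟩ := q
      rw [hY]
      have hs : ∀ j, Ge P 0 ((Pi.single i 1 : Fin (n + 1) → L) j) := by
        intro j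
        by_cases hj : j = i
        · rw [hj, Pi.single_eq_same]
          exact Ge.one
        · rw [Pi.single_eq_of_ne hj]
          exact Ge.zero
      have h1 : ∀ q j, Ge P (po P (pl x y)) (pl x y q * (Pi.single i 1 : Fin (n + 1) → L) j) := by
        intro q j
        have h2 := (ge_po P (pl x y) q).mul (hs j)
        rwa [add_zero] at h2
      exact ((h1 _ _).sub (h1 _ _)).add (h1 _ _)
    unfold fht
    have h2 := finsum_le_finsum' (f := fun P : Place k L => po P (pl x y))
      (g := fun P : Place k L => po P Y) (po_finite h) (po_finite hY0) hle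
    linarith

end

section

variable {k0 k L : Type} [Field k0] [Field k] [Field L] [Algebra k0 k] [Algebra k L]
  [IsAlgClosed k] [CharZero k] {n : ℕ} {A : Type} [Fintype A] [DecidableEq A]
  {dg : A → ℕ}

/-- There are no lines in large degree. -/
theorem no_onL {G : A → MvPolynomial (Fin (n + 1)) k} (hG : ∀ a, (G a).IsHomogeneous (dg a))
    (hind : AlgebraicIndependent k0 fun p : Cf n dg => (G p.1).coeff p.2.1)
    (hd : 2 * n ≤ ∑ a, dg a + Fintype.card A + 1) {x y : Fin (n + 1) → L}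
    {ik : Fin (n + 1) × Fin (n + 1)} (hik : pl x y ik ≠ 0)
    (h : OnL (fun a => map (algebraMap k L) (G a)) Finset.univ x y) : False := by
  classical
  have hL : CharZero L := charZero_of_injective_algebraMap (algebraMap k L).injective
  have hΩ : CharZero (AlgebraicClosure L) := charZero_of_injective_algebraMap
    (algebraMap L (AlgebraicClosure L)).injective
  have h1 := (onL_mapF (algebraMap L (AlgebraicClosure L)) (fun a => (hG a).map (algebraMap k L))
    (C := Finset.univ) (x := x) (y := y) (fun c hc => by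
      have h2 := h c hc 1 0
      rwa [one_smul, zero_smul, add_zero] at h2)).2 h
  have h2 : mapF (algebraMap L (AlgebraicClosure L)) (fun a => map (algebraMap k L) (G a)) =
      fun a => map (algebraMap k (AlgebraicClosure L)) (G a) := by
    funext a
    unfold mapF
    rw [map_map, ← IsScalarTower.algebraMap_eq]
  rw [h2] at h1
  refine mf_none (k0 := k0) hG hind hd (AlgebraicClosure L)
    (x := fun j => algebraMap L (AlgebraicClosure L) (x j))
    ⟨fun j => algebraMap L (AlgebraicClosure L) (y j), ik, ?_, h1, pun_of_one (dg := dg)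
      (by norm_num) ⟨0, fun b hb => absurd (Finset.mem_univ b) hb⟩⟩
  rw [pl_map]
  dsimp only
  rwa [Ne, map_eq_zero]

end

section

variable {k0 k L : Type} [Field k0] [Field k] [Field L] [Algebra k0 k] [Algebra k L]
  [IsAlgClosed k] [CharZero k] [IsFF k L] {n : ℕ} {A : Type} [Fintype A] [DecidableEq A]
  {dg : A → ℕ}

/-- The degree of a curve on a generic complete intersection of dimension three, or a plane of
small height, at a normalised point. -/
theorem part1 (hpos : ∀ a, 0 < dg a) (hn : n = Fintype.card A + 3) (hsum : ∑ a, dg a = n + 2)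
    {G : A → MvPolynomial (Fin (n + 1)) k} (hG : ∀ a, (G a).IsHomogeneous (dg a))
    (hind : AlgebraicIndependent k0 fun p : Cf n dg => (G p.1).coeff p.2.1)
    {x : Fin (n + 1) → L} {j0 l0 : Fin (n + 1)} (hx1 : x j0 = 1)
    (hl0 : Transcendental k (x l0)) (hxC : ∀ c, aeval x (G c) = 0) :
    pht k x ≤ canDeg k L ∨ ∃ Y, Pln x Y ∧ fht k Y ≤ canDeg k L := by
  classical
  have hLz : CharZero L := charZero_of_injective_algebraMap (algebraMap k L).injective
  have hFF : IsFF k L := inferInstance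
  have htr : Algebra.trdeg k L = (1 : ℕ) := by rw [hFF.trdeg, Nat.cast_one]
  obtain ⟨F, hFG⟩ : ∃ F : Fam L n A, ∀ a, F a = map (algebraMap k L) (G a) := ⟨_, fun _ => rfl⟩
  have hFeq : (fun a => map (algebraMap k L) (G a)) = F := (funext hFG).symm
  have hF : ∀ a, (F a).IsHomogeneous (dg a) := fun a => by
    rw [hFG]
    exact (hG a).map _
  have hev : ∀ a, aeval x (G a) = eval x (F a) := fun a => by
    rw [hFG, eval_map]
    rfl
  simp only [hev] at hxC
  have hl : IsTranscendenceBasis k (fun _ : Fin 1 => x l0) := by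
    have h1 := IsFF.basis (k := k) hl0
    have h2 := h1.comp_equiv (Equiv.equivPUnit (Fin 1) : Fin 1 ≃ Unit)
    exact h2
  choose E hE using fun i : Fin 1 => exists_der (fun _ : Fin 1 => x l0) hl
    fun j => if i = j then (1 : L) else 0
  obtain ⟨D, hD, hS, hcm, hDt⟩ := exists_duals_T hl G hind
  rw [hFeq] at hD
  have hFk : ∀ a u, ∃ c : k, (F a).coeff u = algebraMap k L c := fun a u => by
    rw [hFG, coeff_map]
    exact ⟨_, rfl⟩
  have hFK : ∀ ξ a u, vE E ξ ((F a).coeff u) = 0 := fun ξ a u => by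
    obtain ⟨c, hc⟩ := hFk a u
    rw [hc]
    exact (E ξ).map_algebraMap c
  have hx0 : x ≠ 0 := by
    rintro h
    rw [h] at hx1
    exact zero_ne_one hx1
  have hind' := rank_Ve (l := fun _ : Fin 1 => l0) hx1 hE
  have hxC' : ∀ c ∈ (Finset.univ : Finset A), eval x (F c) = 0 := fun c _ => hxC c
  have hxb : ∀ b, b ∉ (Finset.univ : Finset A) → eval x (F b) ≠ 0 := fun b hb =>
    absurd (Finset.mem_univ b) hb
  have hp0 : 0 ≤ pht k x := pht_nonneg hx0
  have hcoef : ∀ (P : Place k L) a u, Ge P (-(0 : ℤ)) ((F a).coeff u) := fun P a u => by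
    obtain ⟨c, hc⟩ := hFk a u
    rw [hc, neg_zero]
    exact Ge.const _
  have hfin0 : {P : Place k L | (fun _ : Place k L => (0 : ℤ)) P ≠ 0}.Finite := by
    simp
  rcases tricho_P (E := vE E) hpos hF hD hFK hcm hn hsum hxC hx1 (l0 := l0)
    (fun a I => hDt a I 0) (by
      have h1 := hE 0 0
      rw [if_pos rfl] at h1
      change E 0 (x l0) ≠ 0
      rw [h1]
      exact one_ne_zero)
    hind' with ⟨y, ik, hik, hOn⟩ | ⟨w', b, u, t, rn, y, i0, ik, hi0, hik, hrn, hnum⟩ |
      ⟨w', rn, y, i0, ik, hi0, hik, hrn⟩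
  · rw [← hFeq] at hOn
    exact (no_onL hG hind (by omega) hik hOn).elim
  swap
  · exact Or.inr (exists_pln hpos hF hD hS hl hE hFk hxC hik hn hsum hx1 rn hi0 hrn)
  have hpl0 : pl x y ≠ 0 := fun h0 => hik (by rw [h0]; rfl)
  have hf0 : 0 ≤ fht k (pl x y) := fht_nonneg hpl0
  have key : ∀ (h r : ℤ) (Φ : (Fin 1 → Derivation k L L) → L),
      (∀ (M : Matrix (Fin 1) (Fin 1) L) (D1 D2 : Fin 1 → Derivation k L L),
        (∀ i f, D1 i f = ∑ j, M i j * D2 j f) → Φ D1 = M.det * Φ D2) → Φ E ≠ 0 →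
      (∀ Q : Place k L, Divisorial 1 Q → ∀ Dd : Fin 1 → Derivation k L L,
        (((∀ i, DerReg Q (Dd i)) ∧ ∀ b, b ∉ (Finset.univ : Finset A) →
            Q.ord (eval x (F b)) ≤ dg b * pord Q x) ∨ ∀ i, DerLog Q (Dd i)) →
        Ge Q (-(h * pord Q (nx x i0)) - r * po Q (np x y ik)) (Φ Dd)) →
      h * pht k x + r * fht k (pl x y) ≤ canDeg k L := by
    intro h r Φ hlin hΦE hΦ
    exact deg_ineq hi0 hik hlin hΦE fun Q Dd hDd =>
      hΦ Q (div_one Q) Dd (Or.inl ⟨hDd, fun b hb => absurd (Finset.mem_univ b) hb⟩)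
  rw [← or_assoc] at hnum
  rcases hnum with hnum | ⟨c1, c, hc1, hc2, htot⟩
  swap
  · -- the line meets a hypersurface in one point only
    left
    obtain ⟨r, hr⟩ : ∃ r, r = t - u := ⟨_, rfl⟩
    obtain ⟨Φ, hlin, hΦE, hΦ⟩ := exists_phi_neg hpos hF hD one_pos htr hS hl hE hFk hxC' hxb hi0
      hik rn hrn (h := c1) (r := r) (by simp only [Fintype.card_fin]; omega)
      (by simp only [Fintype.card_fin]; omega)
    have h1 := key (-c1) r Φ hlin hΦE fun Q hQ Dd hDd => (hΦ Q hQ Dd hDd).mono (by linarith)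
    obtain ⟨ht1, a, b', hab⟩ := htot
    obtain ⟨ξ, hξ⟩ := exists_xi (k := k) hik hab
    have h2 := sum_two (k := k) hx0 hpl0 hfin0
      (fun P => line_local_d (hpos c) (hF c) ht1 hik hξ P (hcoef P c))
    rw [finsum_zero] at h2
    have hd1 : (1 : ℤ) ≤ dg c := by exact_mod_cast hpos c
    have h3 : pht k x ≤ fht k (pl x y) := by nlinarith
    have hr1 : (c1 : ℤ) + 1 ≤ r := by
      have : c1 + 1 ≤ r := by omega
      exact_mod_cast this
    have hc0 : (0 : ℤ) ≤ c1 := by positivity
    have h4 : fht k (pl x y) ≤ canDeg k L := by nlinarith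
    exact h3.trans h4
  obtain ⟨h, hh⟩ : ∃ h, h = ∑ a, dg a - (n + 1 + b + t) := ⟨_, rfl⟩
  obtain ⟨r, hr⟩ : ∃ r, r = t - u := ⟨_, rfl⟩
  obtain ⟨Φ, hlin, hΦE, hΦ⟩ := exists_phi hpos hF hD one_pos htr hS hl hE hFk hxC' hxb hi0 hik rn
    hrn (h := h) (r := r) (by simp only [Fintype.card_fin]; omega)
    (by simp only [Fintype.card_fin]; omega)
  have h1 := key h r Φ hlin hΦE hΦ
  have hr0 : (0 : ℤ) ≤ r := by positivity
  have hh0 : (0 : ℤ) ≤ h := by positivity
  rcases hnum with ⟨h2, h3⟩ | ⟨h2, h3⟩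
  · left
    have e1 : (1 : ℤ) ≤ h := by exact_mod_cast (by omega : 1 ≤ h)
    nlinarith
  · right
    have e1 : (1 : ℤ) ≤ r := by exact_mod_cast (by omega : 1 ≤ r)
    have e2 : fht k (pl x y) ≤ canDeg k L := by nlinarith
    obtain ⟨Y, hY, hYh⟩ := pln_of_line (k := k) (by omega) hpl0
    exact ⟨Y, hY, hYh.trans e2⟩

/-- The degree of a curve on a generic complete intersection of dimension three, or a plane of
small height. -/
theorem part2 (hpos : ∀ a, 0 < dg a) (hn : n = Fintype.card A + 3) (hsum : ∑ a, dg a = n + 2)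
    {G : A → MvPolynomial (Fin (n + 1)) k} (hG : ∀ a, (G a).IsHomogeneous (dg a))
    (hind : AlgebraicIndependent k0 fun p : Cf n dg => (G p.1).coeff p.2.1)
    {x : Fin (n + 1) → L} {a b : Fin (n + 1)} (hb : x b ≠ 0)
    (hab : Transcendental k (x a / x b)) (hx : ∀ c, aeval x (G c) = 0) :
    pht k x ≤ canDeg k L ∨ ∃ Y, Pln x Y ∧ fht k Y ≤ canDeg k L := by
  have h1 := pht_scale (k := k) (f := x) ⟨b, hb⟩ (inv_ne_zero hb)
  rw [← h1]
  rcases part1 (L := L) hpos hn hsum hG hind (x := fun j => (x b)⁻¹ * x j) (j0 := b) (l0 := a)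
    (inv_mul_cancel₀ hb) (by
      rw [mul_comm, ← div_eq_mul_inv]
      exact hab) (fun c => by
      have h2 := eval_smul_hom ((hG c).map (algebraMap k L)) x (x b)⁻¹
      rw [eval_map, eval_map] at h2
      have h3 : (fun j => (x b)⁻¹ * x j) = (x b)⁻¹ • x := rfl
      rw [h3]
      change eval₂ (algebraMap k L) ((x b)⁻¹ • x) (G c) = 0
      rw [h2]
      have h4 : eval₂ (algebraMap k L) x (G c) = 0 := hx c
      rw [h4, mul_zero]) with h2 | ⟨Y, hY, hYh⟩
  · exact Or.inl h2
  · exact Or.inr ⟨Y, hY.scale (inv_ne_zero hb), hYh⟩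

end

end Pool.Agent.H435.CT
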