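import Pool.Agent.H435.CT.Fin

/-!
Curves of genus at least two are of general type.
-/

set_option autoImplicit false
set_option linter.unusedSectionVars false

open FF Pool.Agent.W603.LV Pool.Agent.W603.PV Pool.Agent.TH145.GH
open Pool.Agent.W602.GT Pool.Agent.TH145.GF
open Pool.Agent.Y741

namespace Pool.Agent.H435.CT

open Pool.Agent.H435.ST (const_of_alg)

variable {k L : Type} [Field k] [Field L] [Algebra k L] [CharZero k] [IsFF k L] [IsAlgClosed k]

/-- A canonical divisor. -/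
theorem exists_can {δ : Derivation k L L} (hδ : δ ≠ 0) :
    ∃ Kd : Place k L →₀ ℤ, (∀ P, Kd P = -vo P δ) ∧ ddeg Kd = canDeg k L := by
  classical
  have hv : {P : Place k L | vo P δ ≠ 0}.Finite := vo_finite (k := k) hδ
  have hfin : (Function.support fun P : Place k L => -vo P δ).Finite := by
    refine hv.subset fun P hP => ?_
    intro h0
    apply hP
    dsimp only
    rw [h0, neg_zero]
  refine ⟨Finsupp.ofSupportFinite _ hfin, fun P => rfl, ?_⟩
  unfold ddeg
  rw [Finsupp.sum]
  have h1 : ∀ P : Place k L, (Finsupp.ofSupportFinite _ hfin) P * (P.deg : ℤ) =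
      -vo P δ := fun P => by
    rw [deg_one, Nat.cast_one, mul_one]
    rfl
  rw [Finset.sum_congr rfl fun P _ => h1 P]
  have h2 : ∑ᶠ P : Place k L, -vo P δ =
      ∑ P ∈ (Finsupp.ofSupportFinite _ hfin).support, -vo P δ := by
    refine finsum_eq_sum_of_support_subset _ fun P hP => ?_
    rw [Finset.mem_coe, Finsupp.mem_support_iff]
    exact hP
  rw [← h2, finsum_neg_distrib, canDeg_eq hδ]

/-- Curves of genus at least two are of general type. -/
theorem gt_of_canDeg (h : 1 ≤ canDeg k L) : GeneralType k L 1 := by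
  classical
  have hFF : IsFF k L := inferInstance
  obtain ⟨δ, hδ⟩ := exists_der (k := k) (K := L)
  obtain ⟨u, hu⟩ := IsFF.exists_transcendental (k := k) (K := L)
  have hδu : δ u ≠ 0 := der_ne_zero hδ hu
  obtain ⟨γ, N0, h1, -⟩ := riemann k L
  obtain ⟨Kd, hKd, hdd⟩ := exists_can (k := k) hδ
  obtain ⟨N, hN, hN2⟩ : ∃ N : ℕ, 0 < N ∧ γ + 2 ≤ N := ⟨(γ + 2).toNat + 1, by omega, by omega⟩
  have h3 : 2 ≤ ell (N • Kd) := by
    have h4 := h1 (N • Kd)
    rw [ddeg_nsmul, hdd] at h4
    nlinarith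
  obtain ⟨f, hf, hfL⟩ : ∃ f : Fin 2 → L, LinearIndependent k f ∧ ∀ j, f j ∈ LL (N • Kd) := by
    have h4 : 2 ≤ Module.finrank k (LL (N • Kd)) := by
      unfold ell at h3
      exact_mod_cast h3
    obtain ⟨g, hg⟩ := exists_linearIndependent_of_le_finrank h4
    refine ⟨fun j => (g j : L), ?_, fun j => (g j).2⟩
    exact hg.map' (LL (N • Kd)).subtype (Submodule.ker_subtype _)
  have hf0 : f 0 ≠ 0 := hf.ne_zero 0
  have hone : δ u / δ u = 1 := div_self hδu
  refine ⟨by rw [hFF.trdeg, Nat.cast_one], N, hN, fun j Dd => (Dd 0 u / δ u) ^ N * f j,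
    fun j M Dd => ?_, fun P _ j Dd hDd => ?_, fun _ => δ, ?_, ?_⟩
  · dsimp only
    rw [Fin.sum_univ_one, Matrix.det_unique]
    change (M 0 0 * Dd 0 u / δ u) ^ N * f j = M 0 0 ^ N * ((Dd 0 u / δ u) ^ N * f j)
    rw [mul_div_assoc, mul_pow, mul_assoc]
  · obtain ⟨c, hc⟩ : ∃ c, c = Dd 0 u / δ u := ⟨_, rfl⟩
    have hcf : ∀ g, Dd 0 g = c * δ g := by
      intro g
      obtain ⟨r, hr⟩ := ratio hu g
      rw [hr (Dd 0), hr δ, hc]
      field_simp
    change P.Reg ((Dd 0 u / δ u) ^ N * f j)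
    rw [← hc]
    by_cases hc0 : c = 0
    · left
      rw [hc0, zero_pow hN.ne', zero_mul]
    have hfj : f j ≠ 0 := hf.ne_zero j
    right
    have hπ := ord_unif P
    have hδπ := der_pi_ne_zero hδ P hπ
    have h4 := hDd 0 (unif P) (Or.inr (by rw [hπ]; norm_num))
    rw [hcf] at h4
    have h5 : 0 ≤ P.ord (c * δ (unif P)) := h4.resolve_left (mul_ne_zero hc0 hδπ)
    rw [P.ord_mul hc0 hδπ] at h5
    have h6 := ((mem_LL.1 (hfL j)).resolve_left hfj) P
    rw [P.ord_mul (pow_ne_zero _ hc0) hfj, P.ord_pow]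
    have h7 : (N • Kd) P = N * -vo P δ := by
      rw [Finsupp.smul_apply, hKd, nsmul_eq_mul]
    rw [h7] at h6
    have h8 : vo P δ = P.ord (δ (unif P)) := rfl
    rw [← h8] at h5
    nlinarith
  · dsimp only
    rw [hone, one_pow, one_mul]
    exact hf0
  · have h4 : Transcendental k (f 1 / f 0) := by
      intro hA
      obtain ⟨r, hr⟩ := const_of_alg (k := k) (L := L) (t := f 1 / f 0) fun h => h hA
      have h5 : f 1 = r • f 0 := by
        rw [Algebra.smul_def, hr, div_mul_cancel₀ _ hf0]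
      have h6 := (Fintype.linearIndependent_iff.1 hf) ![r, -1] (by
        rw [Fin.sum_univ_two]
        change r • f 0 + (-1 : k) • f 1 = 0
        rw [h5, neg_smul, one_smul, add_neg_cancel]) 1
      change (-1 : k) = 0 at h6
      exact one_ne_zero (neg_eq_zero.1 h6)
    rw [algebraicIndependent_unique_type_iff]
    change Transcendental k ((δ u / δ u) ^ N * f 1 / ((δ u / δ u) ^ N * f 0))
    rw [hone, one_pow, one_mul, one_mul]
    exact h4

end Pool.Agent.H435.CT
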