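import Pool.Agent.H435.ST.Low

/-!
Independent values of forms at a point of a plane curve.
-/

set_option autoImplicit false
set_option linter.unusedSectionVars false

open MvPolynomial FF Pool.Agent.W603.LV Pool.Agent.W603.PV Pool.Agent.TH145.GH
open Pool.Agent.Y735 (rho rho_X eval_rho rho_deg)
open Pool.Agent.W602.GT Pool.Agent.TH145.GF
open scoped IntermediateField

namespace Pool.Agent.H435.CT

open Pool.Agent.H435.ST (eval_map_alg rho_ne aeval_rho lin_pow const_of_alg ge_sub exists_three)

/-- The exponents of the monomials of degree `d` that are not divisible by a power of a leading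
monomial. -/
abbrev Tri (d e : ℕ) : Type :=
  {p : Fin (d + 1) × Fin (d + 1) // (p.1 : ℕ) + p.2 ≤ d ∧ (p.2 : ℕ) < e}

section

variable {k L : Type} [Field k] [Field L] [Algebra k L] [IsAlgClosed k] [CharZero k] [IsFF k L]

/-- The lower bound for the number of the conditions. -/
theorem lower {m : ℕ} (hm : 0 < m) {f : MvPolynomial (Fin (2 + 1)) k} (hf : f.IsHomogeneous m)
    (hf0 : f ≠ 0) {z : Fin (2 + 1) → L} (hz : eval z (map (algebraMap k L) f) = 0)
    {b0 : Fin (2 + 1)} (hb0 : z b0 ≠ 0) (hnc : ∃ a, Transcendental k (z a / z b0))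
    (hgen : IntermediateField.adjoin k (Set.range fun a => z a / z b0) = ⊤) :
    ∃ e : ℕ, pht k z = e ∧ 1 ≤ e ∧ e ≤ m ∧ ∀ d : ℕ, ∃ v : Tri d e → MvPolynomial (Fin (2 + 1)) k,
      (∀ p, (v p).IsHomogeneous d) ∧
        LinearIndependent k fun p => eval z (map (algebraMap k L) (v p)) := by
  classical
  have hLz : CharZero L := charZero_of_injective_algebraMap (algebraMap k L).injective
  obtain ⟨c, hc⟩ : ∃ c : Fin (2 + 1) → k, eval c f ≠ 0 := by
    by_contra hcon
    push Not at hcon
    exact hf0 (MvPolynomial.funext fun c => by rw [hcon, map_zero])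
  obtain ⟨j, hj⟩ : ∃ j, c j ≠ 0 := by
    by_contra hcon
    push Not at hcon
    apply hc
    have h1 : c = (0 : k) • (0 : Fin (2 + 1) → k) := by
      funext l
      rw [hcon]
      simp
    rw [h1, eval_smul_hom hf, zero_pow hm.ne', zero_mul]
  have hz0 : z ≠ 0 := fun h => hb0 (by rw [h]; rfl)
  -- the coordinates
  obtain ⟨a, b, haj, hbj, hab, hall, hη⟩ : ∃ a b, a ≠ j ∧ b ≠ j ∧ a ≠ b ∧
      (∀ l, l = a ∨ l = b ∨ l = j) ∧
      z a - algebraMap k L (c a) * (z j / algebraMap k L (c j)) ≠ 0 := by
    obtain ⟨a, b, haj, hbj, hab, hall⟩ := exists_three j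
    by_cases ha : z a - algebraMap k L (c a) * (z j / algebraMap k L (c j)) ≠ 0
    · exact ⟨a, b, haj, hbj, hab, hall, ha⟩
    push Not at ha
    by_cases hb : z b - algebraMap k L (c b) * (z j / algebraMap k L (c j)) ≠ 0
    · exact ⟨b, a, hbj, haj, hab.symm, fun l => by
        rcases hall l with h | h | h
        · exact Or.inr (Or.inl h)
        · exact Or.inl h
        · exact Or.inr (Or.inr h), hb⟩
    push Not at hb
    exfalso
    have hzc : ∀ l, z l = algebraMap k L (c l) * (z j / algebraMap k L (c j)) := by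
      intro l
      rcases hall l with h | h | h
      · rw [h]; exact sub_eq_zero.1 ha
      · rw [h]; exact sub_eq_zero.1 hb
      · rw [h, mul_div_cancel₀]
        exact (_root_.map_ne_zero _).2 hj
    obtain ⟨a', ha'⟩ := hnc
    apply ha'
    have h1 : z a' / z b0 = algebraMap k L (c a' / c b0) := by
      rw [hzc a', hzc b0, map_div₀]
      have h2 : z j / algebraMap k L (c j) ≠ 0 := by
        intro h3
        apply hb0
        rw [hzc b0, h3, mul_zero]
      rw [mul_div_mul_right _ _ h2]
    rw [h1]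
    exact isAlgebraic_algebraMap _
  obtain ⟨h0, hh0⟩ : ∃ h0, h0 = z a - algebraMap k L (c a) * (z j / algebraMap k L (c j)) :=
    ⟨_, rfl⟩
  rw [← hh0] at hη
  obtain ⟨h1, hh1⟩ : ∃ h1, h1 = z b - algebraMap k L (c b) * (z j / algebraMap k L (c j)) :=
    ⟨_, rfl⟩
  obtain ⟨h2, hh2⟩ : ∃ h2, h2 = z j / algebraMap k L (c j) := ⟨_, rfl⟩
  rw [← hh2] at hh0 hh1
  have hzl : ∀ l, z l = h0 * (Pi.single a 1 : Fin (2 + 1) → L) l +
      h1 * (Pi.single b 1 : Fin (2 + 1) → L) l + h2 * algebraMap k L (c l) := by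
    intro l
    rcases hall l with h | h | h
    · rw [h, Pi.single_eq_same, Pi.single_eq_of_ne hab, hh0]
      ring
    · rw [h, Pi.single_eq_same, Pi.single_eq_of_ne hab.symm, hh1]
      ring
    · rw [h, Pi.single_eq_of_ne haj.symm, Pi.single_eq_of_ne hbj.symm, hh2, mul_zero, mul_zero,
        zero_add, zero_add, div_mul_cancel₀]
      exact (_root_.map_ne_zero _).2 hj
  obtain ⟨s, hs⟩ : ∃ s, s = h1 / h0 := ⟨_, rfl⟩
  obtain ⟨t, ht⟩ : ∃ t, t = h2 / h0 := ⟨_, rfl⟩
  obtain ⟨z', hz'⟩ : ∃ z' : Fin (2 + 1) → L, ∀ l, z' l = h0⁻¹ * z l := ⟨_, fun _ => rfl⟩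
  have hz'l : ∀ l, z' l = (Pi.single a 1 : Fin (2 + 1) → L) l +
      s * (Pi.single b 1 : Fin (2 + 1) → L) l + t * algebraMap k L (c l) := by
    intro l
    rw [hz', hzl l, hs, ht]
    field_simp
  have hz'f : z' = h0⁻¹ • z := funext hz'
  have hz'F : eval z' (map (algebraMap k L) f) = 0 := by
    rw [hz'f, eval_smul_hom (hf.map _), hz, mul_zero]
  have hq : ∀ a', z' a' / z' b0 = z a' / z b0 := by
    intro a'
    rw [hz', hz', mul_div_mul_left _ _ (inv_ne_zero hη)]
  -- the function `s` is not constant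
  have hsT : Transcendental k s := by
    by_contra hcon
    obtain ⟨σ, hσ⟩ := const_of_alg hcon
    have htA : ¬ Transcendental k t := by
      intro htT
      have h3 := rho_ne (E := k) hf hc ((Pi.single a 1 : Fin (2 + 1) → k) +
        σ • (Pi.single b 1 : Fin (2 + 1) → k))
      apply htT
      refine ⟨_, h3, ?_⟩
      rw [aeval_rho]
      have h4 : (fun l => t * algebraMap k L (algebraMap k k (c l)) + algebraMap k L
          (((Pi.single a 1 : Fin (2 + 1) → k) + σ • (Pi.single b 1 : Fin (2 + 1) → k)) l)) =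
          z' := by
        funext l
        rw [hz'l, Pi.add_apply, Pi.smul_apply, smul_eq_mul, map_add, map_mul, hσ]
        have h5 : ∀ a : Fin (2 + 1), algebraMap k L ((Pi.single a 1 : Fin (2 + 1) → k) l) =
            (Pi.single a 1 : Fin (2 + 1) → L) l := by
          intro a
          by_cases h : l = a
          · rw [h, Pi.single_eq_same, Pi.single_eq_same, map_one]
          · rw [Pi.single_eq_of_ne h, Pi.single_eq_of_ne h, map_zero]
        rw [h5, h5]
        change t * algebraMap k L (c l) + _ = _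
        ring
      rw [h4, map_map]
      exact hz'F
    obtain ⟨τ, hτ⟩ := const_of_alg htA
    obtain ⟨a', ha'⟩ := hnc
    apply ha'
    have h5 : ∀ l, ∃ r : k, z' l = algebraMap k L r := by
      intro l
      refine ⟨(Pi.single a 1 : Fin (2 + 1) → k) l + σ * (Pi.single b 1 : Fin (2 + 1) → k) l +
        τ * c l, ?_⟩
      rw [hz'l, ← hσ, ← hτ, map_add, map_add, map_mul, map_mul]
      have h5 : ∀ a : Fin (2 + 1), algebraMap k L ((Pi.single a 1 : Fin (2 + 1) → k) l) =
          (Pi.single a 1 : Fin (2 + 1) → L) l := by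
        intro a
        by_cases h : l = a
        · rw [h, Pi.single_eq_same, Pi.single_eq_same, map_one]
        · rw [Pi.single_eq_of_ne h, Pi.single_eq_of_ne h, map_zero]
      rw [h5, h5]
    obtain ⟨r, hr⟩ := h5 a'
    obtain ⟨r', hr'⟩ := h5 b0
    rw [← hq, hr, hr', ← map_div₀]
    exact isAlgebraic_algebraMap _
  -- the field over `k(s)`
  obtain ⟨K, hK⟩ : ∃ K : IntermediateField k L, K = k⟮s⟯ := ⟨_, rfl⟩
  have hsK : s ∈ K := by
    rw [hK]
    exact IntermediateField.mem_adjoin_simple_self k s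
  have hKf : FiniteDimensional K L := by
    rw [hK]
    exact IsFF.finite hsT
  have htI : IsIntegral K t := Algebra.IsIntegral.isIntegral t
  have htop : IntermediateField.adjoin K {t} = ⊤ := by
    have h3 : IntermediateField.adjoin k (Set.range fun a => z a / z b0) ≤
        (IntermediateField.adjoin K {t}).restrictScalars k := by
      rw [IntermediateField.adjoin_le_iff]
      rintro _ ⟨a', rfl⟩
      have h4 : ∀ l, z' l ∈ (IntermediateField.adjoin K {t}).restrictScalars k := by
        intro l
        rw [IntermediateField.mem_restrictScalars, hz'l]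
        have hs' : s ∈ IntermediateField.adjoin K {t} :=
          IntermediateField.algebraMap_mem _ (⟨s, hsK⟩ : K)
        have ht' : t ∈ IntermediateField.adjoin K {t} :=
          IntermediateField.mem_adjoin_simple_self K t
        have hk' : ∀ r : k, algebraMap k L r ∈ IntermediateField.adjoin K {t} := fun r =>
          IntermediateField.algebraMap_mem _ (algebraMap k K r)
        have hsg : ∀ a : Fin (2 + 1), (Pi.single a 1 : Fin (2 + 1) → L) l ∈
            IntermediateField.adjoin K {t} := by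
          intro a
          by_cases h : l = a
          · rw [h, Pi.single_eq_same]
            exact one_mem _
          · rw [Pi.single_eq_of_ne h]
            exact zero_mem _
        exact add_mem (add_mem (hsg a) (mul_mem hs' (hsg b))) (mul_mem ht' (hk' _))
      have h5 : z a' / z b0 = z' a' / z' b0 := (hq a').symm
      change z a' / z b0 ∈ _
      rw [h5]
      exact div_mem (h4 a') (h4 b0)
    rw [hgen] at h3
    rw [eq_top_iff]
    intro y _
    exact h3 (IntermediateField.mem_top : y ∈ (⊤ : IntermediateField k L))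
  obtain ⟨e, he⟩ : ∃ e, e = (minpoly K t).natDegree := ⟨_, rfl⟩
  have hef : Module.finrank K L = e := by
    rw [he, ← IntermediateField.adjoin.finrank htI, htop, IntermediateField.finrank_top']
  have he1 : 1 ≤ e := by
    rw [← hef]
    exact Module.finrank_pos
  have he6 : e ≤ m := by
    have h3 := rho_ne (E := K) hf hc (fun l => (Pi.single a 1 : Fin (2 + 1) → K) l +
      (⟨s, hsK⟩ : K) * (Pi.single b 1 : Fin (2 + 1) → K) l)
    have h4 := aeval_rho (M := L) (fun l => algebraMap k K (c l))
      (fun l => (Pi.single a 1 : Fin (2 + 1) → K) l +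
        (⟨s, hsK⟩ : K) * (Pi.single b 1 : Fin (2 + 1) → K) l)
      (map (algebraMap k K) f) t
    have h5 : (fun l => t * algebraMap K L (algebraMap k K (c l)) + algebraMap K L
        ((Pi.single a 1 : Fin (2 + 1) → K) l +
        (⟨s, hsK⟩ : K) * (Pi.single b 1 : Fin (2 + 1) → K) l)) = z' := by
      funext l
      rw [hz'l, map_add, map_mul]
      have h5 : ∀ a : Fin (2 + 1), algebraMap K L ((Pi.single a 1 : Fin (2 + 1) → K) l) =
          (Pi.single a 1 : Fin (2 + 1) → L) l := by
        intro a
        by_cases h : l = a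
        · rw [h, Pi.single_eq_same, Pi.single_eq_same, map_one]
        · rw [Pi.single_eq_of_ne h, Pi.single_eq_of_ne h, map_zero]
      rw [h5, h5]
      have h6 : algebraMap K L (⟨s, hsK⟩ : K) = s := rfl
      have h7 : algebraMap K L (algebraMap k K (c l)) = algebraMap k L (c l) := rfl
      rw [h6, h7]
      ring
    rw [h5, map_map] at h4
    have h6 : (algebraMap K L).comp (algebraMap k K) = algebraMap k L := rfl
    rw [h6, hz'F] at h4
    have h7 := Polynomial.natDegree_le_natDegree (minpoly.degree_le_of_ne_zero K t h3 h4)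
    rw [← he] at h7
    exact h7.trans (rho_deg _ _ (hf.map _))
  have hgt_s : hgt k s = e := by
    rw [hgt_eq_finrank hsT, ← hK, hef]
  -- the height
  have hz'0 : z' ≠ 0 := by
    intro h3
    have h4 := congrFun h3 b0
    rw [hz', Pi.zero_apply] at h4
    exact mul_ne_zero (inv_ne_zero hη) hb0 h4
  have hs0 : s ≠ 0 := by
    rintro rfl
    exact hsT isAlgebraic_zero
  have hpt : ∀ P : Place k L, pord P z' = -max (-P.ord s) 0 := by
    intro P
    obtain ⟨lam, z2, hlam, hlamP, hzz, hz2, i1, hi1⟩ := exists_scaled P hz'0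
    have hz2l : ∀ l, z2 l = lam⁻¹ * z' l := by
      intro l
      have h3 := congrFun hzz l
      rw [Pi.smul_apply, smul_eq_mul] at h3
      rw [h3, inv_mul_cancel_left₀ hlam]
    have ht2 : Ge P 0 (lam⁻¹ * t) := by
      have h3 := hz2 j
      rw [hz2l, hz'l, Pi.single_eq_of_ne haj.symm, Pi.single_eq_of_ne hbj.symm, mul_zero,
        zero_add, zero_add, ← mul_assoc] at h3
      have h4 := h3.mul (Ge.const (P := P) (c j)⁻¹)
      rw [add_zero] at h4
      have h5 : lam⁻¹ * t * algebraMap k L (c j) * algebraMap k L (c j)⁻¹ = lam⁻¹ * t := by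
        rw [mul_assoc (lam⁻¹ * t), ← map_mul, mul_inv_cancel₀ hj, map_one, mul_one]
      rwa [h5] at h4
    have h02 : Ge P 0 lam⁻¹ := by
      have h3 := (hz2 a).sub (ht2.mul (Ge.const (P := P) (c a)))
      rw [hz2l, hz'l, Pi.single_eq_same, Pi.single_eq_of_ne hab] at h3
      have h4 : lam⁻¹ * (1 + s * 0 + t * algebraMap k L (c a)) -
          lam⁻¹ * t * algebraMap k L (c a) = lam⁻¹ := by ring
      rwa [h4] at h3
    have hs2 : Ge P 0 (lam⁻¹ * s) := by
      have h3 := (hz2 b).sub (ht2.mul (Ge.const (P := P) (c b)))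
      rw [hz2l, hz'l, Pi.single_eq_same, Pi.single_eq_of_ne hab.symm] at h3
      have h4 : lam⁻¹ * (0 + s * 1 + t * algebraMap k L (c b)) -
          lam⁻¹ * t * algebraMap k L (c b) = lam⁻¹ * s := by ring
      rwa [h4] at h3
    have h3 : pord P z' ≤ 0 := by
      have h4 := h02.resolve_left (inv_ne_zero hlam)
      rw [P.ord_inv, hlamP] at h4
      linarith
    have h4 : pord P z' ≤ P.ord s := by
      have h5 := hs2.resolve_left (mul_ne_zero (inv_ne_zero hlam) hs0)
      rw [P.ord_mul (inv_ne_zero hlam) hs0, P.ord_inv, hlamP] at h5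
      linarith
    by_contra hne
    have h5 : pord P z' < 0 ∧ pord P z' < P.ord s := by
      rcases max_choice (-P.ord s) 0 with h6 | h6
      · rw [h6] at hne
        have h7 := le_max_right (-P.ord s) 0
        rw [h6] at h7
        constructor
        · omega
        · omega
      · rw [h6] at hne
        have h7 := le_max_left (-P.ord s) 0
        rw [h6] at h7
        constructor
        · omega
        · omega
    have h6 : Ge P 1 lam⁻¹ := by
      right
      rw [P.ord_inv, hlamP]
      linarith [h5.1]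
    have h7 : Ge P 1 (lam⁻¹ * s) := by
      right
      rw [P.ord_mul (inv_ne_zero hlam) hs0, P.ord_inv, hlamP]
      linarith [h5.2]
    obtain ⟨τ, hτ⟩ := exists_const P ht2
    have h8 : ∀ l, Ge P 1 (z2 l - algebraMap k L (τ * c l)) := by
      intro l
      have h9 : z2 l - algebraMap k L (τ * c l) =
          lam⁻¹ * (Pi.single a 1 : Fin (2 + 1) → L) l +
          lam⁻¹ * s * (Pi.single b 1 : Fin (2 + 1) → L) l +
          (lam⁻¹ * t - algebraMap k L τ) * algebraMap k L (c l) := by
        rw [hz2l, hz'l, map_mul]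
        ring
      rw [h9]
      have hsg : ∀ a : Fin (2 + 1), Ge P 0 ((Pi.single a 1 : Fin (2 + 1) → L) l) := by
        intro a
        by_cases h : l = a
        · rw [h, Pi.single_eq_same]
          exact Ge.one
        · rw [Pi.single_eq_of_ne h]
          exact Ge.zero
      have e1 := h6.mul (hsg a)
      have e2 := h7.mul (hsg b)
      have e3 := hτ.mul (Ge.const (P := P) (c l))
      rw [add_zero] at e1 e2 e3
      exact (e1.add e2).add e3
    have h9 := ge_sub P hz2 h8 f
    have h10 : eval z2 (map (algebraMap k L) f) = 0 := by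
      have h11 : z2 = lam⁻¹ • z' := funext hz2l
      rw [h11, eval_smul_hom (hf.map _), hz'F, mul_zero]
    have h11 : eval (fun l => τ * c l) f = 0 := by
      by_contra h12
      rw [h10, zero_sub] at h9
      have h12' : algebraMap k L (eval (fun l => τ * c l) f) ≠ 0 :=
        (_root_.map_ne_zero (algebraMap k L)).2 h12
      have h13 := h9.resolve_left (neg_ne_zero.2 h12')
      rw [P.ord_neg, P.ord_const h12] at h13
      omega
    have h12 : (fun l => τ * c l) = τ • c := rfl
    rw [h12, eval_smul_hom hf] at h11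
    have h13 : τ = 0 := by
      by_contra h14
      exact mul_ne_zero (pow_ne_zero _ h14) hc h11
    have h14 := h8 i1
    rw [hi1, h13, zero_mul, map_zero, sub_zero] at h14
    have h15 := h14.resolve_left one_ne_zero
    rw [P.ord_one] at h15
    omega
  have hph : pht k z = e := by
    have h3 := pht_scale (k := k) (f := z) ⟨b0, hb0⟩ (inv_ne_zero hη)
    have h4 : (fun l => h0⁻¹ * z l) = z' := (funext hz').symm
    rw [← h3, h4, ← hgt_s]
    unfold pht hgt
    rw [finsum_congr hpt, finsum_neg_distrib, neg_neg]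
  refine ⟨e, hph, he1, he6, fun d => ?_⟩
  -- the monomials
  have hb1 : LinearIndependent k fun i : ℕ => (⟨s, hsK⟩ : K) ^ i := by
    refine lin_pow ?_
    intro hA
    apply hsT
    have h3 := hA.algebraMap (A := L)
    exact h3
  have hc1 : LinearIndependent K fun i : Fin e => t ^ (i : ℕ) := by
    have h3 := linearIndependent_pow (K := K) t
    rw [← he] at h3
    exact h3
  have hbc := linearIndependent_smul hb1 hc1
  obtain ⟨g, hg⟩ : ∃ g : Tri d e → ℕ × Fin e,
    ∀ p, g p = ((p.1.1 : ℕ), (⟨(p.1.2 : ℕ), p.2.2⟩ : Fin e)) := ⟨_, fun _ => rfl⟩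
  have hginj : Function.Injective g := by
    intro p q hpq
    rw [hg, hg, Prod.mk.injEq, Fin.mk.injEq] at hpq
    exact Subtype.ext (Prod.ext (Fin.ext hpq.1) (Fin.ext hpq.2))
  have h3 := hbc.comp g hginj
  have h4 := h3.map' (LinearMap.mulLeft k (h0 ^ d)) (LinearMap.ker_eq_bot.2 fun u v huv => by
    rw [LinearMap.mulLeft_apply, LinearMap.mulLeft_apply] at huv
    exact mul_left_cancel₀ (pow_ne_zero _ hη) huv)
  obtain ⟨v, hv⟩ : ∃ v : Tri d e → MvPolynomial (Fin (2 + 1)) k, ∀ p, v p =
      (X a - C (c a / c j) * X j) ^ (d - (p.1.1 : ℕ) - p.1.2) *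
        (X b - C (c b / c j) * X j) ^ (p.1.1 : ℕ) * (C (1 / c j) * X j) ^ (p.1.2 : ℕ) :=
    ⟨_, fun _ => rfl⟩
  refine ⟨v, fun p => ?_, ?_⟩
  · have hXj : ∀ r : k, (C r * X j : MvPolynomial (Fin (2 + 1)) k).IsHomogeneous 1 := by
      intro r
      have h6 := (isHomogeneous_C (Fin (2 + 1)) r).mul (isHomogeneous_X k j)
      rwa [zero_add] at h6
    rw [hv]
    have h6 := ((((isHomogeneous_X k a).sub (hXj (c a / c j))).pow (d - (p.1.1 : ℕ) - p.1.2)).mul
      (((isHomogeneous_X k b).sub (hXj (c b / c j))).pow (p.1.1 : ℕ))).mul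
      ((hXj (1 / c j)).pow (p.1.2 : ℕ))
    have h7 : 1 * (d - (p.1.1 : ℕ) - p.1.2) + 1 * (p.1.1 : ℕ) + 1 * (p.1.2 : ℕ) = d := by
      have hp1 := p.2.1
      omega
    rwa [h7] at h6
  · have h5 : (fun p => eval z (map (algebraMap k L) (v p))) =
        (⇑(LinearMap.mulLeft k (h0 ^ d)) ∘ ((fun p : ℕ × Fin e =>
          (⟨s, hsK⟩ : K) ^ p.1 • t ^ (p.2 : ℕ)) ∘ g)) := by
      funext p
      have h7 : eval z (map (algebraMap k L) (v p)) = h0 ^ (d - (p.1.1 : ℕ) - p.1.2) *
          h1 ^ (p.1.1 : ℕ) * h2 ^ (p.1.2 : ℕ) := by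
        rw [hv]
        simp only [map_mul, map_pow, map_sub, map_X, map_C, eval_X, eval_C]
        rw [hh0, hh1, hh2, map_div₀, map_div₀, map_div₀, map_one]
        congr 2
        · congr 1
          ring
        · congr 1
          ring
        · ring
      rw [h7, Function.comp_apply, Function.comp_apply, hg, LinearMap.mulLeft_apply]
      have h9 : ((⟨s, hsK⟩ : K) ^ (p.1.1 : ℕ)) • t ^ (p.1.2 : ℕ) =
        s ^ (p.1.1 : ℕ) * t ^ (p.1.2 : ℕ) := rfl
      dsimp only
      rw [h9, hs, ht, div_pow, div_pow]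
      have h10 : h0 ^ d = h0 ^ (d - (p.1.1 : ℕ) - p.1.2) * h0 ^ (p.1.1 : ℕ) *
          h0 ^ (p.1.2 : ℕ) := by
        rw [← pow_add, ← pow_add]
        congr 1
        have hp1 := p.2.1
        omega
      rw [h10]
      field_simp
    rw [h5]
    exact h4

end

end Pool.Agent.H435.CT
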