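import Pool.Agent.H435.SC.GMain

/-!
The planes through the points of a curve on a generic complete intersection of dimension three.
-/

set_option autoImplicit false
set_option linter.unusedSectionVars false
set_option linter.unusedSimpArgs false

open MvPolynomial FF Pool.Agent.W603.LV Pool.Agent.W603.PV Pool.Agent.TH145.GH
open Pool.Agent.Y735 (lf pm tm pl vol vol_apply po po_le exists_po zp zp_pl zp_smul exists_xi rho
  eval_rho fht fht_fin fht_nonneg sum_two po_finite)
open Pool.Agent.W602.GT Pool.Agent.TH145.GF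

namespace Pool.Agent.H435.CT

open Pool.Agent.Y741

/-- Triples of indices. -/
abbrev T3 (n : ℕ) : Type := Fin (n + 1) × Fin (n + 1) × Fin (n + 1)

/-- The coordinates of a plane through a point. -/
structure Pln {L : Type} [Field L] {n : ℕ} (x : Fin (n + 1) → L) (Y : T3 n → L) : Prop where
  ne : Y ≠ 0
  rel : ∀ a b c e, x a * Y (b, c, e) - x b * Y (a, c, e) + x c * Y (a, b, e) -
    x e * Y (a, b, c) = 0

section alg

variable {K : Type} [Field K] {n : ℕ} {A : Type} [DecidableEq A] [Fintype A]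

/-- The data of the rows with one pair. -/
def rq (P : A → MvPolynomial (Fin (n + 1)) ℕ) (j l : Fin (n + 1)) :
    RN n A (Fin 0) (Fin 1) (Fin 0) (Fin 0) :=
  ⟨fun e => e.elim0, fun _ => P, fun _ => j, fun _ => l, fun e => e.elim0, fun e => e.elim0,
    fun e => e.elim0⟩

/-- The indices of the rows. -/
abbrev Rw (A : Type) [Fintype A] : Type :=
  Ri (Finset.univ : Finset A) (Fin 1 ⊕ Fin 0) (Fin 1) (Fin 0) (Fin 0)

variable (F : Fam K n A) (dg : A → ℕ) (D : A → (Fin (n + 1) →₀ ℕ) → Derivation ℤ K K)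
  (E : Fin 1 → Derivation ℤ K K) (x y : Fin (n + 1) → K) (ik : Fin (n + 1) × Fin (n + 1))
  (P : A → MvPolynomial (Fin (n + 1)) ℕ)

/-- The rows. -/
noncomputable def Rx (a j l : Fin (n + 1)) : Rw A → Fin (n + 1) → K :=
  rowE F dg D E Finset.univ x y a ik ((rq P j l).rd K)

/-- The rows with given last vectors. -/
noncomputable def Rg (a0 : Fin (n + 1)) (u v : Fin (n + 1) → K) : Rw A → Fin (n + 1) → K
  | Sum.inl c => vA D x (Pi.single c.1 (X a0 ^ dg c.1))
  | Sum.inr none => x
  | Sum.inr (some (Sum.inl (Sum.inl ξ))) => fun l => E ξ (x l)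
  | Sum.inr (some (Sum.inl (Sum.inr e))) => e.elim0
  | Sum.inr (some (Sum.inr (Sum.inl (Sum.inl _)))) => u
  | Sum.inr (some (Sum.inr (Sum.inl (Sum.inr _)))) => v
  | Sum.inr (some (Sum.inr (Sum.inr (Sum.inl e)))) => e.elim0
  | Sum.inr (some (Sum.inr (Sum.inr (Sum.inr e)))) => e.elim0

/-- The index of the first vector of the pair. -/
def p1 : Rw A := Sum.inr (some (Sum.inr (Sum.inl (Sum.inl 0))))

/-- The index of the second vector of the pair. -/
def p2 : Rw A := Sum.inr (some (Sum.inr (Sum.inl (Sum.inr 0))))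

open scoped Classical in
theorem Rg_upd1 (a0 : Fin (n + 1)) (u v w : Fin (n + 1) → K) :
    Function.update (Rg dg D E x a0 u v) p1 w = Rg dg D E x a0 w v := by
  funext κ
  rcases κ with c | _ | (ξ | a) | (b | b) | u' | t
  · exact Function.update_of_ne (by simp [p1]) _ _
  · exact Function.update_of_ne (by simp [p1]) _ _
  · exact Function.update_of_ne (by simp [p1]) _ _
  · exact a.elim0
  · rw [Subsingleton.elim b 0]
    exact Function.update_self _ _ _
  · exact Function.update_of_ne (by simp [p1]) _ _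
  · exact u'.elim0
  · exact t.elim0

open scoped Classical in
theorem Rg_upd2 (a0 : Fin (n + 1)) (u v w : Fin (n + 1) → K) :
    Function.update (Rg dg D E x a0 u v) p2 w = Rg dg D E x a0 u w := by
  funext κ
  rcases κ with c | _ | (ξ | a) | (b | b) | u' | t
  · exact Function.update_of_ne (by simp [p2]) _ _
  · exact Function.update_of_ne (by simp [p2]) _ _
  · exact Function.update_of_ne (by simp [p2]) _ _
  · exact a.elim0
  · exact Function.update_of_ne (by simp [p2]) _ _
  · rw [Subsingleton.elim b 0]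
    exact Function.update_self _ _ _
  · exact u'.elim0
  · exact t.elim0

open scoped Classical in
/-- The volume as a bilinear form in the vectors of the pair. -/
noncomputable def Og (V : Rw A ≃ Fin (n + 1)) (a0 : Fin (n + 1)) :
    (Fin (n + 1) → K) →ₗ[K] (Fin (n + 1) → K) →ₗ[K] K :=
  LinearMap.mk₂ K (fun u v => vol V (Rg dg D E x a0 u v))
    (fun u u' v => by
      rw [← Rg_upd1 dg D E x a0 0 v (u + u'), ← Rg_upd1 dg D E x a0 0 v u,
        ← Rg_upd1 dg D E x a0 0 v u', AlternatingMap.map_update_add])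
    (fun c u v => by
      rw [← Rg_upd1 dg D E x a0 0 v (c • u), ← Rg_upd1 dg D E x a0 0 v u,
        AlternatingMap.map_update_smul])
    (fun u v v' => by
      rw [← Rg_upd2 dg D E x a0 u 0 (v + v'), ← Rg_upd2 dg D E x a0 u 0 v,
        ← Rg_upd2 dg D E x a0 u 0 v', AlternatingMap.map_update_add])
    (fun c u v => by
      rw [← Rg_upd2 dg D E x a0 u 0 (c • v), ← Rg_upd2 dg D E x a0 u 0 v,
        AlternatingMap.map_update_smul])

theorem Og_apply (V : Rw A ≃ Fin (n + 1)) (a0 : Fin (n + 1)) (u v : Fin (n + 1) → K) :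
    Og dg D E x V a0 u v = vol V (Rg dg D E x a0 u v) := rfl

theorem Og_self (V : Rw A ≃ Fin (n + 1)) (a0 : Fin (n + 1)) (u : Fin (n + 1) → K) :
    Og dg D E x V a0 u u = 0 := by
  rw [Og_apply]
  exact (vol V).map_eq_zero_of_eq _ (i := p1) (j := p2) rfl (by simp [p1, p2])

theorem Og_swap (V : Rw A ≃ Fin (n + 1)) (a0 : Fin (n + 1)) (u v : Fin (n + 1) → K) :
    Og dg D E x V a0 u v = - Og dg D E x V a0 v u := by
  have h := Og_self dg D E x V a0 (u + v)
  simp only [map_add, LinearMap.add_apply, Og_self] at h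
  linear_combination h

/-- The vector fields of the form. -/
noncomputable def sv (a0 j : Fin (n + 1)) : Fin (n + 1) → K := vq D x (nf K P) (pm x a0 j)

/-- The coordinates of the plane. -/
noncomputable def Yc (V : Rw A ≃ Fin (n + 1)) (a0 : Fin (n + 1)) (q : T3 n) : K :=
  x q.1 * Og dg D E x V a0 (sv D x P a0 q.2.1) (sv D x P a0 q.2.2) -
    x q.2.1 * Og dg D E x V a0 (sv D x P a0 q.1) (sv D x P a0 q.2.2) +
    x q.2.2 * Og dg D E x V a0 (sv D x P a0 q.1) (sv D x P a0 q.2.1)

theorem Yc_rel (V : Rw A ≃ Fin (n + 1)) (a0 : Fin (n + 1)) (a b c e : Fin (n + 1)) :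
    x a * Yc dg D E x P V a0 (b, c, e) - x b * Yc dg D E x P V a0 (a, c, e) +
      x c * Yc dg D E x P V a0 (a, b, e) - x e * Yc dg D E x P V a0 (a, b, c) = 0 := by
  simp only [Yc]
  ring

theorem Yc_cyc (V : Rw A ≃ Fin (n + 1)) (a0 : Fin (n + 1)) (a b c : Fin (n + 1)) :
    Yc dg D E x P V a0 (a, b, c) = Yc dg D E x P V a0 (b, c, a) := by
  simp only [Yc]
  have h1 := Og_swap dg D E x V a0 (sv D x P a0 a) (sv D x P a0 c)
  have h2 := Og_swap dg D E x V a0 (sv D x P a0 a) (sv D x P a0 b)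
  linear_combination (-(x b)) * h1 + x c * h2

/-- The vector fields with another base point. -/
theorem sv_base {a0 : Fin (n + 1)} (ha0 : x a0 = 1) (a j : Fin (n + 1)) :
    sv D x P a j = x a • sv D x P a0 j - x j • sv D x P a0 a := by
  unfold sv
  rw [pm_scaled (x := x) (x' := x) (lam := 1) (by rw [one_smul]) ha0 a j, map_sub, map_smul,
    map_smul]

theorem Og_base (V : Rw A ≃ Fin (n + 1)) {a0 : Fin (n + 1)} (ha0 : x a0 = 1)
    (a j l : Fin (n + 1)) :
    Og dg D E x V a0 (sv D x P a j) (sv D x P a l) = x a * Yc dg D E x P V a0 (a, j, l) := by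
  rw [sv_base D x P ha0 a j, sv_base D x P ha0 a l]
  simp only [map_sub, map_smul, LinearMap.sub_apply, LinearMap.smul_apply, smul_eq_mul, Yc]
  have h1 := Og_swap dg D E x V a0 (sv D x P a0 j) (sv D x P a0 a)
  have h2 := Og_self dg D E x V a0 (sv D x P a0 a)
  linear_combination (-(x a * x l)) * h1 + x j * x l * h2

theorem Rx_eq (a j l : Fin (n + 1)) :
    Rx F dg D E x y ik P a j l = Rg dg D E x a (sv D x P a j) (sv D x P a l) := by
  funext κ
  rcases κ with c | _ | (ξ | a) | (b | b) | u' | t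
  · rfl
  · rfl
  · rfl
  · exact a.elim0
  · rfl
  · rfl
  · exact u'.elim0
  · exact t.elim0

theorem prod_fac (a : Fin (n + 1)) (mu : K) :
    (∏ κ : Rw A, fac dg (Finset.univ : Finset A) (x a) 1 mu κ) = ∏ c, x a ^ dg c := by
  rw [Fintype.prod_sum_type]
  have h1 : ∏ κ : Option ((Fin 1 ⊕ Fin 0) ⊕ (Fin 1 ⊕ Fin 1) ⊕ (Fin 0 ⊕ Fin 0)),
      fac dg (Finset.univ : Finset A) (x a) 1 mu (Sum.inr κ : Rw A) = 1 := by
    refine Finset.prod_eq_one fun κ _ => ?_
    rcases κ with _ | (ξ | a) | (b | b) | u' | t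
    · rfl
    · rfl
    · exact a.elim0
    · rfl
    · rfl
    · exact u'.elim0
    · exact t.elim0
  rw [h1, mul_one]
  have h2 : ∀ c : (Finset.univ : Finset A), fac dg (Finset.univ : Finset A) (x a) 1 mu
      (Sum.inl c : Rw A) = x a ^ dg c.1 := fun c => by
    change (x a / 1) ^ dg c.1 * 1 = _
    rw [_root_.div_one, mul_one]
  rw [Finset.prod_congr rfl fun c _ => h2 c]
  exact Finset.prod_coe_sort Finset.univ fun c => x a ^ dg c

variable {F dg D E x y ik P} (hF : ∀ a, (F a).IsHomogeneous (dg a)) (hD : TH145.GC.Dual F dg D)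
  (hxC : ∀ a, eval x (F a) = 0)

include hF hD hxC

/-- The volume of the rows. -/
theorem vol_Rx (V : Rw A ≃ Fin (n + 1)) {a0 : Fin (n + 1)} (ha0 : x a0 = 1)
    (hik : pl x y ik ≠ 0) {a j l : Fin (n + 1)}
    (hTC : TC F Finset.univ x ≤ Submodule.span K (Rx F dg D E x y ik P a j l '' {l | rk l < 3})) :
    vol V (Rx F dg D E x y ik P a j l) =
      (∏ c, x a ^ dg c) * (x a * Yc dg D E x P V a0 (a, j, l)) := by
  classical
  have h1 := row_replE (E := E) hF hD (C := Finset.univ) (fun c _ => hxC c) (i0 := a) ik hik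
    ((rq P j l).rd K) (fun t => t.elim0) hTC (x' := x) (lam := 1) one_ne_zero
    (by rw [one_smul]) ha0 (p' := fun q => pl x y q / pl x y ik) (mu := pl x y ik) hik
    (by
      funext q
      rw [Pi.smul_apply, smul_eq_mul, mul_div_cancel₀ _ hik]) ik (div_self hik) (vol V)
  rw [← Og_base dg D E x P V ha0 a j l, Og_apply, ← prod_fac dg x a (pl x y ik)]
  refine h1.trans ?_
  congr 2
  funext κ
  rcases κ with c | _ | (ξ | a) | (b | b) | u' | t
  · rfl
  · rfl
  · rfl
  · exact a.elim0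
  · exact (sv_base D x P ha0 a j).symm
  · exact (sv_base D x P ha0 a l).symm
  · exact u'.elim0
  · exact t.elim0

/-- The rows are independent if the coordinate of the plane is not zero. -/
theorem span_Rx (hpos : ∀ a, 0 < dg a) (hEF : ∀ ξ a u, E ξ ((F a).coeff u) = 0)
    (hP : ∀ a, (P a).IsHomogeneous (dg a - 1))
    (hn : n = Fintype.card A + 3) (V : Rw A ≃ Fin (n + 1)) {a0 : Fin (n + 1)} (ha0 : x a0 = 1)
    {a j l : Fin (n + 1)} (ha : x a ≠ 0) (hY : Yc dg D E x P V a0 (a, j, l) ≠ 0) :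
    TC F Finset.univ x ≤ Submodule.span K (Rx F dg D E x y ik P a j l '' {l | rk l < 3}) := by
  classical
  have hx0 : x ≠ 0 := by
    rintro rfl
    exact zero_ne_one ha0
  have h1 : vol V (Rg dg D E x a0 (sv D x P a j) (sv D x P a l)) ≠ 0 := by
    rw [← Og_apply, Og_base dg D E x P V ha0]
    exact mul_ne_zero ha hY
  have h2 : LinearIndependent K (Rg dg D E x a0 (sv D x P a j) (sv D x P a l)) := by
    rw [vol_apply, ← isUnit_iff_ne_zero, ← Matrix.isUnit_iff_isUnit_det] at h1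
    have h3 := Matrix.linearIndependent_rows_iff_isUnit.2 h1
    exact (linearIndependent_equiv V.symm).1 h3
  have h3 : LinearIndependent K (fun κ : Option ((Fin 1 ⊕ Fin 0) ⊕ (Fin 1 ⊕ Fin 1) ⊕
      (Fin 0 ⊕ Fin 0)) => Rx F dg D E x y ik P a j l (Sum.inr κ)) := by
    have h4 := h2.comp (Sum.inr : Option ((Fin 1 ⊕ Fin 0) ⊕ (Fin 1 ⊕ Fin 1) ⊕
      (Fin 0 ⊕ Fin 0)) → Rw A) Sum.inr_injective
    have h5 : (fun κ : Option ((Fin 1 ⊕ Fin 0) ⊕ (Fin 1 ⊕ Fin 1) ⊕ (Fin 0 ⊕ Fin 0)) =>
        Rx F dg D E x y ik P a j l (Sum.inr κ)) =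
        (Rg dg D E x a0 (sv D x P a j) (sv D x P a l)) ∘ Sum.inr := by
      funext κ
      rw [Rx_eq]
      rcases κ with _ | (ξ | a) | (b | b) | u' | t
      · rfl
      · rfl
      · exact a.elim0
      · rfl
      · rfl
      · exact u'.elim0
      · exact t.elim0
    rw [h5]
    exact h4
  have hPh : ∀ a, (nf K P a).IsHomogeneous (dg a - 1) := fun a => nf_hom hP a
  have hxC' : ∀ c ∈ (Finset.univ : Finset A), eval x (F c) = 0 := fun c _ => hxC c
  have hmem : ∀ κ : Option ((Fin 1 ⊕ Fin 0) ⊕ (Fin 1 ⊕ Fin 1) ⊕ (Fin 0 ⊕ Fin 0)),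
      Rx F dg D E x y ik P a j l (Sum.inr κ) ∈ TC F Finset.univ x := by
    intro κ
    rw [Rx_eq]
    rcases κ with _ | (ξ | a') | (b | b) | u' | t
    · exact x_mem_TC hF hxC'
    · exact Ve_le hEF hxC' (Submodule.subset_span ⟨ξ, rfl⟩)
    · exact a'.elim0
    · exact vq_mem_TC hpos hF hD hxC' hPh (by rw [Pool.Agent.Y735.sum_pm]; ring)
    · exact vq_mem_TC hpos hF hD hxC' hPh (by rw [Pool.Agent.Y735.sum_pm]; ring)
    · exact u'.elim0
    · exact t.elim0
  have hfr := TC_finrank hF hD hxC' hx0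
  rw [Finset.card_univ] at hfr
  have h5 : Submodule.span K (Set.range fun κ : Option ((Fin 1 ⊕ Fin 0) ⊕ (Fin 1 ⊕ Fin 1) ⊕
      (Fin 0 ⊕ Fin 0)) => Rx F dg D E x y ik P a j l (Sum.inr κ)) = TC F Finset.univ x := by
    refine Submodule.eq_of_le_of_finrank_eq ?_ ?_
    · rw [Submodule.span_le]
      rintro _ ⟨κ, rfl⟩
      exact hmem κ
    · rw [finrank_span_eq_card h3]
      simp only [Fintype.card_option, Fintype.card_sum, Fintype.card_fin]
      omega
  rw [← h5]
  refine Submodule.span_mono ?_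
  rintro _ ⟨κ, rfl⟩
  refine ⟨Sum.inr κ, ?_, rfl⟩
  rcases κ with _ | (ξ | a) | (b | b) | u' | t
  · simp [rk]
  · simp [rk]
  · exact a.elim0
  · simp [rk]
  · simp [rk]
  · exact u'.elim0
  · exact t.elim0

end alg

end Pool.Agent.H435.CT
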