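import Pool.Agent.H435.CT.Pla
import Pool.Agent.H435.SC.GDeg
import Pool.Agent.H435.VG.Fe

/-!
The height of the planes through the points of a curve on a generic complete intersection of
dimension three.
-/

set_option autoImplicit false
set_option linter.unusedSectionVars false

open MvPolynomial FF Pool.Agent.W603.LV Pool.Agent.W603.PV Pool.Agent.TH145.GH
open Pool.Agent.Y735 (lf pm tm pl vol vol_apply po po_le exists_po zp zp_pl zp_smul exists_xi rho
  eval_rho fht fht_fin fht_nonneg sum_two po_finite)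
open Pool.Agent.W602.GT Pool.Agent.TH145.GF

namespace Pool.Agent.H435.CT

open Pool.Agent.Y741
open Pool.Agent.H435.VG (ge_po le_po)

section

variable {k L : Type} [Field k] [Field L] [Algebra k L] [IsAlgClosed k] [CharZero k] [IsFF k L]
  {n : ℕ} {A : Type} [DecidableEq A] [Fintype A]
  {F : Fam L n A} {dg : A → ℕ} {D : A → (Fin (n + 1) →₀ ℕ) → Derivation ℤ L L}
  {E : Fin 1 → Derivation k L L} {x y : Fin (n + 1) → L} {ik : Fin (n + 1) × Fin (n + 1)}
  {P : A → MvPolynomial (Fin (n + 1)) ℕ}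
  (hpos : ∀ a, 0 < dg a) (hF : ∀ a, (F a).IsHomogeneous (dg a)) (hD : TH145.GC.Dual F dg D)
  (hS : ∀ a I, Sem k (D a I)) {t : Fin 1 → L} (ht : IsTranscendenceBasis k t)
  (hEt : ∀ i j, E i (t j) = if i = j then 1 else 0)
  (hFk : ∀ a u, ∃ c : k, (F a).coeff u = algebraMap k L c)
  (hxC : ∀ a, eval x (F a) = 0) (hik : pl x y ik ≠ 0)
  (hP : ∀ a, (P a).IsHomogeneous (dg a - 1)) (hn : n = Fintype.card A + 3)
  (hsum : ∑ a, dg a = n + 2)

include hpos hF hD hS ht hEt hFk hxC hik hP hn hsum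

/-- The order of a coordinate of the plane at a place. -/
theorem ge_Yc1 (V : Rw A ≃ Fin (n + 1)) {a0 : Fin (n + 1)} (ha0 : x a0 = 1) (Q : Place k L)
    {a : Fin (n + 1)} (ha : x a ≠ 0) (j l : Fin (n + 1)) :
    Ge Q (vo Q (E 0)) (Yc dg D (vE E) x P V a0 (a, j, l)) := by
  classical
  by_cases hY : Yc dg D (vE E) x P V a0 (a, j, l) = 0
  · exact Or.inl hY
  have hFF : IsFF k L := inferInstance
  have htr : Algebra.trdeg k L = (1 : ℕ) := by rw [hFF.trdeg, Nat.cast_one]
  have hEF : ∀ ξ a u, vE E ξ ((F a).coeff u) = 0 := fun ξ a u => by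
    obtain ⟨c, hc⟩ := hFk a u
    rw [hc]
    exact (E ξ).map_algebraMap c
  have hTC := span_Rx (E := vE E) (y := y) (ik := ik) hF hD hxC hpos hEF hP hn V ha0 ha hY
  have hvol := vol_Rx (E := vE E) hF hD hxC V ha0 hik hTC
  obtain ⟨Z, hZ⟩ : ∃ Z, Z = ∏ c, x a ^ dg c := ⟨_, rfl⟩
  rw [← hZ] at hvol
  have hZ0 : Z ≠ 0 := by
    rw [hZ]
    exact Finset.prod_ne_zero_iff.2 fun c _ => pow_ne_zero _ ha
  have hdet : vol V (Rx F dg D (vE E) x y ik P a j l) ≠ 0 := by
    rw [hvol]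
    exact mul_ne_zero hZ0 (mul_ne_zero ha hY)
  obtain ⟨δ, hδ⟩ : ∃ δ, δ = E 0 := ⟨_, rfl⟩
  have hδ0 : δ ≠ 0 := by
    intro h0
    have h1 := hEt 0 0
    rw [← hδ, h0, if_pos rfl] at h1
    exact zero_ne_one h1
  have hπ := ord_unif Q
  have hδπ := der_pi_ne_zero hδ0 Q hπ
  obtain ⟨Dd, hDd⟩ : ∃ Dd : Fin 1 → Derivation k L L, ∀ i, Dd i = (δ (unif Q))⁻¹ • δ :=
    ⟨fun _ => _, fun _ => rfl⟩
  have hPh : ∀ (b : Fin 1) a, (((rq P j l).rd L).PB b a).IsHomogeneous (dg a - 1) := fun _ a =>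
    nf_hom hP a
  have hcard : (Finset.univ : Finset A).card + 1 + (1 + Fintype.card (Fin 0)) +
      2 * Fintype.card (Fin 1) + Fintype.card (Fin 0) + Fintype.card (Fin 0) = n + 1 := by
    rw [Finset.card_univ, Fintype.card_fin, Fintype.card_fin]
    omega
  have h1 := ord_phi hpos hF hD one_pos htr (div_one Q) hS ht hEt hFk (Dd := Dd) (by
      rw [Matrix.det_unique, Matrix.of_apply, hDd]
      change (δ (unif Q))⁻¹ * δ (t default) ≠ 0
      rw [hδ, show (default : Fin 1) = 0 from rfl, hEt 0 0, if_pos rfl, mul_one, ← hδ]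
      exact inv_ne_zero hδπ) (fun c _ => hxC c)
    (fun b hb => absurd (Finset.mem_univ b) hb) ha hik ((rq P j l).rd L) hPh
    (fun e => e.elim0) (fun e => e.elim0) (fun b a => nf_nc _ a) (fun e => e.elim0)
    (fun e => e.elim0) (fun e => e.elim0) hTC hcard V hdet
    (Or.inl ⟨fun i f hf => by
      rw [hDd]
      exact der_reg Q hπ ((δ (unif Q))⁻¹ • δ) (by simp [hδπ]) hf,
      fun b hb => absurd (Finset.mem_univ b) hb⟩)
  have h2 : vol V (rowE F dg D (vE Dd) Finset.univ x y a ik ((rq P j l).rd L)) =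
      (δ (unif Q))⁻¹ * vol V (Rx F dg D (vE E) x y ik P a j l) := by
    have h3 := vol_lin (F := F) (dg := dg) (D := D) (E1 := vE Dd) (E2 := vE E)
      (C := Finset.univ) (x := x) (y := y) (i0 := a) (ik := ik) ((rq P j l).rd L) V
      (Matrix.of fun _ _ => (δ (unif Q))⁻¹) (fun ξ f => by
        rw [Fin.sum_univ_one, Matrix.of_apply]
        change Dd ξ f = (δ (unif Q))⁻¹ * E 0 f
        rw [hDd, ← hδ]
        rfl)
    rw [Matrix.det_unique, Matrix.of_apply] at h3
    exact h3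
  have h4 : (∏ c ∈ (Finset.univ : Finset A), x a ^ dg c) *
      ∏ b ∈ (Finset.univ : Finset A)ᶜ, eval x (F b) = Z := by
    rw [Finset.compl_univ, Finset.prod_empty, mul_one, hZ]
  rw [h4, h2, hvol] at h1
  have h5 : (δ (unif Q))⁻¹ * (Z * (x a * Yc dg D (vE E) x P V a0 (a, j, l))) / Z =
      (δ (unif Q))⁻¹ * (x a * Yc dg D (vE E) x P V a0 (a, j, l)) := by
    field_simp
  rw [h5, Q.ord_mul (inv_ne_zero hδπ) (mul_ne_zero ha hY), Q.ord_inv, Q.ord_mul ha hY,
    Fintype.card_fin, Fintype.card_fin, hsum] at h1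
  right
  rw [← hδ]
  unfold vo
  push_cast at h1
  linarith

/-- The order of the coordinates of the plane at a place. -/
theorem ge_Yc (V : Rw A ≃ Fin (n + 1)) {a0 : Fin (n + 1)} (ha0 : x a0 = 1) (Q : Place k L)
    (q : T3 n) : Ge Q (vo Q (E 0)) (Yc dg D (vE E) x P V a0 q) := by
  obtain ⟨a, j, l⟩ := q
  have key := fun {a : Fin (n + 1)} (ha : x a ≠ 0) (j l : Fin (n + 1)) =>
    ge_Yc1 hpos hF hD hS ht hEt hFk hxC hik hP hn hsum V ha0 Q ha j l
  by_cases ha : x a = 0
  · by_cases hj : x j = 0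
    · by_cases hl : x l = 0
      · left
        simp only [Yc]
        rw [ha, hj, hl]
        ring
      · rw [Yc_cyc, Yc_cyc]
        exact key hl a j
    · rw [Yc_cyc]
      exact key hj l a
  · exact key ha j l

/-- The height of the plane. -/
theorem fht_Yc (V : Rw A ≃ Fin (n + 1)) {a0 : Fin (n + 1)} (ha0 : x a0 = 1)
    (hY : Yc dg D (vE E) x P V a0 ≠ 0) :
    fht k (Yc dg D (vE E) x P V a0) ≤ canDeg k L := by
  have hx0 : x ≠ 0 := by
    rintro rfl
    exact zero_ne_one ha0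
  obtain ⟨δ, hδ⟩ : ∃ δ, δ = E 0 := ⟨_, rfl⟩
  have hδ0 : δ ≠ 0 := by
    intro h0
    have h1 := hEt 0 0
    rw [← hδ, h0, if_pos rfl] at h1
    exact zero_ne_one h1
  have h1 := sum_two (k := k) hx0 hY (a := 0) (b := -1) (c := 0) (g := (1 : L)) (Θ := (1 : L))
    (C := fun Q => -vo Q δ) (by
      refine (vo_finite (k := k) hδ0).subset fun P hP => ?_
      intro h0
      apply hP
      rw [h0, neg_zero]) (fun Q => by
      rw [Q.ord_one]
      have h2 := le_po Q hY (ge_Yc hpos hF hD hS ht hEt hFk hxC hik hP hn hsum V ha0 Q)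
      rw [← hδ] at h2
      linarith)
  have h2 : ∑ᶠ P : Place k L, -vo P δ = canDeg k L := by
    rw [canDeg_eq hδ0, finsum_neg_distrib]
  rw [h2] at h1
  linarith

end

section

variable {k L : Type} [Field k] [Field L] [Algebra k L] [IsAlgClosed k] [CharZero k] [IsFF k L]
  {n : ℕ} {A : Type} [DecidableEq A] [Fintype A]
  {F : Fam L n A} {dg : A → ℕ} {D : A → (Fin (n + 1) →₀ ℕ) → Derivation ℤ L L}
  {E : Fin 1 → Derivation k L L} {x y : Fin (n + 1) → L} {ik : Fin (n + 1) × Fin (n + 1)}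

/-- The plane that is given by a valid choice of the rows. -/
theorem exists_pln (hpos : ∀ a, 0 < dg a) (hF : ∀ a, (F a).IsHomogeneous (dg a))
    (hD : TH145.GC.Dual F dg D) (hS : ∀ a I, Sem k (D a I)) {t : Fin 1 → L}
    (ht : IsTranscendenceBasis k t) (hEt : ∀ i j, E i (t j) = if i = j then 1 else 0)
    (hFk : ∀ a u, ∃ c : k, (F a).coeff u = algebraMap k L c)
    (hxC : ∀ a, eval x (F a) = 0) (hik : pl x y ik ≠ 0) (hn : n = Fintype.card A + 3)
    (hsum : ∑ a, dg a = n + 2) {a0 : Fin (n + 1)} (ha0 : x a0 = 1) {w : ℕ}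
    (rn : RN n A (Fin w) (Fin 1) (Fin 0) (Fin 0)) {i0 : Fin (n + 1)} (hi0 : x i0 ≠ 0)
    (hrn : VRE F dg D (vE E) Finset.univ x y i0 ik rn) :
    ∃ Y : T3 n → L, Pln x Y ∧ fht k Y ≤ canDeg k L := by
  classical
  have hcard := hrn.card
  rw [Finset.card_univ] at hcard
  simp only [Fintype.card_fin] at hcard
  have hw : w = 0 := by omega
  subst hw
  obtain ⟨P, hPd⟩ : ∃ P, P = rn.PB 0 := ⟨_, rfl⟩
  obtain ⟨j, hj⟩ : ∃ j, j = rn.jb 0 := ⟨_, rfl⟩
  obtain ⟨l, hl⟩ : ∃ l, l = rn.lb 0 := ⟨_, rfl⟩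
  have hrq : rn = rq P j l := by
    obtain ⟨wa, PB, jb, lb, PU, tu, PT⟩ := rn
    subst hPd hj hl
    unfold rq
    congr 1
    · funext e
      exact e.elim0
    · funext e
      rw [Subsingleton.elim e 0]
    · funext e
      rw [Subsingleton.elim e 0]
    · funext e
      rw [Subsingleton.elim e 0]
    · funext e
      exact e.elim0
    · funext e
      exact e.elim0
    · funext e
      exact e.elim0
  have hP : ∀ a, (P a).IsHomogeneous (dg a - 1) := fun a => by
    rw [hPd]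
    exact hrn.PB 0 a
  have hEc : Fintype.card (Rw A) = Fintype.card (Fin (n + 1)) := by
    simp only [Fintype.card_option, Fintype.card_sum, Fintype.card_fin, Fintype.card_coe,
      Finset.card_univ]
    omega
  obtain ⟨V⟩ : Nonempty (Rw A ≃ Fin (n + 1)) := Fintype.card_eq.1 hEc
  have hspan : TC F Finset.univ x ≤
      Submodule.span L (Rx F dg D (vE E) x y ik P i0 j l '' {l | rk l < 3}) := by
    have h1 := hrn.span
    rw [hrq] at h1
    exact h1
  have hxC' : ∀ c ∈ (Finset.univ : Finset A), eval x (F c) = 0 := fun c _ => hxC c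
  obtain ⟨R, hR⟩ : ∃ R, R = Rx F dg D (vE E) x y ik P i0 j l := ⟨_, rfl⟩
  have htop : Submodule.span L (Set.range R) = ⊤ := by
    rw [eq_top_iff]
    intro z _
    have h1 := exists_dec hF hD hxC' hi0 z
    have h2 : Submodule.span L (Rx F dg D (vE E) x y ik P i0 j l '' {l | rk l < 3}) ≤
        Submodule.span L (Set.range R) := by
      rw [hR]
      exact Submodule.span_mono (Set.image_subset_range _ _)
    have h3 := h2 (hspan h1)
    have h4 : ∑ c : (Finset.univ : Finset A), (-(dF (F c) x z / x i0 ^ dg c.1)) •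
        vA D x (Pi.single c.1 (X i0 ^ dg c.1)) ∈ Submodule.span L (Set.range R) :=
      sum_mem fun c _ => Submodule.smul_mem _ _ (Submodule.subset_span
        ⟨Sum.inl c, by rw [hR]; rfl⟩)
    have h5 := add_mem h3 h4
    rwa [sub_add_cancel] at h5
  have hind : LinearIndependent L R :=
    linearIndependent_of_top_le_span_of_card_eq_finrank htop.ge (by
      rw [hEc, Fintype.card_fin, Module.finrank_fin_fun])
  have hdet : vol V R ≠ 0 := by
    rw [vol_apply]
    have h4 := Matrix.linearIndependent_rows_iff_isUnit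
      (A := Matrix.of fun i => R (V.symm i))
    rw [Matrix.isUnit_iff_isUnit_det, isUnit_iff_ne_zero] at h4
    refine h4.1 ?_
    exact (linearIndependent_equiv V.symm).2 hind
  have hvol := vol_Rx (E := vE E) hF hD hxC V ha0 hik hspan
  rw [← hR] at hvol
  rw [hvol] at hdet
  have hY : Yc dg D (vE E) x P V a0 ≠ 0 := by
    intro h0
    apply hdet
    rw [h0, Pi.zero_apply, mul_zero, mul_zero]
  exact ⟨_, ⟨hY, Yc_rel dg D (vE E) x P V a0⟩,
    fht_Yc hpos hF hD hS ht hEt hFk hxC hik hP hn hsum V ha0 hY⟩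

end

end Pool.Agent.H435.CT
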