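import Pool.Agent.H435.CT.Top

/-!
Generic complete intersections: the exceptional set.
-/

set_option autoImplicit false
set_option linter.unusedSectionVars false

open MvPolynomial FF Pool.Agent.W603.LV Pool.Agent.W603.PV Pool.Agent.TH145.GH
open Pool.Agent.Y735 (pl rho eval_rho)
open Pool.Agent.TH145.GC (Cf Rt)
open Pool.Agent.W602.GT Pool.Agent.TH145.MG Pool.Agent.TH145.GF
open Pool.Agent.Y221.PB (PtdMaps ptd_of_bound)

namespace Pool.Agent.H435.CT

open Pool.Agent.Y741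

section

variable {k0 k : Type} [Field k0] [Field k] [Algebra k0 k] [IsAlgClosed k] [CharZero k] {n : ℕ}
  {A : Type} [Fintype A] [DecidableEq A] {d : A → ℕ} {G : A → MvPolynomial (Fin (n + 1)) k}

/-- The range in which all lines are known to be the only obstruction. -/
theorem gt_form (hn : 1 ≤ n) (hd0 : ∀ a, 0 < d a) (hG : ∀ a, (G a).IsHomogeneous (d a))
    (hind : AlgebraicIndependent k0 fun p : Cf n d => (G p.1).coeff p.2.1)
    (hd : 3 * n + 2 ≤ 2 * ∑ a, d a + Fintype.card A ∨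
      (n = Fintype.card A + 3 ∧ ∑ a, d a = n + 2)) {H : MvPolynomial (Fin (n + 1)) k}
    (hH : ∀ W, LineX G W → ∀ v ∈ W, eval v H = 0) {K : Type} [Field K] [Algebra k K] {w : ℕ}
    {y : Fin (n + 1) → K} (hw : 0 < w) (hy : SubX G w y) (hne : aeval y H ≠ 0) :
    GeneralType k K w := by
  rcases hd with hd | hd
  · exact Pool.Agent.H435.SC.gt_of_form (k0 := k0) hn hd0 hG hind hd hH hw hy hne
  · exact all_gt (k0 := k0) hd0 hG hind (Or.inr hd) (by omega) hn K w y hw hy

/-- The degrees of the curves that are not in `H = 0`. -/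
theorem deg_form (hn : 1 ≤ n) (hd0 : ∀ a, 0 < d a) (hG : ∀ a, (G a).IsHomogeneous (d a))
    (hind : AlgebraicIndependent k0 fun p : Cf n d => (G p.1).coeff p.2.1)
    (hd : 3 * n + 2 ≤ 2 * ∑ a, d a + Fintype.card A ∨
      (n = Fintype.card A + 3 ∧ ∑ a, d a = n + 2)) {H : MvPolynomial (Fin (n + 1)) k} {m : ℕ}
    (hHm : H.IsHomogeneous m) (hH : ∀ W, LineX G W → ∀ v ∈ W, eval v H = 0) :
    ∃ B : ℕ, ∀ (L : Type) [Field L] [Algebra k L] [IsFF k L] (x : Fin (n + 1) → L),
      PtX G x → aeval x H ≠ 0 → pht k x ≤ B * max (canDeg k L) 0 := by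
  rcases hd with hd | hd
  · obtain ⟨e, he⟩ : ∃ e, ∀ a, d a ≤ e := ⟨∑ a, d a, fun a =>
      Finset.single_le_sum (f := d) (fun _ _ => Nat.zero_le _) (Finset.mem_univ a)⟩
    exact ⟨e, fun L _ _ _ x hx hne => Pool.Agent.H435.SC.deg_of_form (k0 := k0) hn hd0 hG hind hd
      hHm hH hx.1 hx.2 hne he⟩
  · obtain ⟨B, hB⟩ := deg_all' (k0 := k0) hd0 hG hind (Or.inr hd) (by omega) hn
    exact ⟨B, fun L _ _ _ x hx _ => hB L x hx⟩

/-- Pointed maps. -/
theorem ptd_form (hn : 1 ≤ n) (hd0 : ∀ a, 0 < d a) (hG : ∀ a, (G a).IsHomogeneous (d a))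
    (hind : AlgebraicIndependent k0 fun p : Cf n d => (G p.1).coeff p.2.1)
    (hd : 3 * n + 2 ≤ 2 * ∑ a, d a + Fintype.card A ∨
      (n = Fintype.card A + 3 ∧ ∑ a, d a = n + 2)) {H : MvPolynomial (Fin (n + 1)) k} {m : ℕ}
    (hHm : H.IsHomogeneous m) (hH : ∀ W, LineX G W → ∀ v ∈ W, eval v H = 0)
    {L : Type} [Field L] [Algebra k L] [IsFF k L] (c : Place k L) {x : Fin (n + 1) → k}
    (hx : x ≠ 0) (hxH : eval x H ≠ 0) : (PtdMaps G c x).Finite := by
  obtain ⟨B, hB⟩ := deg_form (k0 := k0) hn hd0 hG hind hd hHm hH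
  refine ptd_of_bound (fun a => ⟨d a, hG a⟩) ⟨m, hHm⟩ (B := B) ?_ c hx hxH
  intro L' _ _ _ f hf hfG hfH
  exact hB L' f ⟨fun h0 => by
    obtain ⟨j, hj⟩ := hf
    exact hj (congrFun h0 j), hfG⟩ hfH

/-- The forms vanish on the lines if all subvarieties outside are of general type. -/
theorem line_of_gt (hG : ∀ a, (G a).IsHomogeneous (d a)) {H : MvPolynomial (Fin (n + 1)) k} {e : ℕ}
    (hH : H.IsHomogeneous e)
    (h : ∀ (K : Type) [Field K] [Algebra k K] (w : ℕ) (y : Fin (n + 1) → K), 0 < w →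
        SubX G w y → aeval y H ≠ 0 → GeneralType k K w)
    {W : Submodule k (Fin (n + 1) → k)} (hW : LineX G W) : ∀ v ∈ W, eval v H = 0 := by
  classical
  obtain ⟨hW2, hW⟩ := hW
  intro v hv
  obtain ⟨u0, v0, hu, hv0, hli, -⟩ := line_gm (C := Finset.univ) hG (W := W)
    ⟨hW2, fun c _ v hv => hW c v hv⟩ (by
      have h1 : Pts W ∩ Bd G Finset.univ = ∅ := by
        rw [Set.eq_empty_iff_forall_notMem]
        rintro p ⟨-, b, hb, -⟩
        exact hb (Finset.mem_univ b)
      rw [h1, Set.encard_empty]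
      exact zero_le)
  obtain ⟨i, j, hij⟩ := pl_of_li hli
  obtain ⟨h1, h2, h3, h4⟩ := gm_on (P := lp u0 v0) (G := G) (C := Finset.univ)
    (fun t ht c hc => by
      rw [lp_eval]
      exact hW c _ (W.add_mem (W.smul_mem _ hu) hv0))
    (fun t ht b hb => absurd (Finset.mem_univ b) hb) (lp_nc hij)
  have h5 := gm_not_lgt (P := lp u0 v0) (G := G) (C := Finset.univ) (dg := d) (fun t ht => by
    by_contra hcon
    push Not at hcon
    apply comb_ne hli t
    rw [← lp_eval]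
    exact funext hcon) (fun t ht b hb => absurd (Finset.mem_univ b) hb)
  have h6 : aeval (gp (lp u0 v0)) H = 0 := by
    by_contra hne
    exact h5 (log_of_gt (h (RatFunc k) 1 (gp (lp u0 v0)) one_pos
      ⟨⟨h1, fun c => h2 c (Finset.mem_univ c)⟩, by rw [trdeg_rat, Nat.cast_one], h4⟩ hne) _)
  obtain ⟨a, b, rfl⟩ := span_of_line hW2 hu hv0 hli hv
  exact lp_zero hH h6 a b

/-- A nonconstant coordinate. -/
theorem nonconst_of_alg {K : Type} [Field K] [Algebra k K] [IsFF k K] {y : Fin (n + 1) → K}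
    (h : Algebra.IsAlgebraic (coords k y) K) :
    ∃ a b, y b ≠ 0 ∧ Transcendental k (y a / y b) := by
  by_contra hcon
  push Not at hcon
  have h3 : coords k y ≤ ⊥ := by
    unfold coords
    rw [IntermediateField.adjoin_le_iff]
    rintro z ⟨i, j, hj, rfl⟩
    obtain ⟨c, hc⟩ := Pool.Agent.H435.ST.const_of_alg (hcon i j hj)
    rw [← hc]
    exact IntermediateField.algebraMap_mem _ _
  have h5 : Algebra.IsAlgebraic k (coords k y) := by
    refine ⟨fun z => ?_⟩
    obtain ⟨c, hc⟩ := IntermediateField.mem_bot.1 (h3 z.2)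
    have h6 : z = algebraMap k (coords k y) c := Subtype.ext hc.symm
    rw [h6]
    exact isAlgebraic_algebraMap _
  obtain ⟨t, ht⟩ := IsFF.exists_transcendental (k := k) (K := K)
  exact ht ((Algebra.IsAlgebraic.trans k (coords k y) K).isAlgebraic t)

/-- The forms vanish on the lines if the degrees of the curves outside are bounded. -/
theorem line_of_deg (hG : ∀ a, (G a).IsHomogeneous (d a)) {H : MvPolynomial (Fin (n + 1)) k} {e : ℕ}
    (hH : H.IsHomogeneous e)
    (h : ∀ (L : Type) [Field L] [Algebra k L] [IsFF k L] (x : Fin (n + 1) → L), PtX G x →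
      aeval x H ≠ 0 → (∃ a b, x b ≠ 0 ∧ Transcendental k (x a / x b)) → 0 < canDeg k L)
    {W : Submodule k (Fin (n + 1) → k)} (hW : LineX G W) : ∀ v ∈ W, eval v H = 0 := by
  classical
  obtain ⟨hW2, hW⟩ := hW
  intro v hv
  obtain ⟨u0, v0, hu, hv0, hli, -⟩ := line_gm (C := Finset.univ) hG (W := W)
    ⟨hW2, fun c _ v hv => hW c v hv⟩ (by
      have h1 : Pts W ∩ Bd G Finset.univ = ∅ := by
        rw [Set.eq_empty_iff_forall_notMem]
        rintro p ⟨-, b, hb, -⟩
        exact hb (Finset.mem_univ b)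
      rw [h1, Set.encard_empty]
      exact zero_le)
  obtain ⟨i, j, hij⟩ := pl_of_li hli
  obtain ⟨h1, h2, h3, h4⟩ := gm_on (P := lp u0 v0) (G := G) (C := Finset.univ)
    (fun t ht c hc => by
      rw [lp_eval]
      exact hW c _ (W.add_mem (W.smul_mem _ hu) hv0))
    (fun t ht b hb => absurd (Finset.mem_univ b) hb) (lp_nc hij)
  have h6 : aeval (gp (lp u0 v0)) H = 0 := by
    by_contra hne
    have h7 := h (RatFunc k) (gp (lp u0 v0)) ⟨h1, fun c => h2 c (Finset.mem_univ c)⟩ hne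
      (nonconst_of_alg h4)
    have h8 : canDeg k (RatFunc k) = -2 :=
      Pool.Agent.W619.PQ.canDeg_rational (x := RatFunc.X) RatFunc.adjoin_X
    rw [h8] at h7
    omega
  obtain ⟨a, b, rfl⟩ := span_of_line hW2 hu hv0 hli hv
  exact lp_zero hH h6 a b

end

end Pool.Agent.H435.CT
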