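import Pool.Agent.H435.CT.Upp
import Pool.Agent.H435.ST.Sml

/-!
Rational curves and plane curves of genus at most one in generic complete intersections of
dimension three.
-/

set_option autoImplicit false
set_option linter.unusedSectionVars false

open MvPolynomial FF Pool.Agent.W603.LV Pool.Agent.W603.PV Pool.Agent.TH145.GH
open Pool.Agent.Y735 (pl po fht fht_nonneg sum_two rho eval_rho)
open Pool.Agent.W602.GT Pool.Agent.TH145.GF
open Pool.Agent.Y741
open Pool.Agent.TH145.GC (Cf Rt)
open Pool.Agent.W619.PQ (canDeg_rational isFF_down)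
open scoped IntermediateField

namespace Pool.Agent.H435.CT

open Pool.Agent.H435.VG (ge_po le_po)
open Pool.Agent.H435.ST (rational_of_small const_of_alg exists_three det3)

section num

theorem tri1 (d : ℕ) (h1 : 1 ≤ d) (h2 : d ≤ 6) (e : ℕ) (h3 : 3 ≤ e) (h4 : e ≤ 6) :
    3 * d ≤ Fintype.card (Tri d e) := by
  interval_cases d <;> interval_cases e <;> decide

theorem tri2 (d : ℕ) (h2 : d ≤ 6) (e : ℕ) (h3 : 3 ≤ e) (h4 : e ≤ d) :
    3 * d + 3 * e < Fintype.card (Tri d e) + 11 := by
  have h5 : 3 ≤ d := h3.trans h4
  interval_cases d <;> interval_cases e <;> decide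

theorem num {n : ℕ} {A : Type} [Fintype A] [DecidableEq A] {dg : A → ℕ} (hpos : ∀ a, 0 < dg a)
    (hn : n = Fintype.card A + 3) (hsum : ∑ a, dg a = n + 2) (a1 : A) {e : ℕ} (he : 3 ≤ e)
    (hed : e ≤ dg a1) : (n - 2) * 3 + (3 * e + 1) < ∑ a, Fintype.card (Tri (dg a) e) := by
  have h6 : ∀ a, dg a ≤ 6 := by
    intro a
    have h1 := Finset.add_sum_erase Finset.univ dg (Finset.mem_univ a)
    have h2 : ∑ b ∈ Finset.univ.erase a, 1 ≤ ∑ b ∈ Finset.univ.erase a, dg b :=
      Finset.sum_le_sum fun b _ => hpos b
    rw [Finset.sum_const, smul_eq_mul, mul_one, Finset.card_erase_of_mem (Finset.mem_univ a),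
      Finset.card_univ] at h2
    omega
  have h1 := Finset.add_sum_erase Finset.univ dg (Finset.mem_univ a1)
  have h2 := Finset.add_sum_erase Finset.univ (fun a => Fintype.card (Tri (dg a) e))
    (Finset.mem_univ a1)
  have h3 : ∑ b ∈ Finset.univ.erase a1, 3 * dg b ≤
      ∑ b ∈ Finset.univ.erase a1, Fintype.card (Tri (dg b) e) :=
    Finset.sum_le_sum fun b _ => tri1 (dg b) (hpos b) (h6 b) e he (hed.trans (h6 a1))
  rw [← Finset.mul_sum] at h3
  have h4 := tri2 (dg a1) (h6 a1) e he hed
  rw [← h2]
  omega

end num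

section lines

variable {k0 k : Type} [Field k0] [Field k] [Algebra k0 k] [IsAlgClosed k] [CharZero k] {n : ℕ}
  {A : Type} [Fintype A] [DecidableEq A] {dg : A → ℕ}

/-- A generic complete intersection of large degree contains no lines. -/
theorem no_line_k {G : A → MvPolynomial (Fin (n + 1)) k} (hG : ∀ a, (G a).IsHomogeneous (dg a))
    (hind : AlgebraicIndependent k0 fun p : Cf n dg => (G p.1).coeff p.2.1)
    (hd : 2 * n ≤ ∑ a, dg a + Fintype.card A + 1) {u v : Fin (n + 1) → k} (huv : pl u v ≠ 0) :
    ∃ (a : A) (τ : k), eval (fun l => u l + τ * v l) (G a) ≠ 0 := by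
  by_contra hcon
  push Not at hcon
  obtain ⟨ik, hik⟩ := Function.ne_iff.1 huv
  have hik' : pl u v ik ≠ 0 := hik
  have hinf : Infinite k := IsAlgClosed.instInfinite
  have hv : ∀ c, eval v (G c) = 0 := by
    intro c
    have h2 : rho u v (G c) = 0 := by
      refine Polynomial.eq_of_infinite_eval_eq _ _ ?_
      refine (Set.finite_singleton (0 : k)).infinite_compl.mono fun t ht => ?_
      have ht' : t ≠ 0 := ht
      change Polynomial.eval t _ = Polynomial.eval t _
      rw [Polynomial.eval_zero, eval_rho]
      have h3 : t • u + v = t • (fun l => u l + t⁻¹ * v l) := by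
        funext l
        simp only [Pi.add_apply, Pi.smul_apply, smul_eq_mul]
        field_simp
      rw [h3, eval_smul_hom (hG c), hcon, mul_zero]
    have h3 := eval_rho u v (G c) 0
    rw [h2, Polynomial.eval_zero, zero_smul, zero_add] at h3
    exact h3.symm
  refine no_onL (L := k) hG hind hd hik' fun c _ a b => ?_
  change eval (a • u + b • v) (map (algebraMap k k) (G c)) = 0
  rw [Algebra.algebraMap_self, MvPolynomial.map_id]
  by_cases ha : a = 0
  · rw [ha, zero_smul, zero_add, eval_smul_hom (hG c), hv, mul_zero]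
  · have h3 : a • u + b • v = a • (fun l => u l + b / a * v l) := by
      funext l
      simp only [Pi.add_apply, Pi.smul_apply, smul_eq_mul]
      field_simp
    rw [h3, eval_smul_hom (hG c), hcon, mul_zero]

end lines

section

variable {k0 k L : Type} [Field k0] [Field k] [Field L] [Algebra k0 k] [Algebra k L]
  [IsAlgClosed k] [CharZero k] [IsFF k L] {n : ℕ} {A : Type} [Fintype A] [DecidableEq A]
  {dg : A → ℕ}

/-- The canonical degree is not negative. -/
theorem canDeg_nonneg_of (hpos : ∀ a, 0 < dg a) (hn : n = Fintype.card A + 3)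
    (hsum : ∑ a, dg a = n + 2)
    {G : A → MvPolynomial (Fin (n + 1)) k} (hG : ∀ a, (G a).IsHomogeneous (dg a))
    (hind : AlgebraicIndependent k0 fun p : Cf n dg => (G p.1).coeff p.2.1)
    {x : Fin (n + 1) → L} {a b : Fin (n + 1)} (hb : x b ≠ 0)
    (hab : Transcendental k (x a / x b)) (hx : ∀ c, aeval x (G c) = 0) : 0 ≤ canDeg k L := by
  have hx0 : x ≠ 0 := fun h => hb (by rw [h]; rfl)
  rcases part2 hpos hn hsum hG hind hb hab hx with h1 | ⟨Y, hY, hYh⟩
  · exact (pht_nonneg (k := k) hx0).trans h1
  · exact (fht_nonneg hY.ne).trans hYh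

/-- There are no points on constant lines. -/
theorem no_const_line {G : A → MvPolynomial (Fin (n + 1)) k} (hG : ∀ a, (G a).IsHomogeneous (dg a))
    (hind : AlgebraicIndependent k0 fun p : Cf n dg => (G p.1).coeff p.2.1)
    (hd : 2 * n ≤ ∑ a, dg a + Fintype.card A + 1)
    {x : Fin (n + 1) → L} {a b : Fin (n + 1)} (hb : x b ≠ 0)
    (hab : Transcendental k (x a / x b)) (hx : ∀ c, aeval x (G c) = 0) {α β : L}
    {u v : Fin (n + 1) → k}
    (hxl : ∀ l, x l = algebraMap k L (u l) * α + algebraMap k L (v l) * β) : False := by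
  classical
  -- the vectors are independent
  have hcst : ∀ (r r' : k) (γ : L), x a = algebraMap k L r * γ → x b = algebraMap k L r' * γ →
      False := by
    intro r r' γ h1 h2
    apply hab
    have hγ : γ ≠ 0 := by
      rintro rfl
      exact hb (by rw [h2, mul_zero])
    rw [h1, h2, mul_div_mul_right _ _ hγ, ← map_div₀]
    exact isAlgebraic_algebraMap _
  have huv : pl u v ≠ 0 := by
    intro h0
    have h1 : u a * v b - u b * v a = 0 := congrFun h0 (a, b)
    by_cases hub : u b = 0
    · by_cases hvb : v b = 0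
      · apply hb
        rw [hxl, hub, hvb, map_zero, zero_mul, zero_mul, add_zero]
      · have h2 : u a = 0 := by
          rw [hub, zero_mul, sub_zero] at h1
          exact (mul_eq_zero.1 h1).resolve_right hvb
        exact hcst (v a) (v b) β (by rw [hxl, h2, map_zero, zero_mul, zero_add])
          (by rw [hxl, hub, map_zero, zero_mul, zero_add])
    · refine hcst (u a / u b) 1 (x b) ?_ (by rw [map_one, one_mul])
      rw [hxl a, hxl b]
      have h2 : v a = u a / u b * v b := by
        field_simp
        linear_combination -h1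
      rw [h2, map_mul, map_div₀]
      have h3 : algebraMap k L (u b) ≠ 0 := (_root_.map_ne_zero _).2 hub
      field_simp
  obtain ⟨c1, τ, hτ⟩ := no_line_k hG hind hd huv
  by_cases hα : α = 0
  · exact hcst (v a) (v b) β (by rw [hxl, hα, mul_zero, zero_add])
      (by rw [hxl, hα, mul_zero, zero_add])
  obtain ⟨pp, hpp⟩ : ∃ pp : Polynomial k, pp =
    aeval (fun l => Polynomial.C (u l) + Polynomial.X * Polynomial.C (v l)) (G c1) := ⟨_, rfl⟩
  by_cases hT : Transcendental k (β / α)
  · -- the form vanishes on the line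
    have h1 : Polynomial.aeval (β / α) pp = 0 := by
      have h2 : ((Polynomial.aeval (β / α) : Polynomial k →ₐ[k] L) :
          Polynomial k →+* L).comp
          ((aeval fun l => Polynomial.C (u l) + Polynomial.X * Polynomial.C (v l) :
            MvPolynomial (Fin (n + 1)) k →ₐ[k] Polynomial k) :
            MvPolynomial (Fin (n + 1)) k →+* Polynomial k) =
          (eval fun l => algebraMap k L (u l) + β / α * algebraMap k L (v l)).comp
            (map (algebraMap k L)) := by
        apply MvPolynomial.ringHom_ext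
        · intro c
          rw [RingHom.comp_apply, RingHom.comp_apply, map_C, eval_C, RingHom.coe_coe,
            RingHom.coe_coe, aeval_C, Polynomial.algebraMap_eq, Polynomial.aeval_C]
        · intro l
          rw [RingHom.comp_apply, RingHom.comp_apply, map_X, eval_X, RingHom.coe_coe,
            RingHom.coe_coe, aeval_X, map_add, map_mul, Polynomial.aeval_C,
            Polynomial.aeval_X, Polynomial.aeval_C]
      have h3 := DFunLike.congr_fun h2 (G c1)
      have h4 : (fun l => algebraMap k L (u l) + β / α * algebraMap k L (v l)) = α⁻¹ • x := by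
        funext l
        rw [Pi.smul_apply, smul_eq_mul, hxl]
        field_simp
      have h5 : eval (α⁻¹ • x) (map (algebraMap k L) (G c1)) = 0 := by
        rw [eval_smul_hom ((hG c1).map _), eval_map]
        have h6 : eval₂ (algebraMap k L) x (G c1) = 0 := hx c1
        rw [h6, mul_zero]
      rw [RingHom.comp_apply, RingHom.comp_apply, h4, h5] at h3
      rw [hpp]
      exact h3
    have h2 : pp = 0 := by
      by_contra h3
      exact hT ⟨_, h3, h1⟩
    apply hτ
    have h3 : (Polynomial.evalRingHom τ).comp
        ((aeval fun l => Polynomial.C (u l) + Polynomial.X * Polynomial.C (v l) :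
          MvPolynomial (Fin (n + 1)) k →ₐ[k] Polynomial k) :
          MvPolynomial (Fin (n + 1)) k →+* Polynomial k) = eval fun l => u l + τ * v l := by
      apply MvPolynomial.ringHom_ext
      · intro c
        rw [RingHom.comp_apply, RingHom.coe_coe, aeval_C, Polynomial.algebraMap_eq, eval_C,
          Polynomial.coe_evalRingHom, Polynomial.eval_C]
      · intro l
        rw [RingHom.comp_apply, RingHom.coe_coe, aeval_X, eval_X, Polynomial.coe_evalRingHom,
          Polynomial.eval_add, Polynomial.eval_mul, Polynomial.eval_C, Polynomial.eval_X,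
          Polynomial.eval_C]
    rw [← h3, RingHom.comp_apply, RingHom.coe_coe, ← hpp, h2, map_zero]
  · obtain ⟨r, hr⟩ := const_of_alg hT
    have h1 : ∀ l, x l = algebraMap k L (u l + v l * r) * α := by
      intro l
      rw [hxl, map_add, map_mul, hr]
      field_simp
    exact hcst _ _ α (h1 a) (h1 b)

/-- A plane curve of genus at most one, that generates the function field. -/
theorem no_small1 (hpos : ∀ a, 0 < dg a) (hnA : n = Fintype.card A + 3)
    (hsumA : ∑ a, dg a = n + 2)
    {G : A → MvPolynomial (Fin (n + 1)) k} (hG : ∀ a, (G a).IsHomogeneous (dg a))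
    (hgen : AlgebraicIndependent k0 fun p : Cf n dg => (G p.1).coeff p.2.1)
    (hcd : canDeg k L ≤ 0) {x : Fin (n + 1) → L} {a b : Fin (n + 1)} (hb : x b ≠ 0)
    (hab : Transcendental k (x a / x b)) (hx : ∀ c, aeval x (G c) = 0)
    (htop : IntermediateField.adjoin k (Set.range fun l => x l / x b) = ⊤)
    {i : Fin (2 + 1) → Fin (n + 1)}
    (hpl : ∀ l, ∃ c : Fin (2 + 1) → k, x l = ∑ s, algebraMap k L (c s) * x (i s)) : False := by
  classical
  have hLz : CharZero L := charZero_of_injective_algebraMap (algebraMap k L).injective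
  choose ψ hψ using hpl
  by_cases hlin : LinearIndependent k fun s => x (i s)
  swap
  · -- a line
    rw [Fintype.linearIndependent_iff] at hlin
    push Not at hlin
    obtain ⟨g, hg, s0, hs0⟩ := hlin
    obtain ⟨p, q, hp, hq, hpq, hall⟩ := exists_three s0
    have huniv : (Finset.univ : Finset (Fin (2 + 1))) = {p, q, s0} := by
      ext l
      simp only [Finset.mem_univ, Finset.mem_insert, Finset.mem_singleton, true_iff]
      exact hall l
    have hsum : ∀ f : Fin (2 + 1) → L, ∑ s, f s = f p + (f q + f s0) := by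
      intro f
      rw [huniv, Finset.sum_insert (by
        simp only [Finset.mem_insert, Finset.mem_singleton]
        rintro (h | h)
        · exact hpq h
        · exact hp h), Finset.sum_insert (by
        simp only [Finset.mem_singleton]
        exact hq), Finset.sum_singleton]
    rw [hsum] at hg
    simp only [Algebra.smul_def] at hg
    have hg0 : algebraMap k L (g s0) ≠ 0 := (_root_.map_ne_zero _).2 hs0
    refine no_const_line hG hgen (by omega) hb hab hx (α := x (i p)) (β := x (i q))
      (u := fun l => ψ l p - ψ l s0 * (g p / g s0)) (v := fun l => ψ l q - ψ l s0 * (g q / g s0))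
      fun l => ?_
    rw [hψ l, hsum, map_sub, map_sub, map_mul, map_mul, map_div₀, map_div₀]
    have h1 : x (i s0) = -(algebraMap k L (g p) / algebraMap k L (g s0)) * x (i p) -
        (algebraMap k L (g q) / algebraMap k L (g s0)) * x (i q) := by
      field_simp
      linear_combination hg
    rw [h1]
    ring
  -- three independent coordinates
  have hi : Function.Injective i := by
    intro s s' h
    exact hlin.injective (by simp only [h])
  have hψi : ∀ s s', ψ (i s) s' = if s = s' then 1 else 0 := by
    intro s s'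
    have h1 := hψ (i s)
    have h2 : ∑ s', (ψ (i s) s' - if s = s' then 1 else 0) • x (i s') = 0 := by
      have e1 : ∀ s', (ψ (i s) s' - if s = s' then 1 else 0) • x (i s') =
          algebraMap k L (ψ (i s) s') * x (i s') - (if s = s' then x (i s') else 0) := by
        intro s'
        rw [sub_smul, Algebra.smul_def]
        congr 1
        split_ifs
        · rw [one_smul]
        · rw [zero_smul]
      rw [Finset.sum_congr rfl fun s' _ => e1 s', Finset.sum_sub_distrib, ← h1,
        Finset.sum_ite_eq, if_pos (Finset.mem_univ s), sub_self]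
    have h3 := (Fintype.linearIndependent_iff.1 hlin) _ h2 s'
    exact sub_eq_zero.1 h3
  obtain ⟨z, hz⟩ : ∃ z : Fin (2 + 1) → L, ∀ s, z s = x (i s) := ⟨_, fun _ => rfl⟩
  have hzf : (fun s => x (i s)) = z := (funext hz).symm
  rw [hzf] at hlin
  obtain ⟨F, hFd⟩ : ∃ F : Fam L n A, ∀ c, F c = map (algebraMap k L) (G c) := ⟨_, fun _ => rfl⟩
  have hF : ∀ c, (F c).IsHomogeneous (dg c) := fun c => by rw [hFd]; exact (hG c).map _
  have hxF : ∀ c, eval x (F c) = 0 := fun c => by
    rw [hFd, eval_map]
    exact hx c
  have hFk : ∀ c u, ∃ r : k, (F c).coeff u = algebraMap k L r := fun c u => by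
    rw [hFd, coeff_map]
    exact ⟨_, rfl⟩
  obtain ⟨Dd, hDd, hS, -, -⟩ := Pool.Agent.H435.ST.exists_duals_T (L := L)
    (IsFF.basis (k := k) hab) G hgen
  have hFeq : (fun c => map (algebraMap k L) (G c)) = F := (funext hFd).symm
  rw [hFeq] at hDd
  obtain ⟨δ, hδ⟩ := exists_der (k := k) (K := L)
  -- the point of the plane is not constant
  obtain ⟨b0, hb0⟩ : ∃ b0, z b0 ≠ 0 := by
    by_contra hcon
    push Not at hcon
    apply hb
    rw [hψ b]
    exact Finset.sum_eq_zero fun s _ => by rw [← hz, hcon, mul_zero]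
  have hxz : ∀ l, x l / z b0 = ∑ s, algebraMap k L (ψ l s) * (z s / z b0) := by
    intro l
    rw [hψ l, Finset.sum_div]
    exact Finset.sum_congr rfl fun s _ => by rw [hz s, mul_div_assoc]
  obtain ⟨a0, ha0⟩ : ∃ a0, Transcendental k (z a0 / z b0) := by
    by_contra hcon
    push Not at hcon
    choose r hr using fun s => const_of_alg (hcon s)
    have h1 : ∀ l, x l / z b0 = algebraMap k L (∑ s, ψ l s * r s) := by
      intro l
      rw [hxz, map_sum]
      exact Finset.sum_congr rfl fun s _ => by rw [map_mul, hr]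
    apply hab
    have h2 : x a / x b = (x a / z b0) / (x b / z b0) := by
      rw [div_div_div_cancel_right₀ hb0]
    rw [h2, h1, h1, ← map_div₀]
    exact isAlgebraic_algebraMap _
  have htopz : IntermediateField.adjoin k (Set.range fun s => z s / z b0) = ⊤ := by
    rw [eq_top_iff, ← htop, IntermediateField.adjoin_le_iff]
    rintro _ ⟨l, rfl⟩
    have h1 : ∀ l, x l / z b0 ∈ IntermediateField.adjoin k (Set.range fun s => z s / z b0) := by
      intro l
      rw [hxz]
      refine sum_mem fun s _ => mul_mem (IntermediateField.algebraMap_mem _ _) ?_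
      exact IntermediateField.subset_adjoin _ _ ⟨s, rfl⟩
    have h2 : x l / x b = (x l / z b0) / (x b / z b0) := by
      rw [div_div_div_cancel_right₀ hb0]
    change x l / x b ∈ _
    rw [h2]
    exact div_mem (h1 l) (h1 b)
  have hn : ∃ j, ![x (i 1) * δ (x (i 2)) - x (i 2) * δ (x (i 1)),
      x (i 2) * δ (x (i 0)) - x (i 0) * δ (x (i 2)),
      x (i 0) * δ (x (i 1)) - x (i 1) * δ (x (i 0))] j ≠ 0 := by
    by_contra hcon
    push Not at hcon
    have h0 : x (i 1) * δ (x (i 2)) - x (i 2) * δ (x (i 1)) = 0 := hcon 0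
    have h1 : x (i 2) * δ (x (i 0)) - x (i 0) * δ (x (i 2)) = 0 := hcon 1
    have h2 : x (i 0) * δ (x (i 1)) - x (i 1) * δ (x (i 0)) = 0 := hcon 2
    have h3 : ∀ s s', x (i s) * δ (x (i s')) - x (i s') * δ (x (i s)) = 0 := by
      intro s s'
      fin_cases s <;> fin_cases s'
      · exact sub_self _
      · exact h2
      · change x (i 0) * δ (x (i 2)) - x (i 2) * δ (x (i 0)) = 0
        linear_combination -h1
      · change x (i 1) * δ (x (i 0)) - x (i 0) * δ (x (i 1)) = 0
        linear_combination -h2
      · exact sub_self _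
      · exact h0
      · exact h1
      · change x (i 2) * δ (x (i 1)) - x (i 1) * δ (x (i 2)) = 0
        linear_combination -h0
      · exact sub_self _
    have h4 := h3 a0 b0
    have h5 := der_ne_zero hδ ha0
    apply h5
    rw [← hz, ← hz] at h4
    have h6 : δ (z a0) = δ (z a0 / z b0) * z b0 + z a0 / z b0 * δ (z b0) := by
      conv_lhs => rw [← div_mul_cancel₀ (z a0) hb0]
      rw [δ.leibniz]
      simp only [smul_eq_mul]
      ring
    rw [h6] at h4
    have h7 : z b0 * z b0 * δ (z a0 / z b0) = 0 := by
      have h8 : z a0 / z b0 * z b0 = z a0 := div_mul_cancel₀ _ hb0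
      linear_combination -h4 - δ (z b0) * h8
    exact (mul_eq_zero.1 h7).resolve_left (mul_ne_zero hb0 hb0)
  obtain ⟨W, hWf, hWm, hWr⟩ := upper hF hDd hS hFk hδ hxF hi hψ hψi hn
  rw [hzf] at hWr
  -- the forms on the plane
  obtain ⟨f, hf⟩ : ∃ f : A → MvPolynomial (Fin (2 + 1)) k, ∀ c, f c =
    aeval (fun l => ∑ s, C (ψ l s) * X s) (G c) := ⟨_, fun _ => rfl⟩
  have hfe : ∀ c (y : Fin (2 + 1) → k), eval y (f c) =
      eval (fun l => ∑ s, ψ l s * y s) (G c) := by
    intro c y
    have h1 : (eval y).comp ((aeval (fun l => ∑ s, C (ψ l s) * X s) :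
        MvPolynomial (Fin (n + 1)) k →ₐ[k] MvPolynomial (Fin (2 + 1)) k) :
        MvPolynomial (Fin (n + 1)) k →+* MvPolynomial (Fin (2 + 1)) k) =
        eval (fun l => ∑ s, ψ l s * y s) := by
      apply MvPolynomial.ringHom_ext
      · intro c
        rw [RingHom.comp_apply, RingHom.coe_coe, aeval_C, MvPolynomial.algebraMap_eq, eval_C,
          eval_C]
      · intro l
        rw [RingHom.comp_apply, RingHom.coe_coe, aeval_X, map_sum, eval_X]
        exact Finset.sum_congr rfl fun s _ => by rw [map_mul, eval_C, eval_X]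
    rw [hf]
    exact DFunLike.congr_fun h1 (G c)
  have hfL : ∀ c, eval z (map (algebraMap k L) (f c)) = 0 := by
    intro c
    have h1 : ((eval z).comp (map (algebraMap k L))).comp ((aeval (fun l => ∑ s, C (ψ l s) * X s) :
        MvPolynomial (Fin (n + 1)) k →ₐ[k] MvPolynomial (Fin (2 + 1)) k) :
        MvPolynomial (Fin (n + 1)) k →+* MvPolynomial (Fin (2 + 1)) k) =
        (eval x).comp (map (algebraMap k L)) := by
      apply MvPolynomial.ringHom_ext
      · intro c
        rw [RingHom.comp_apply, RingHom.comp_apply, RingHom.comp_apply, RingHom.coe_coe, aeval_C,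
          MvPolynomial.algebraMap_eq, map_C, eval_C, map_C, eval_C]
      · intro l
        rw [RingHom.comp_apply, RingHom.comp_apply, RingHom.comp_apply, RingHom.coe_coe, aeval_X,
          map_sum, map_sum, map_X, eval_X, hψ l]
        exact Finset.sum_congr rfl fun s _ => by
          rw [map_mul, map_C, map_X, map_mul, eval_C, eval_X, hz]
    rw [hf]
    have h2 := DFunLike.congr_fun h1 (G c)
    rw [RingHom.comp_apply, RingHom.comp_apply, RingHom.comp_apply, ← hFd, hxF] at h2
    exact h2
  have hfh : ∀ c, (f c).IsHomogeneous (dg c) := by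
    intro c
    rw [hf]
    have h1 := (hG c).aeval (n := 1) (fun l => ∑ s, C (ψ l s) * X s) (fun l =>
      IsHomogeneous.sum _ _ _ fun s _ => by
        have h6 := (isHomogeneous_C (Fin (2 + 1)) (ψ l s)).mul (isHomogeneous_X k s)
        rwa [zero_add] at h6)
    rwa [one_mul] at h1
  obtain ⟨c1, hf0⟩ : ∃ c1, f c1 ≠ 0 := by
    obtain ⟨c1, τ, hτ⟩ := no_line_k hG hgen (by omega) (u := fun l => ψ l 0)
      (v := fun l => ψ l 1) (by
      intro h1
      have h2 : ψ (i 0) 0 * ψ (i 1) 1 - ψ (i 1) 0 * ψ (i 0) 1 = 0 := congrFun h1 (i 0, i 1)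
      rw [hψi, hψi, hψi, hψi, if_pos rfl, if_pos rfl, if_neg (by decide), if_neg (by decide)] at h2
      norm_num at h2)
    refine ⟨c1, fun h0 => hτ ?_⟩
    have h1 := hfe c1 ![1, τ, 0]
    rw [h0, map_zero] at h1
    rw [h1]
    congr 2
    funext l
    rw [Fin.sum_univ_three]
    change ψ l 0 + τ * ψ l 1 = ψ l 0 * 1 + ψ l 1 * τ + ψ l 2 * 0
    ring
  obtain ⟨e, he, he1, he6, hv⟩ := lower (hpos c1) (hfh c1) hf0 (hfL c1) hb0 ⟨a0, ha0⟩ htopz
  choose v hvh hvi using hv
  have hcard : ∑ c, Fintype.card (Tri (dg c) e) ≤ Module.finrank k W := by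
    have h1 := Pi.linearIndependent_single (R := k) (Ms := fun _ : A => L)
      (fun c p => eval z (map (algebraMap k L) (v (dg c) p))) (fun c => hvi (dg c))
    have h2 : ∀ p : (c : A) × Tri (dg c) e, (Pi.single p.1
        (eval z (map (algebraMap k L) (v (dg p.1) p.2))) : A → L) ∈ W := by
      intro p
      obtain ⟨c, p⟩ := p
      have h3 := hWm (fun c' => if c' = c then rename i (v (dg c) p) else 0) (fun c' => by
        by_cases h : c' = c
        · rw [if_pos h, h]
          exact (hvh _ _).rename_isHomogeneous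
        · rw [if_neg h]
          exact isHomogeneous_zero _ _ _)
      have h4 : (fun c' => eval x (map (algebraMap k L)
          (if c' = c then rename i (v (dg c) p) else 0))) =
          (Pi.single c (eval z (map (algebraMap k L) (v (dg c) p))) : A → L) := by
        funext c'
        by_cases h : c' = c
        · rw [if_pos h, h, Pi.single_eq_same, map_rename, eval_rename]
          congr 2
        · rw [if_neg h, Pi.single_eq_of_ne h, map_zero, map_zero]
      rw [h4] at h3
      exact h3
    have h6 : LinearIndependent k fun p => (⟨_, h2 p⟩ : W) :=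
      LinearIndependent.of_comp W.subtype h1
    have h7 := h6.fintype_card_le_finrank
    rwa [Fintype.card_sigma] at h7
  have hcd0 := canDeg_nonneg_of hpos hnA hsumA hG hgen hb hab hx
  have he3 : 3 ≤ e := by
    by_contra hcon
    have h1 := rational_of_small (k := k) hlin (by rw [he]; omega)
    omega
  rw [he] at hWr
  have h3 := hcard.trans hWr
  have h4 : canDeg k L = 0 := le_antisymm hcd hcd0
  rw [h4] at h3
  have h5 := num hpos hnA hsumA c1 he3 he6
  omega

/-- There are no plane curves of genus at most one. -/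
theorem no_small (hpos : ∀ a, 0 < dg a) (hnA : n = Fintype.card A + 3)
    (hsumA : ∑ a, dg a = n + 2)
    {G : A → MvPolynomial (Fin (n + 1)) k} (hG : ∀ a, (G a).IsHomogeneous (dg a))
    (hgen : AlgebraicIndependent k0 fun p : Cf n dg => (G p.1).coeff p.2.1)
    (hcd : canDeg k L ≤ 0) {x : Fin (n + 1) → L} {a b : Fin (n + 1)} (hb : x b ≠ 0)
    (hab : Transcendental k (x a / x b)) (hx : ∀ c, aeval x (G c) = 0)
    {i : Fin (2 + 1) → Fin (n + 1)}
    (hpl : ∀ l, ∃ c : Fin (2 + 1) → k, x l = ∑ s, algebraMap k L (c s) * x (i s)) : False := by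
  classical
  obtain ⟨K, hK⟩ : ∃ K : IntermediateField k L,
    K = IntermediateField.adjoin k (Set.range fun l => x l / x b) := ⟨_, rfl⟩
  have hmem : ∀ l, x l / x b ∈ K := by
    intro l
    rw [hK]
    exact IntermediateField.subset_adjoin _ _ ⟨l, rfl⟩
  have hKf : FiniteDimensional K L := by
    have h1 : k⟮x a / x b⟯ ≤ K := by
      rw [IntermediateField.adjoin_simple_le_iff]
      exact hmem a
    have h2 : FiniteDimensional k⟮x a / x b⟯ L := IsFF.finite hab
    let _ : Algebra k⟮x a / x b⟯ K := (IntermediateField.inclusion h1).toRingHom.toAlgebra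
    have h3 : IsScalarTower k⟮x a / x b⟯ K L := IsScalarTower.of_algebraMap_eq fun _ => rfl
    exact FiniteDimensional.right k⟮x a / x b⟯ K L
  have hKFF : IsFF k K := isFF_down (k := k) (E0 := K) (E := L)
  have hcdK : canDeg k K ≤ 0 := by
    have h1 := Pool.Agent.H916.canDeg_nonpos_below (k := k) (E := K) (K := L)
    have h2 : (0 : ℤ) < Module.finrank K L := by exact_mod_cast Module.finrank_pos
    by_contra h3
    push Not at h3
    have h4 := mul_pos h2 h3
    omega
  obtain ⟨x', hx'⟩ : ∃ x' : Fin (n + 1) → K, ∀ l, x' l = ⟨x l / x b, hmem l⟩ := ⟨_, fun _ => rfl⟩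
  have hx'L : ∀ l, algebraMap K L (x' l) = (x b)⁻¹ * x l := by
    intro l
    rw [hx']
    change x l / x b = _
    rw [div_eq_mul_inv, mul_comm]
  have hinj := (algebraMap K L).injective
  have hx'b : x' b = 1 := by
    apply hinj
    rw [hx'L, inv_mul_cancel₀ hb, map_one]
  refine no_small1 (L := K) hpos hnA hsumA hG hgen hcdK (x := x') (a := a) (b := b)
    (by rw [hx'b]; exact one_ne_zero) ?_ (fun c => ?_) ?_ (i := i) ?_
  · rw [hx'b, _root_.div_one]
    intro hA
    apply hab
    have h1 := hA.algebraMap (A := L)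
    rw [hx'L] at h1
    rwa [div_eq_mul_inv, mul_comm]
  · apply hinj
    have h1 : algebraMap K L (aeval x' (G c)) = aeval (fun l => algebraMap K L (x' l)) (G c) := by
      rw [← MvPolynomial.aeval_algebraMap_apply]
      rfl
    rw [h1, map_zero]
    have h2 := eval_smul_hom ((hG c).map (algebraMap k L)) x (x b)⁻¹
    rw [eval_map, eval_map] at h2
    have h3 : (fun j => algebraMap K L (x' j)) = (x b)⁻¹ • x := funext hx'L
    rw [h3]
    change eval₂ (algebraMap k L) ((x b)⁻¹ • x) (G c) = 0
    rw [h2]
    have h4 : eval₂ (algebraMap k L) x (G c) = 0 := hx c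
    rw [h4, mul_zero]
  · have h1 : (fun l => x' l / x' b) = x' := by
      funext l
      rw [hx'b, _root_.div_one]
    rw [h1]
    -- the generators
    have h2 : (IntermediateField.adjoin k (Set.range x')).map K.val =
        IntermediateField.adjoin k (Set.range fun l => x l / x b) := by
      rw [IntermediateField.adjoin_map]
      congr 1
      rw [← Set.range_comp]
      congr 1
      funext l
      rw [Function.comp_apply, hx']
      rfl
    rw [← hK] at h2
    rw [eq_top_iff]
    intro y _
    have h3 : K.val y ∈ (IntermediateField.adjoin k (Set.range x')).map K.val := by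
      rw [h2]
      exact y.2
    obtain ⟨y', hy', hyy⟩ := h3
    have h4 : y' = y := K.val.injective hyy
    rw [← h4]
    exact hy'
  · intro l
    obtain ⟨c, hc⟩ := hpl l
    refine ⟨c, ?_⟩
    apply hinj
    rw [hx'L, hc, map_sum, Finset.mul_sum]
    refine Finset.sum_congr rfl fun s _ => ?_
    rw [map_mul, hx'L]
    have h1 : algebraMap K L (algebraMap k K (c s)) = algebraMap k L (c s) := rfl
    rw [h1]
    ring

end

end Pool.Agent.H435.CT
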