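import Pool.Agent.H435.CT.Wtri

/-!
Surfaces in generic complete intersections of dimension three: general type, or covered by lines.
-/

set_option autoImplicit false

open MvPolynomial FF Pool.Agent.W603.LV Pool.Agent.W603.PV Pool.Agent.TH145.GH
open Pool.Agent.Y735 (lf pm tm pl vol vol_apply po po_le exists_po zp zp_pl zp_smul exists_xi rho
  eval_rho)
open Pool.Agent.W602.GT Pool.Agent.TH145.GF

namespace Pool.Agent.H435.CT

open Pool.Agent.Y741

section

variable {k0 k L : Type} [Field k0] [Field k] [Field L] [Algebra k0 k] [Algebra k L]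
  [IsAlgClosed k] [CharZero k] {n w : ℕ} {A : Type} [Fintype A] [DecidableEq A] {dg : A → ℕ}

/-- Log general type, or covered by exceptional lines, at a normalised point. -/
theorem gt_or_lineW1 (hn3 : n = Fintype.card A + 3) (hpos : ∀ a, 0 < dg a) {G : A → MvPolynomial (Fin (n + 1)) k}
    (hG : ∀ a, (G a).IsHomogeneous (dg a))
    (hind : AlgebraicIndependent k0 fun p : (a : A) × {I : Fin (n + 1) →₀ ℕ // I.degree = dg a} =>
      (G p.1).coeff p.2.1) (hd : ∑ a, dg a = n + 2)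
    (hw2 : 1 < w) (htr : Algebra.trdeg k L = w)
    {x : Fin (n + 1) → L} {j0 : Fin (n + 1)} (hx1 : x j0 = 1)
    (hgen : Algebra.IsAlgebraic (coords k x) L)
    (hxC : ∀ c, aeval x (G c) = 0)
    {Λ : Type} [Field Λ] [IsAlgClosed Λ] (ψ : L →+* Λ) :
    LogGeneralType k L w (fun Q => ∃ b, b ∉ (Finset.univ : Finset A) ∧
      dg b * pord Q x < Q.ord (aeval x (G b))) ∨
      LineK (mapF ψ fun a => map (algebraMap k L) (G a)) (fun j => ψ (x j)) := by
  classical
  have hw : 0 < w := by omega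
  have hLz : CharZero L := charZero_of_injective_algebraMap (algebraMap k L).injective
  have hΛz : CharZero Λ := charZero_of_injective_ringHom ψ.injective
  obtain ⟨F, hFG⟩ : ∃ F : Fam L n A, ∀ a, F a = map (algebraMap k L) (G a) := ⟨_, fun _ => rfl⟩
  have hFeq : (fun a => map (algebraMap k L) (G a)) = F := (funext hFG).symm
  have hF : ∀ a, (F a).IsHomogeneous (dg a) := fun a => by
    rw [hFG]
    exact (hG a).map _
  have hev : ∀ a, aeval x (G a) = eval x (F a) := fun a => by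
    rw [hFG, eval_map]
    rfl
  simp only [hev] at hxC ⊢
  rw [hFeq]
  obtain ⟨l, hl⟩ := exists_coord_basis htr hgen
  choose E hE using fun i : Fin w => exists_der (fun i => x (l i)) hl
    fun j => if i = j then (1 : L) else 0
  obtain ⟨D, hD, hS, hcm⟩ := exists_duals_L hl G hind
  rw [hFeq] at hD
  have hFk : ∀ a u, ∃ c : k, (F a).coeff u = algebraMap k L c := fun a u => by
    rw [hFG, coeff_map]
    exact ⟨_, rfl⟩
  have hFK : ∀ ξ a u, vE E ξ ((F a).coeff u) = 0 := fun ξ a u => by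
    obtain ⟨c, hc⟩ := hFk a u
    rw [hc]
    exact (E ξ).map_algebraMap c
  have hx0 : x ≠ 0 := by
    rintro h
    rw [h] at hx1
    exact zero_ne_one hx1
  have hind' := rank_Ve hx1 hE
  have hxC' : ∀ c ∈ (Finset.univ : Finset A), eval x (F c) = 0 := fun c _ => hxC c
  have hxb : ∀ b, b ∉ (Finset.univ : Finset A) → eval x (F b) ≠ 0 := fun b hb =>
    absurd (Finset.mem_univ b) hb
  rcases tricho_EW hpos hF hD hFK hn3 (by rw [Fintype.card_fin]; exact hw2) hd hxC hx0
    hind' with ⟨y, ik, hik, hOn⟩ | ⟨w', b, u, t, rn, y, i0, ik, hi0, hik, hrn, hnum⟩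
  · right
    refine ⟨fun j => ψ (y j), ik, ?_, (onL_mapF ψ hF hxC').2 hOn⟩
    rw [pl_map]
    dsimp only
    rwa [Ne, map_eq_zero]
  have hxn : x = x i0 • nx x i0 := by
    funext j
    rw [Pi.smul_apply, smul_eq_mul, nx, mul_div_cancel₀ _ hi0]
  have hgen' : Algebra.IsAlgebraic (coords k (nx x i0)) L := by
    refine alg_of_coords hgen ?_
    unfold coords
    rw [IntermediateField.adjoin_le_iff]
    rintro z ⟨i, j, hj, rfl⟩
    refine IntermediateField.subset_adjoin _ _ ⟨i, j, div_ne_zero hj hi0, ?_⟩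
    unfold nx
    field_simp
  obtain ⟨l', hl'⟩ := exists_coord_basis htr hgen'
  have hnx0 : ∀ Q : Place k L, pord Q (nx x i0) ≤ 0 := by
    intro Q
    have h1 : nx x i0 i0 = 1 := div_self hi0
    have h2 := pord_le Q (f := nx x i0) (j := i0) (by rw [h1]; exact one_ne_zero)
    rwa [h1, Q.ord_one] at h2
  have hnp0 : ∀ Q : Place k L, po Q (np x y ik) ≤ 0 := by
    intro Q
    have h1 : np x y ik ik = 1 := div_self hik
    have h2 := po_le Q (f := np x y ik) (j := ik) (by rw [h1]; exact one_ne_zero)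
    rwa [h1, Q.ord_one] at h2
  rw [← or_assoc] at hnum
  rcases hnum with hnum | ⟨c1, c, hc1, hc2, htot⟩
  swap
  · -- the line meets a hypersurface in one point only
    left
    obtain ⟨r, hr⟩ : ∃ r, r = t - u := ⟨_, rfl⟩
    obtain ⟨Φ, hlin, hΦE, hΦ⟩ := exists_phi_neg hpos hF hD hw htr hS hl hE hFk hxC' hxb hi0 hik
      rn hrn (h := c1) (r := r) (by simp only [Fintype.card_fin]; omega)
      (by simp only [Fintype.card_fin]; omega)
    obtain ⟨hy, hord⟩ := tot_ord hG hFG hik htot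
    obtain ⟨η, hη⟩ : ∃ η, η = eval y (F c) * x i0 ^ dg c / pl x y ik ^ dg c := ⟨_, rfl⟩
    have hη0 : η ≠ 0 := by
      rw [hη]
      exact div_ne_zero (mul_ne_zero hy (pow_ne_zero _ hi0)) (pow_ne_zero _ hik)
    have hηo : ∀ Q : Place k L, dg c * po Q (np x y ik) ≤ dg c * pord Q (nx x i0) + Q.ord η := by
      intro Q
      have h1 := hord Q
      have h3 : pord Q (nx x i0) = pord Q x - Q.ord (x i0) := by
        have h4 : nx x i0 = fun j => (x i0)⁻¹ * x j := by
          funext j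
          rw [nx, div_eq_mul_inv, mul_comm]
        rw [h4, pord_scale Q ⟨i0, hi0⟩ (inv_ne_zero hi0), Q.ord_inv]
        ring
      have h5 : po Q (np x y ik) = po Q (pl x y) - Q.ord (pl x y ik) := by
        have h4 : np x y ik = fun j => (pl x y ik)⁻¹ * pl x y j := by
          funext j
          rw [np, div_eq_mul_inv, mul_comm]
        rw [h4, po_scale Q (fun h => hik (congrFun h ik)) (inv_ne_zero hik), Q.ord_inv]
        ring
      rw [h3, h5, hη, Q.ord_div (mul_ne_zero hy (pow_ne_zero _ hi0)) (pow_ne_zero _ hik),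
        Q.ord_mul hy (pow_ne_zero _ hi0), Q.ord_pow, Q.ord_pow]
      nlinarith
    have hdc : (1 : ℤ) ≤ dg c := by exact_mod_cast hpos c
    refine lgt_mk htr (hpos c) _ (fun Dd => Φ Dd ^ dg c * η ^ (c1 + 1)) (fun M D1 D2 h => ?_)
      (E := E) (mul_ne_zero (pow_ne_zero _ hΦE) (pow_ne_zero _ hη0)) _ hl'.1 fun Q hQ Dd hDd => ?_
    · rw [hlin M D1 D2 h]
      ring
    · have hDd' : ((∀ i, DerReg Q (Dd i)) ∧ ∀ b, b ∉ (Finset.univ : Finset A) →
          Q.ord (eval x (F b)) ≤ dg b * pord Q x) ∨ ∀ i, DerLog Q (Dd i) := by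
        rcases hDd with ⟨h1, h2⟩ | h1
        · exact Or.inl ⟨h1, fun b hb => absurd (Finset.mem_univ b) hb⟩
        · exact Or.inr h1
      have h1 := (hΦ Q hQ Dd hDd').pow (dg c)
      have h2 : Ge Q ((c1 + 1 : ℕ) * Q.ord η) (η ^ (c1 + 1)) :=
        Ge.pow (P := Q) (N := Q.ord η) (Or.inr le_rfl) (c1 + 1)
      have h3 := h1.mul h2
      obtain ⟨X, hX⟩ : ∃ X, X = pord Q (nx x i0) := ⟨_, rfl⟩
      obtain ⟨Y, hY⟩ : ∃ Y, Y = po Q (np x y ik) := ⟨_, rfl⟩
      obtain ⟨Z, hZ⟩ : ∃ Z, Z = Q.ord η := ⟨_, rfl⟩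
      have h4 := hηo Q
      have hX0 := hnx0 Q
      have hY0 := hnp0 Q
      rw [← hX, ← hY, ← hZ] at h4
      rw [← hX] at hX0
      rw [← hY] at hY0
      rw [← hX, ← hY, ← hZ] at h3
      have hrc : (c1 : ℤ) + 1 ≤ r := by
        have : c1 + 1 ≤ r := by omega
        exact_mod_cast this
      have h5 : -(dg c * X) ≤ dg c * (c1 * X - r * Y) + ((c1 + 1 : ℕ) : ℤ) * Z := by
        push_cast
        have e1 : (c1 : ℤ) * (dg c * Y) ≤ c1 * (dg c * X + Z) :=
          mul_le_mul_of_nonneg_left h4 (by positivity)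
        have e2 : ((r : ℤ) - c1 - 1) * (dg c * Y) ≤ 0 :=
          mul_nonpos_of_nonneg_of_nonpos (by linarith)
            (mul_nonpos_of_nonneg_of_nonpos (by positivity) hY0)
        nlinarith
      have h6 := h3.mono h5
      have hdX : dg c * X ≤ X := by nlinarith
      refine ⟨h6.mono (by nlinarith), fun i => ?_⟩
      have h7 : Ge Q X (nx x i0 (l' i)) := by
        by_cases h0 : nx x i0 (l' i) = 0
        · exact Or.inl h0
        · rw [hX]
          exact Or.inr (pord_le Q h0)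
      exact (h6.mul h7).mono (by linarith)
  obtain ⟨h, hh⟩ : ∃ h, h = ∑ a, dg a - (n + 1 + b + t) := ⟨_, rfl⟩
  obtain ⟨r, hr⟩ : ∃ r, r = t - u := ⟨_, rfl⟩
  obtain ⟨Φ, hlin, hΦE, hΦ⟩ := exists_phi hpos hF hD hw htr hS hl hE hFk hxC' hxb hi0 hik rn hrn
    (h := h) (r := r) (by simp only [Fintype.card_fin]; omega)
    (by simp only [Fintype.card_fin]; omega)
  have hΦ' : ∀ Q : Place k L, Divisorial w Q → ∀ Dd : Fin w → Derivation k L L,
      (((∀ i, DerReg Q (Dd i)) ∧ ¬ ∃ b, b ∉ (Finset.univ : Finset A) ∧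
          dg b * pord Q x < Q.ord (eval x (F b))) ∨
        ∀ i, DerLog Q (Dd i)) →
      Ge Q (-(h * pord Q (nx x i0)) - r * po Q (np x y ik)) (Φ Dd) := by
    intro Q hQ Dd hDd
    refine hΦ Q hQ Dd ?_
    rcases hDd with ⟨h1, h2⟩ | h1
    · push Not at h2
      exact Or.inl ⟨h1, h2⟩
    · exact Or.inr h1
  have hr0 : (0 : ℤ) ≤ r := by positivity
  have hh0 : (0 : ℤ) ≤ h := by positivity
  rcases hnum with ⟨h1, h2⟩ | ⟨h1, h2⟩
  · left
    refine lgt_big htr _ (E := E) Φ hlin hΦE hnx0 (fun Q hQ Dd hDd => ?_) _ hl'.1 fun Q i => ?_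
    · refine (hΦ' Q hQ Dd hDd).mono ?_
      have e1 : (1 : ℤ) ≤ h := by exact_mod_cast (by omega : 1 ≤ h)
      have e2 := hnx0 Q
      have e3 := hnp0 Q
      nlinarith
    · by_cases h0 : nx x i0 (l' i) = 0
      · exact Or.inl h0
      · exact Or.inr (pord_le Q h0)
  · refine (lgt_fib hG htr hFG hxC' hxb hik hgen hl hE Φ hlin hΦE (fun Q hQ Dd hDd => ?_) ψ).imp
      id fun ⟨y', ik', h5, h6, _⟩ => ⟨y', ik', h5, h6⟩
    refine (hΦ' Q hQ Dd hDd).mono ?_
    have e1 : (1 : ℤ) ≤ r := by exact_mod_cast (by omega : 1 ≤ r)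
    have e2 := hnx0 Q
    have e3 := hnp0 Q
    nlinarith

/-- Log general type, or covered by exceptional lines. -/
theorem gt_or_lineW (hn3 : n = Fintype.card A + 3) (hpos : ∀ a, 0 < dg a) {G : A → MvPolynomial (Fin (n + 1)) k}
    (hG : ∀ a, (G a).IsHomogeneous (dg a))
    (hind : AlgebraicIndependent k0 fun p : (a : A) × {I : Fin (n + 1) →₀ ℕ // I.degree = dg a} =>
      (G p.1).coeff p.2.1) (hd : ∑ a, dg a = n + 2)
    (hw2 : 1 < w) (htr : Algebra.trdeg k L = w)
    {x : Fin (n + 1) → L} (hx0 : x ≠ 0)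
    (hgen : Algebra.IsAlgebraic (coords k x) L)
    (hxC : ∀ c, aeval x (G c) = 0)
    {Λ : Type} [Field Λ] [IsAlgClosed Λ] (ψ : L →+* Λ) :
    GeneralType k L w ∨
      LineK (mapF ψ fun a => map (algebraMap k L) (G a)) (fun j => ψ (x j)) := by
  classical
  obtain ⟨j0, hj0⟩ := Function.ne_iff.1 hx0
  have hj0' : x j0 ≠ 0 := hj0
  obtain ⟨x', hx'⟩ : ∃ x' : Fin (n + 1) → L, x' = (x j0)⁻¹ • x := ⟨_, rfl⟩
  have hxx : x = x j0 • x' := by
    rw [hx', smul_smul, mul_inv_cancel₀ hj0', one_smul]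
  have hx1 : x' j0 = 1 := by
    rw [hx']
    exact inv_mul_cancel₀ hj0'
  have hev : ∀ a, aeval x (G a) = x j0 ^ dg a * aeval x' (G a) := by
    intro a
    have h1 : ∀ z : Fin (n + 1) → L, aeval z (G a) = eval z (map (algebraMap k L) (G a)) := by
      intro z
      rw [eval_map]
      rfl
    rw [h1, h1]
    conv_lhs => rw [hxx]
    rw [eval_smul_hom ((hG a).map _)]
  have hgen' : Algebra.IsAlgebraic (coords k x') L := by
    refine alg_of_coords hgen ?_
    unfold coords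
    rw [IntermediateField.adjoin_le_iff]
    rintro z ⟨i, j, hj, rfl⟩
    refine IntermediateField.subset_adjoin _ _ ⟨i, j, ?_, ?_⟩
    · rw [hx']
      exact mul_ne_zero (inv_ne_zero hj0') hj
    · rw [hx', Pi.smul_apply, Pi.smul_apply, smul_eq_mul, smul_eq_mul,
        mul_div_mul_left _ _ (inv_ne_zero hj0')]
  have hxC' : ∀ c, aeval x' (G c) = 0 := fun c => by
    have := hxC c
    rw [hev] at this
    exact (mul_eq_zero.1 this).resolve_left (pow_ne_zero _ hj0')
  rcases gt_or_lineW1 hn3 hpos hG hind hd hw2 htr hx1 hgen' hxC' ψ with h | ⟨y, ik, hik, hOn⟩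
  · left
    obtain ⟨h1, N, hN, ω, h2, -, h3, h4⟩ := h
    exact ⟨h1, N, hN, ω, h2, fun P hP => h3 P hP fun ⟨b, hb, _⟩ => hb (Finset.mem_univ b), h4⟩
  · right
    refine ⟨y, ik, ?_, fun c hc a b => ?_⟩
    · have h3 : pl (fun j => ψ (x j)) y ik = ψ (x j0) * pl (fun j => ψ (x' j)) y ik := by
        have h4 : ∀ j, ψ (x j) = ψ (x j0) * ψ (x' j) := fun j => by
          rw [← map_mul]
          exact congrArg ψ (congrFun hxx j)
        rw [pl, pl, h4 ik.1, h4 ik.2]
        ring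
      rw [h3]
      exact mul_ne_zero ((map_ne_zero ψ).2 hj0') hik
    · have h4 : (fun j => ψ (x j)) = ψ (x j0) • fun j => ψ (x' j) := by
        funext j
        rw [Pi.smul_apply, smul_eq_mul, ← map_mul]
        exact congrArg ψ (congrFun hxx j)
      rw [h4, smul_smul]
      exact hOn c hc _ _

end

end Pool.Agent.H435.CT
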