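import Pool.Agent.H435.CT.Below
import Pool.Agent.H435.CT.Wmain
import Pool.Agent.H435.SC.Top
import Pool.Graph.R_pool_sql_team_seeded_1acbe0a2.Y741.MPtd

/-!
Generic complete intersections: the notions of hyperbolicity.
-/

set_option autoImplicit false
set_option linter.unusedSectionVars false

open MvPolynomial FF Pool.Agent.W603.LV Pool.Agent.W603.PV Pool.Agent.TH145.GH
open Pool.Agent.Y735 (pl rho eval_rho)
open Pool.Agent.TH145.GC (Cf Rt)
open Pool.Agent.W602.GT Pool.Agent.TH145.MG Pool.Agent.TH145.GF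
open Pool.Agent.Y221.PB (PtdMaps ptd_of_bound)

namespace Pool.Agent.H435.CT

open Pool.Agent.Y741

section

variable {k : Type} [Field k] [IsAlgClosed k] [CharZero k] {n : ℕ}

/-- The field of the coordinates of the generic point of a curve. -/
theorem isFF_coords {K : Type} [Field K] [Algebra k K] {y : Fin (n + 1) → K}
    (htr : Algebra.trdeg k K = (1 : ℕ)) (hgen : Algebra.IsAlgebraic (coords k y) K) :
    IsFF k (coords k y) := by
  classical
  refine ⟨?_, ?_⟩
  · rw [IntermediateField.essFiniteType_iff]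
    have hfin : {z : K | ∃ i j, y j ≠ 0 ∧ z = y i / y j}.Finite := by
      refine (Set.finite_range fun p : Fin (n + 1) × Fin (n + 1) => y p.1 / y p.2).subset ?_
      rintro z ⟨i, j, -, rfl⟩
      exact ⟨(i, j), rfl⟩
    refine ⟨hfin.toFinset, ?_⟩
    rw [hfin.coe_toFinset]
    rfl
  · obtain ⟨ι, x, hx⟩ := exists_isTranscendenceBasis' k (coords k y)
    have h1 := (hx.algebraMap_comp (A := K)).cardinalMk_eq_trdeg
    have h2 := hx.cardinalMk_eq_trdeg
    rw [← h2, h1, htr, Nat.cast_one]

end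

section

variable {k0 k : Type} [Field k0] [Field k] [Algebra k0 k] [IsAlgClosed k] [CharZero k] {n : ℕ}
  {A : Type} [Fintype A] [DecidableEq A] {d : A → ℕ} {G : A → MvPolynomial (Fin (n + 1)) k}

/-- There are no lines in large degree. -/
theorem no_lineX (hG : ∀ a, (G a).IsHomogeneous (d a))
    (hind : AlgebraicIndependent k0 fun p : Cf n d => (G p.1).coeff p.2.1)
    (hno : 2 * n ≤ ∑ a, d a + Fintype.card A + 1) (W : Submodule k (Fin (n + 1) → k)) :
    ¬ LineX G W := by
  intro hW
  have h1 : ∑ a, (d a + 1) = ∑ a, d a + Fintype.card A := by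
    rw [Finset.sum_add_distrib, Finset.sum_const, Finset.card_univ, smul_eq_mul, mul_one]
  exact Pool.Agent.H435.SC.no_lineIn (k := k0) (by omega) hG hind W ⟨hW.1, hW.2⟩

/-- The degrees of the curves. -/
theorem deg_all (hd0 : ∀ a, 0 < d a) (hG : ∀ a, (G a).IsHomogeneous (d a))
    (hind : AlgebraicIndependent k0 fun p : Cf n d => (G p.1).coeff p.2.1)
    (hR : 3 * n + 2 ≤ 2 * ∑ a, d a + Fintype.card A ∨
      (n = Fintype.card A + 3 ∧ ∑ a, d a = n + 2))
    (hno : 2 * n ≤ ∑ a, d a + Fintype.card A + 1) (hn : 1 ≤ n) :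
    ∃ B : ℕ, ∀ (L : Type) [Field L] [Algebra k L] [IsFF k L] (x : Fin (n + 1) → L),
      PtX G x → (∃ a b, x b ≠ 0 ∧ Transcendental k (x a / x b)) →
      1 ≤ canDeg k L ∧ pht k x ≤ B * canDeg k L := by
  classical
  rcases hR with hR | ⟨h1, h2⟩
  · obtain ⟨e, he⟩ : ∃ e, ∀ a, d a ≤ e := ⟨∑ a, d a, fun a =>
      Finset.single_le_sum (f := d) (fun _ _ => Nat.zero_le _) (Finset.mem_univ a)⟩
    refine ⟨e, fun L _ _ _ x hx ⟨a, b, hb, hab⟩ => ?_⟩
    have h3 := Pool.Agent.H435.SC.deg_of_form (k0 := k0) hn hd0 hG hind hR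
      (isHomogeneous_one (Fin (n + 1)) k) (fun W hW => absurd hW (no_lineX hG hind hno W))
      hx.1 hx.2 (by rw [map_one]; exact one_ne_zero) he
    have hxa : x a ≠ 0 := by
      intro h
      apply hab
      rw [h, zero_div]
      exact isAlgebraic_zero
    have hp0 : 0 < pht k x := by
      have h1 := Pool.Agent.W603.CX.hgt_le_pht (k := k) x hxa hb
      by_contra h2
      push Not at h2
      obtain ⟨c, hc⟩ := Pool.Agent.W603.LV.const_of_hgt (h1.trans h2)
      apply hab
      rw [hc]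
      exact isAlgebraic_algebraMap _
    have h4 : 1 ≤ canDeg k L := by
      by_contra hcon
      rw [max_eq_right (by omega), mul_zero] at h3
      linarith
    rw [max_eq_left (by omega)] at h3
    exact ⟨h4, h3⟩
  · obtain ⟨B, hB⟩ := main hd0 h1 h2 hG hind
    exact ⟨B, fun L _ _ _ x hx hab => hB L x hx.2 hab⟩

/-- A nonconstant coordinate. -/
theorem exists_nonconst {L : Type} [Field L] [Algebra k L] [IsFF k L] {x : Fin (n + 1) → L}
    (hx : x ≠ 0) (hp : 0 < pht k x) : ∃ a b, x b ≠ 0 ∧ Transcendental k (x a / x b) := by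
  obtain ⟨l, hl⟩ := Function.ne_iff.1 hx
  have hl' : x l ≠ 0 := hl
  obtain ⟨j, hj⟩ : ∃ j, 1 ≤ hgt k (x j / x l) := by
    by_contra hcon
    push Not at hcon
    have h1 := pht_le (k := k) x hl'
    have h2 : ∑ j, hgt k (x j / x l) ≤ ∑ _j : Fin (n + 1), (0 : ℤ) :=
      Finset.sum_le_sum fun j _ => by have := hcon j; omega
    rw [Finset.sum_const_zero] at h2
    omega
  refine ⟨j, l, hl', fun halg => ?_⟩
  obtain ⟨c, hc⟩ := const_of_algebraic halg
  rw [hc] at hj
  have h1 : hgt k (algebraMap k L c) = 0 := by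
    unfold hgt
    refine finsum_eq_zero_of_forall_eq_zero fun P => ?_
    by_cases h0 : c = 0
    · rw [h0, map_zero, P.ord_zero]
      simp
    · rw [P.ord_const h0]
      simp
  omega

/-- The degrees of all points. -/
theorem deg_all' (hd0 : ∀ a, 0 < d a) (hG : ∀ a, (G a).IsHomogeneous (d a))
    (hind : AlgebraicIndependent k0 fun p : Cf n d => (G p.1).coeff p.2.1)
    (hR : 3 * n + 2 ≤ 2 * ∑ a, d a + Fintype.card A ∨
      (n = Fintype.card A + 3 ∧ ∑ a, d a = n + 2))
    (hno : 2 * n ≤ ∑ a, d a + Fintype.card A + 1) (hn : 1 ≤ n) :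
    ∃ B : ℕ, ∀ (L : Type) [Field L] [Algebra k L] [IsFF k L] (x : Fin (n + 1) → L),
      PtX G x → pht k x ≤ B * max (canDeg k L) 0 := by
  obtain ⟨B, hB⟩ := deg_all (k0 := k0) hd0 hG hind hR hno hn
  refine ⟨B, fun L _ _ _ x hx => ?_⟩
  rcases le_or_gt (pht k x) 0 with hp | hp
  · have := le_max_right (canDeg k L) 0
    exact hp.trans (by positivity)
  · have h1 := hB L x hx (exists_nonconst hx.1 hp)
    rw [max_eq_left (by linarith [h1.1])]
    exact h1.2

/-- All closed subvarieties are of general type. -/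
theorem all_gt (hd0 : ∀ a, 0 < d a) (hG : ∀ a, (G a).IsHomogeneous (d a))
    (hind : AlgebraicIndependent k0 fun p : Cf n d => (G p.1).coeff p.2.1)
    (hR : 3 * n + 2 ≤ 2 * ∑ a, d a + Fintype.card A ∨
      (n = Fintype.card A + 3 ∧ ∑ a, d a = n + 2))
    (hno : 2 * n ≤ ∑ a, d a + Fintype.card A + 1) (hn : 1 ≤ n) : AllX G := by
  classical
  intro K _ _ w y hw hy
  rcases hR with hR | ⟨h1, h2⟩
  · exact Pool.Agent.H435.SC.gt_of_form (k0 := k0) hn hd0 hG hind hR
      (H := (1 : MvPolynomial (Fin (n + 1)) k))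
      (fun W hW => absurd hW (no_lineX hG hind hno W)) hw hy
      (by rw [map_one]; exact one_ne_zero)
  obtain ⟨⟨hy0, hyC⟩, htr, hgen⟩ := hy
  have hK : CharZero K := charZero_of_injective_algebraMap (algebraMap k K).injective
  rcases Nat.lt_or_ge 1 w with hw1 | hw1
  · -- surfaces
    obtain ⟨ψ, hψ⟩ : ∃ ψ : K →ₐ[k] AlgebraicClosure K,
      ψ = IsScalarTower.toAlgHom k K (AlgebraicClosure K) := ⟨_, rfl⟩
    rcases gt_or_lineW (k0 := k0) h1 hd0 hG hind h2 hw1 htr hy0 hgen hyC
      (ψ : K →+* AlgebraicClosure K) with h | ⟨z, ik, hik, hOn⟩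
    · exact h
    · exfalso
      have h3 : mapF (ψ : K →+* AlgebraicClosure K) (fun a => map (algebraMap k K) (G a)) =
          fun a => map (algebraMap k (AlgebraicClosure K)) (G a) := by
        funext a
        unfold mapF
        rw [map_map, ψ.comp_algebraMap]
      rw [h3] at hOn
      exact no_onL (k0 := k0) hG hind hno hik hOn
  · -- curves
    have hw' : w = 1 := by omega
    subst hw'
    have hff : IsFF k (coords k y) := isFF_coords htr hgen
    obtain ⟨b, hb⟩ := Function.ne_iff.1 hy0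
    have hb' : y b ≠ 0 := hb
    obtain ⟨y', hy'⟩ : ∃ y' : Fin (n + 1) → coords k y, ∀ l, (y' l : K) = y l / y b :=
      ⟨fun l => ⟨y l / y b, IntermediateField.subset_adjoin _ _ ⟨l, b, hb', rfl⟩⟩, fun _ => rfl⟩
    have hy'b : y' b = 1 := by
      apply Subtype.ext
      rw [hy', div_self hb']
      rfl
    have hy'0 : y' ≠ 0 := by
      intro h0
      have h3 := congrFun h0 b
      rw [hy'b] at h3
      exact one_ne_zero h3
    have hy'C : ∀ c, aeval y' (G c) = 0 := by
      intro c
      apply (algebraMap (coords k y) K).injective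
      rw [map_zero, ← MvPolynomial.aeval_algebraMap_apply]
      have h3 := eval_smul_hom ((hG c).map (algebraMap k K)) y (y b)⁻¹
      rw [eval_map, eval_map] at h3
      have h4 : (fun j => algebraMap (coords k y) K (y' j)) = (y b)⁻¹ • y := by
        funext l
        change ((y' l : K)) = _
        rw [hy', Pi.smul_apply, smul_eq_mul, div_eq_mul_inv, mul_comm]
      change aeval (fun j => algebraMap (coords k y) K (y' j)) (G c) = 0
      rw [h4]
      change eval₂ (algebraMap k K) ((y b)⁻¹ • y) (G c) = 0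
      rw [h3]
      have h5 : eval₂ (algebraMap k K) y (G c) = 0 := hyC c
      rw [h5, mul_zero]
    have hnc : ∃ a, Transcendental k (y' a) := by
      by_contra hcon
      push Not at hcon
      choose r hr using fun a => Pool.Agent.H435.ST.const_of_alg (k := k) (hcon a)
      have h3 : coords k y = ⊥ := by
        rw [eq_bot_iff]
        unfold coords
        rw [IntermediateField.adjoin_le_iff]
        rintro z ⟨i, j, hj, rfl⟩
        have h4 : y i / y j = algebraMap k K (r i / r j) := by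
          have h5 : ∀ l, y l / y b = algebraMap k K (r l) := by
            intro l
            rw [← hy', ← hr]
            rfl
          rw [map_div₀, ← h5, ← h5, div_div_div_cancel_right₀ hb']
        rw [h4]
        exact IntermediateField.algebraMap_mem _ _
      obtain ⟨t, ht⟩ := IsFF.exists_transcendental (k := k) (K := coords k y)
      have h4 : (t : K) ∈ (⊥ : IntermediateField k K) := by
        rw [← h3]
        exact t.2
      obtain ⟨c, hc⟩ := IntermediateField.mem_bot.1 h4
      apply ht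
      have h5 : t = algebraMap k (coords k y) c := Subtype.ext hc.symm
      rw [h5]
      exact isAlgebraic_algebraMap _
    obtain ⟨a, ha⟩ := hnc
    obtain ⟨B, hB⟩ := deg_all (k0 := k0) hd0 hG hind (Or.inr ⟨h1, h2⟩) hno hn
    have h3 := hB (coords k y) y' ⟨hy'0, hy'C⟩ ⟨a, b, by rw [hy'b]; exact one_ne_zero, by
      rw [hy'b, _root_.div_one]; exact ha⟩
    exact gt_up (E := coords k y) h3.1

/-- Pointed maps. -/
theorem ptd_all (hd0 : ∀ a, 0 < d a) (hG : ∀ a, (G a).IsHomogeneous (d a))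
    (hind : AlgebraicIndependent k0 fun p : Cf n d => (G p.1).coeff p.2.1)
    (hR : 3 * n + 2 ≤ 2 * ∑ a, d a + Fintype.card A ∨
      (n = Fintype.card A + 3 ∧ ∑ a, d a = n + 2))
    (hno : 2 * n ≤ ∑ a, d a + Fintype.card A + 1) (hn : 1 ≤ n)
    {L : Type} [Field L] [Algebra k L] [IsFF k L] (c : Place k L) {x : Fin (n + 1) → k}
    (hx : x ≠ 0) : (PtdMaps G c x).Finite := by
  obtain ⟨B, hB⟩ := deg_all' (k0 := k0) hd0 hG hind hR hno hn
  refine ptd_of_bound (G := 1) (fun a => ⟨d a, hG a⟩) ⟨0, isHomogeneous_one _ _⟩ (B := B) ?_ c hx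
    ?_
  · intro L' _ _ _ f hf hfG _
    exact hB L' f ⟨fun h0 => by
      obtain ⟨j, hj⟩ := hf
      exact hj (congrFun h0 j), hfG⟩
  · rw [show val x (1 : MvPolynomial (Fin (n + 1)) k) = 1 from map_one _]
    exact one_ne_zero

/-- The equivalences. -/
theorem tfae_all (hn : Fintype.card A + 2 ≤ n) (hK3 : n = Fintype.card A + 2 → ∑ a, d a ≠ n + 1)
    (hd0 : ∀ a, 0 < d a) (hG : ∀ a, (G a).IsHomogeneous (d a))
    (hind : AlgebraicIndependent k0 fun p : Cf n d => (G p.1).coeff p.2.1) :
    List.TFAE [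
      ∃ B : ℕ, ∀ (L : Type) [Field L] [Algebra k L] [IsFF k L] (x : Fin (n + 1) → L),
        PtX G x → (∃ a b, x b ≠ 0 ∧ Transcendental k (x a / x b)) →
        1 ≤ canDeg k L ∧ pht k x ≤ B * canDeg k L,
      BddX G, ∀ P, ¬ GmX G P, AllX G,
      ∀ (L : Type) [Field L] [Algebra k L] [IsFF k L] (c : Place k L) (x : Fin (n + 1) → k),
        x ≠ 0 → (∀ a, eval x (G a) = 0) → (PtdMaps G c x).Finite,
      ∀ W, ¬ LineX G W, 2 * n - 1 ≤ ∑ a, (d a + 1)] := by
  have hsum : ∑ a, (d a + 1) = ∑ a, d a + Fintype.card A := by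
    rw [Finset.sum_add_distrib, Finset.sum_const, Finset.card_univ, smul_eq_mul, mul_one]
  have hrange : 2 * n - 1 ≤ ∑ a, (d a + 1) →
      (3 * n + 2 ≤ 2 * ∑ a, d a + Fintype.card A ∨
        (n = Fintype.card A + 3 ∧ ∑ a, d a = n + 2)) := by
    intro h
    rcases Nat.lt_or_ge n (Fintype.card A + 3) with h1 | h1
    · have h2 := hK3 (by omega)
      omega
    · omega
  have hn1 : 1 ≤ n := by omega
  tfae_have 7 → 1 := fun h => deg_all (k0 := k0) hd0 hG hind (hrange h) (by omega) hn1
  tfae_have 1 → 2 := by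
    rintro ⟨B, h⟩ L _ _ _
    refine ⟨B * max (canDeg k L) 0, fun x hx => ?_⟩
    rcases le_or_gt (pht k x) 0 with hp | hp
    · have := le_max_right (canDeg k L) 0
      exact hp.trans (by positivity)
    · exact (h L x hx (exists_nonconst hx.1 hp)).2.trans
        (mul_le_mul_of_nonneg_left (le_max_left _ _) (by positivity))
  tfae_have 2 → 6 := fun h => bdd_noline h
  tfae_have 6 → 7 := fun h => noline_bound (k0 := k0) hn1 hd0 hG hind h
  tfae_have 7 → 4 := fun h => all_gt (k0 := k0) hd0 hG hind (hrange h) (by omega) hn1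
  tfae_have 4 → 3 := fun h => all_gm h
  tfae_have 3 → 6 := fun h => gm_noline hG h
  tfae_have 7 → 5 := fun h L _ _ _ c x hx _ =>
    ptd_all (k0 := k0) hd0 hG hind (hrange h) (by omega) hn1 c hx
  tfae_have 5 → 6 := by
    intro h W hW
    have h2 := ptd_line (G := G) (isHomogeneous_one (Fin (n + 1)) k)
      (fun L _ _ _ c x hx hxG _ => h L c x hx hxG) hW 0 W.zero_mem
    rw [map_one] at h2
    exact one_ne_zero h2
  tfae_finish

end

end Pool.Agent.H435.CT
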