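import Pool.Agent.H435.CT.Plb

/-!
The trichotomy for curves on generic complete intersections of dimension three.
-/

set_option autoImplicit false

open MvPolynomial FF Pool.Agent.W603.LV Pool.Agent.W603.PV Pool.Agent.TH145.GH
open Pool.Agent.Y735 (lf dt pl rho rho_deg eval_rho mem_Mx exists_ms_mt Good exists_pl fht line_basis)

namespace Pool.Agent.H435.CT

open Pool.Agent.Y741

variable {K : Type} [Field K] {n : ℕ} {A : Type}

section
variable [DecidableEq A] [Fintype A] {F : Fam K n A}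
  {dg : A → ℕ} {D : A → (Fin (n + 1) →₀ ℕ) → Derivation ℤ K K} {E : Fin 1 → Derivation ℤ K K}
  [CharZero K]
  (hpos : ∀ a, 0 < dg a) (hF : ∀ a, (F a).IsHomogeneous (dg a))
  (hD : TH145.GC.Dual F dg D) (hFK : ∀ ξ a u, E ξ ((F a).coeff u) = 0)

include hpos hF hD hFK

/-- The trichotomy. -/
theorem tricho_P (hcm : Comm D) (hn : n = Fintype.card A + 3) (hsum : ∑ a, dg a = n + 2)
    {x : Fin (n + 1) → K} (hxC : ∀ c, eval x (F c) = 0) {a0 l0 : Fin (n + 1)} (ha0 : x a0 = 1)
    (hDl : ∀ a I, D a I (x l0) = 0) (hEl : E 0 (x l0) ≠ 0)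
    (hind : Module.finrank K (Submodule.span K {x} ⊔ Ve E x : Submodule K (Fin (n + 1) → K)) =
      1 + Fintype.card (Fin 1)) :
    (∃ (y : Fin (n + 1) → K) (ik : Fin (n + 1) × Fin (n + 1)), pl x y ik ≠ 0 ∧
      OnL F Finset.univ x y) ∨
    (∃ (w b u t : ℕ) (rn : RN n A (Fin w) (Fin b) (Fin u) (Fin t)) (y : Fin (n + 1) → K)
      (i0 : Fin (n + 1)) (ik : Fin (n + 1) × Fin (n + 1)), x i0 ≠ 0 ∧ pl x y ik ≠ 0 ∧
      VRE F dg D E Finset.univ x y i0 ik rn ∧
      ((n + 1 + b + t + 1 ≤ ∑ a, dg a ∧ u ≤ t) ∨ (n + 1 + b + t ≤ ∑ a, dg a ∧ u < t) ∨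
        ∃ c1 c, n + 1 + b + t = ∑ a, dg a + c1 ∧ u + c1 + 1 ≤ t ∧ Tot F dg x y c)) ∨
    (∃ (w : ℕ) (rn : RN n A (Fin w) (Fin 1) (Fin 0) (Fin 0)) (y : Fin (n + 1) → K)
      (i0 : Fin (n + 1)) (ik : Fin (n + 1) × Fin (n + 1)), x i0 ≠ 0 ∧ pl x y ik ≠ 0 ∧
      VRE F dg D E Finset.univ x y i0 ik rn) := by
  classical
  have hn1 : 1 ≤ n := by omega
  have hx0 : x ≠ 0 := by
    rintro rfl
    exact zero_ne_one ha0
  have hxC' : ∀ c ∈ (Finset.univ : Finset A), eval x (F c) = 0 := fun c _ => hxC c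
  have hxb : ∀ b, b ∉ (Finset.univ : Finset A) → eval x (F b) ≠ 0 := fun b hb =>
    absurd (Finset.mem_univ b) hb
  have hker := TC_finrank hF hD hxC' hx0
  have hWle : WspE F D E x ≤ TC F Finset.univ x := sup_le (Wsp_le hpos hF hD hxC') (Ve_le hFK hxC')
  have hwn := Submodule.finrank_mono hWle
  have hw1 : 1 + Fintype.card (Fin 1) ≤ Module.finrank K (WspE F D E x) := by
    rw [← hind]
    exact Submodule.finrank_mono (sup_le_sup_right le_sup_left _)
  rw [Fintype.card_fin] at hw1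
  rw [Finset.card_univ] at hker
  have hcu : (Finset.univ : Finset A).card = Fintype.card A := Finset.card_univ
  obtain ⟨S, hS⟩ : ∃ S, S = ∑ a, dg a := ⟨_, rfl⟩
  obtain ⟨N, hN⟩ : ∃ N, N = Module.finrank K (TC F Finset.univ x) := ⟨_, rfl⟩
  obtain ⟨w, hw⟩ : ∃ w, w = Module.finrank K (WspE F D E x) := ⟨_, rfl⟩
  rw [← hS] at hsum ⊢
  rw [← hN] at hker
  rw [← hw, ← hN] at hwn
  rw [← hw] at hw1
  by_cases hG : Good (Bset D x dg) (TC F Finset.univ x) (WspE F D E x)
  · rcases Nat.even_or_odd' (N - w) with ⟨p, hp | hp⟩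
    · obtain ⟨a, rn, y, i0, ik, hi0, hik, h⟩ := vre_even hpos hF hD hFK hn1 hxC' hxb hx0 hind hG
        (p := p) (by rw [← hw, hcu]; omega)
      rcases Nat.eq_zero_or_pos p with hp0 | hp0
      · exact Or.inr (Or.inl ⟨a, p, 0, 0, rn, y, i0, ik, hi0, hik, h,
          Or.inl ⟨by omega, by omega⟩⟩)
      · have hp1 : p = 1 := by omega
        subst hp1
        exact Or.inr (Or.inr ⟨a, rn, y, i0, ik, hi0, hik, h⟩)
    · right
      left
      obtain ⟨a, rn, y, i0, ik, hi0, hik, h⟩ := vre_odd hpos hF hD hFK hxC' hxb hx0 hind hG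
        (p := p) (by rw [← hw, hcu]; omega)
      exact ⟨a, p, 0, 1, rn, y, i0, ik, hi0, hik, h, Or.inr (Or.inl ⟨by omega, by omega⟩)⟩
  · unfold Good at hG
    push Not at hG
    obtain ⟨φ, hφ0, hφ⟩ := hG
    obtain ⟨y, hy, ik, hik⟩ := exists_pl hx0 hφ0
    rw [← VlE_eq F dg D E hy, ← hN, ← hw] at hφ
    have hWV : w ≤ Module.finrank K (VlE F dg D E x y) := by
      rw [hw]
      exact Submodule.finrank_mono (WspE_le_VlE F dg D E x y)
    have hVV : Module.finrank K (Vl F dg D x y) ≤ Module.finrank K (VlE F dg D E x y) :=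
      Submodule.finrank_mono le_sup_left
    have hL := fun h1 h2 => on_lineK hpos hF hD hcm hxC hik h1 h2
    obtain ⟨v, hv⟩ : ∃ v, v = Module.finrank K (VlE F dg D E x y) := ⟨_, rfl⟩
    rw [← hv] at hφ hWV hVV
    rw [← hS] at hL
    obtain ⟨a, rn, i0, hi0, h⟩ := vre_line hpos hF hD hFK hxC' hxb hik (j := v - w) (r := N - v)
      hind (by rw [← hw, ← hv]; omega)
      (by rw [← hv, hcu]; omega)
    have h1 : S + Fintype.card A + v ≤ 2 * n + 1 := by omega
    -- the vertical vectors with two coordinates zero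
    have hWV' : WspE F D E x = VlE F dg D E x y :=
      Submodule.eq_of_le_of_finrank_eq (WspE_le_VlE F dg D E x y) (by rw [← hw, ← hv]; omega)
    have hxVe : (Submodule.span K {x} ⊔ Ve E x : Submodule K (Fin (n + 1) → K)) =
        WspE F D E x := by
      refine Submodule.eq_of_le_of_finrank_eq (sup_le_sup_right le_sup_left _) ?_
      rw [hind, ← hw, Fintype.card_fin]
      omega
    have hVW : Vl F dg D x y = Wsp F D x := by
      unfold Vl
      refine sup_eq_left.2 ?_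
      rw [Submodule.span_le]
      rintro z ⟨Q, m, hQ, hmx, hmy, rfl⟩
      have h2 : vq D x Q m ∈ VlE F dg D E x y := Submodule.mem_sup_left
        (Submodule.mem_sup_right (Submodule.subset_span ⟨Q, m, hQ, hmx, hmy, rfl⟩))
      rw [← hWV', ← hxVe] at h2
      obtain ⟨z1, hz1, z2, hz2, hz⟩ := Submodule.mem_sup.1 h2
      obtain ⟨α, rfl⟩ := Submodule.mem_span_singleton.1 hz1
      unfold Ve at hz2
      have h3 : (Set.range fun (ξ : Fin 1) l => E ξ (x l)) = {fun l => E 0 (x l)} := by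
        ext z
        constructor
        · rintro ⟨ξ, rfl⟩
          rw [Subsingleton.elim ξ 0]
          rfl
        · rintro rfl
          exact ⟨0, rfl⟩
      rw [h3] at hz2
      obtain ⟨β, rfl⟩ := Submodule.mem_span_singleton.1 hz2
      have h4 := congrFun hz a0
      rw [vq_apply, vA_apply, ha0, (DA D _).map_one_eq_zero, Pi.add_apply, Pi.smul_apply,
        Pi.smul_apply, smul_eq_mul, smul_eq_mul, ha0, (E 0).map_one_eq_zero, mul_zero, add_zero,
        mul_one] at h4
      have h5 := congrFun hz l0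
      have h6 : DA D (ql Q m) (x l0) = 0 := by
        rw [DA_apply]
        refine Finset.sum_eq_zero fun a _ => ?_
        rw [Pool.Agent.Y735.DD_apply]
        exact Finset.sum_eq_zero fun J _ => by rw [hDl, mul_zero]
      rw [vq_apply, vA_apply, h6, h4, zero_smul, zero_add, Pi.smul_apply, smul_eq_mul] at h5
      have h7 : β = 0 := (mul_eq_zero.1 h5).resolve_right hEl
      rw [← hz, h4, h7, zero_smul, zero_smul, add_zero]
      exact zero_mem _
    have hWle2 : Module.finrank K (Wsp F D x) ≤ w := by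
      rw [hw]
      exact Submodule.finrank_mono le_sup_left
    rw [hVW] at hL
    rcases hL (by omega) (by omega) with h2 | ⟨c, h2⟩
    · exact Or.inl ⟨y, ik, hik, h2⟩
    · right
      left
      exact ⟨a, 0, v - w, N - v, rn, y, i0, ik, hi0, hik, h, Or.inr (Or.inr
        ⟨n + 1 + (N - v) - S, c, by omega, by omega, h2⟩)⟩

end

end Pool.Agent.H435.CT
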