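import Pool.Agent.H435.CT.Deg
import Pool.Agent.H435.CT.Low

/-!
An upper bound for the number of the conditions for a plane curve in a generic complete
intersection.
-/

set_option autoImplicit false
set_option linter.unusedSectionVars false

open MvPolynomial FF Pool.Agent.W603.LV Pool.Agent.W603.PV Pool.Agent.TH145.GH
open Pool.Agent.Y735 (DD DD_apply)
open Pool.Agent.W602.GT Pool.Agent.TH145.GF
open Pool.Agent.Y741
open Pool.Agent.W619.TW (finrank_LL_le)

namespace Pool.Agent.H435.CT

open Pool.Agent.H435.ST (det3 ge_det3 exists_div)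

section

variable {k L : Type} [Field k] [Field L] [Algebra k L] [IsAlgClosed k] [CharZero k] [IsFF k L]
  {n : ℕ} {A : Type} [Fintype A] [DecidableEq A]

/-- The upper bound for the number of the conditions. -/
theorem upper {F : Fam L n A} {dg : A → ℕ} {D : A → (Fin (n + 1) →₀ ℕ) → Derivation ℤ L L}
    (hF : ∀ a, (F a).IsHomogeneous (dg a)) (hD : TH145.GC.Dual F dg D)
    (hS : ∀ a I, Sem k (D a I)) (hFk : ∀ a u, ∃ c : k, (F a).coeff u = algebraMap k L c)
    {δ : Derivation k L L} (hδ : δ ≠ 0)
    {x : Fin (n + 1) → L} (hxF : ∀ a, eval x (F a) = 0) {i : Fin (2 + 1) → Fin (n + 1)}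
    (hi : Function.Injective i) {ψ : Fin (n + 1) → Fin (2 + 1) → k}
    (hψ : ∀ l, x l = ∑ s, algebraMap k L (ψ l s) * x (i s))
    (hψi : ∀ s s', ψ (i s) s' = if s = s' then 1 else 0)
    (hn : ∃ j, ![x (i 1) * δ (x (i 2)) - x (i 2) * δ (x (i 1)),
      x (i 2) * δ (x (i 0)) - x (i 0) * δ (x (i 2)),
      x (i 0) * δ (x (i 1)) - x (i 1) * δ (x (i 0))] j ≠ 0) :
    ∃ W : Submodule k (A → L), FiniteDimensional k W ∧
      (∀ H : A → MvPolynomial (Fin (n + 1)) k, (∀ a, (H a).IsHomogeneous (dg a)) →
        (fun a => eval x (map (algebraMap k L) (H a))) ∈ W) ∧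
      Module.finrank k W ≤
        (n - 2) * 3 + (3 * pht k (fun s => x (i s)) + canDeg k L + 1).toNat := by
  classical
  obtain ⟨z, hz⟩ : ∃ z : Fin (2 + 1) → L, z = fun s => x (i s) := ⟨_, rfl⟩
  have hzs : ∀ s, x (i s) = z s := fun s => by rw [hz]
  rw [← hz]
  simp only [hzs] at hψ hn
  obtain ⟨w, hw⟩ : ∃ w : Fin (2 + 1) → L, w = fun s => δ (z s) := ⟨_, rfl⟩
  have hws : ∀ s, δ (z s) = w s := fun s => by rw [hw]
  simp only [hws] at hn
  obtain ⟨nn, hnn⟩ : ∃ nn : Fin (2 + 1) → L, nn = ![z 1 * w 2 - z 2 * w 1, z 2 * w 0 - z 0 * w 2,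
    z 0 * w 1 - z 1 * w 0] := ⟨_, rfl⟩
  rw [← hnn] at hn
  have hn0 : nn 0 = z 1 * w 2 - z 2 * w 1 := by rw [hnn]; rfl
  have hn1 : nn 1 = z 2 * w 0 - z 0 * w 2 := by rw [hnn]; rfl
  have hn2 : nn 2 = z 0 * w 1 - z 1 * w 0 := by rw [hnn]; rfl
  obtain ⟨j, hj⟩ := hn
  have hz0 : z ≠ 0 := by
    rintro rfl
    apply hj
    rw [hnn]
    fin_cases j <;> simp
  obtain ⟨Dv, hDv, hdd⟩ := exists_div hδ hz0
  -- the derivatives of the forms on the plane
  obtain ⟨fs, hfs⟩ : ∃ fs : A → Fin (2 + 1) → L, ∀ a s, fs a s =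
    ∑ l, eval x (pderiv l (F a)) * algebraMap k L (ψ l s) := ⟨_, fun _ _ => rfl⟩
  have hdF : ∀ (a : A) (v : Fin (n + 1) → L) (u : Fin (2 + 1) → L),
      (∀ l, v l = ∑ s, algebraMap k L (ψ l s) * u s) → dF (F a) x v = ∑ s, fs a s * u s := by
    intro a v u hv
    unfold dF
    simp only [hfs, Finset.sum_mul]
    rw [Finset.sum_comm]
    refine Finset.sum_congr rfl fun l _ => ?_
    rw [hv, Finset.mul_sum]
    exact Finset.sum_congr rfl fun s _ => by ring
  have hz1 : ∀ a, fs a 0 * z 0 + fs a 1 * z 1 + fs a 2 * z 2 = 0 := by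
    intro a
    have h1 := hdF a x z hψ
    rw [Pool.Agent.TH145.GC.dF_self (hF a), hxF, mul_zero, Fin.sum_univ_three] at h1
    exact h1.symm
  have hw1 : ∀ a, fs a 0 * w 0 + fs a 1 * w 1 + fs a 2 * w 2 = 0 := by
    intro a
    have h1 := hdF a (fun l => δ (x l)) w (fun l => by
      rw [hψ l, map_sum]
      refine Finset.sum_congr rfl fun s _ => ?_
      rw [δ.leibniz, δ.map_algebraMap, smul_zero, add_zero, smul_eq_mul, hws])
    have h3 := Pool.Agent.TH145.GE.dF_ev (E := δ.restrictScalars ℤ) (G := F a) (fun u => by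
      obtain ⟨c, hc⟩ := hFk a u
      rw [hc]
      exact δ.map_algebraMap c) x
    rw [hxF, map_zero] at h3
    rw [Fin.sum_univ_three] at h1
    rw [← h1]
    exact h3
  have hrel : ∀ c a b, fs c a * nn b = fs c b * nn a := by
    intro c
    have e01 : fs c 0 * nn 1 = fs c 1 * nn 0 := by
      rw [hn0, hn1]
      linear_combination z 2 * hw1 c - w 2 * hz1 c
    have e02 : fs c 0 * nn 2 = fs c 2 * nn 0 := by
      rw [hn0, hn2]
      linear_combination w 1 * hz1 c - z 1 * hw1 c
    have e12 : fs c 1 * nn 2 = fs c 2 * nn 1 := by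
      rw [hn1, hn2]
      linear_combination z 0 * hw1 c - w 0 * hz1 c
    intro a b
    fin_cases a <;> fin_cases b
    · rfl
    · exact e01
    · exact e02
    · exact e01.symm
    · rfl
    · exact e12
    · exact e02.symm
    · exact e12.symm
    · rfl
  obtain ⟨κ, hκ⟩ : ∃ κ : A → L, ∀ c, κ c = fs c j / nn j := ⟨_, fun _ => rfl⟩
  have hfκ : ∀ c s, fs c s = κ c * nn s := by
    intro c s
    rw [hκ]
    field_simp
    exact hrel c s j
  have hdet : ∀ c (u : Fin (2 + 1) → L), ∑ s, fs c s * u s = κ c * det3 z w u := by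
    intro c u
    rw [Fin.sum_univ_three, hfκ c 0, hfκ c 1, hfκ c 2, hn0, hn1, hn2]
    unfold det3
    ring
  -- the two spaces
  obtain ⟨gA, hgA⟩ : ∃ gA : {l : Fin (n + 1) // l ∉ Set.range i} × Fin (2 + 1) → A → L,
    ∀ q c, gA q c = eval x (pderiv q.1.1 (F c)) * z q.2 := ⟨_, fun _ _ => rfl⟩
  obtain ⟨B, hB⟩ : ∃ B : Submodule k (A → L), B = Submodule.span k (Set.range gA) := ⟨_, rfl⟩
  obtain ⟨mul, hmul⟩ : ∃ mul : L →ₗ[k] (A → L), ∀ u c, mul u c = κ c * u :=
    ⟨LinearMap.pi fun c => LinearMap.mulLeft k (κ c), fun _ _ => rfl⟩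
  obtain ⟨M, hM⟩ : ∃ M : Submodule k (A → L), M = (LL Dv).map mul := ⟨_, rfl⟩
  have hBf : FiniteDimensional k B := by
    rw [hB]
    exact FiniteDimensional.span_of_finite k (Set.finite_range gA)
  have hMf : FiniteDimensional k M := by
    rw [hM]
    infer_instance
  have hBr : Module.finrank k B ≤ (n - 2) * 3 := by
    rw [hB]
    refine (finrank_range_le_card gA).trans ?_
    rw [Fintype.card_prod, Fintype.card_fin]
    have h1 : Fintype.card {l : Fin (n + 1) // l ∉ Set.range i} = n - 2 := by
      have h2 := Fintype.card_subtype_compl (fun l => l ∈ Set.range i)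
      have h3 : Fintype.card {l : Fin (n + 1) // l ∈ Set.range i} = 3 := by
        have h4 := Set.card_range_of_injective hi
        rw [Fintype.card_fin] at h4
        exact (Fintype.card_congr (Equiv.refl _)).trans h4
      rw [h2, h3, Fintype.card_fin]
      omega
    rw [h1]
  have hMr : Module.finrank k M ≤ (3 * pht k z + canDeg k L + 1).toNat := by
    rw [hM]
    refine (Submodule.finrank_map_le _ _).trans ?_
    rw [← hdd]
    exact finrank_LL_le Dv
  have hle : ∀ H : A → MvPolynomial (Fin (n + 1)) k, (∀ a, (H a).IsHomogeneous (dg a)) →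
      (fun a => eval x (map (algebraMap k L) (H a))) ∈ B ⊔ M := by
    intro H hH
    obtain ⟨E, hE⟩ : ∃ E : Derivation ℤ L L, E = DA D (fun a => map (algebraMap k L) (H a)) :=
      ⟨_, rfl⟩
    have hES : Sem k E := by
      intro c
      choose d hd using fun a J => hS a J c
      refine ⟨∑ a, ∑ J ∈ (map (algebraMap k L) (H a)).support, (H a).coeff J * d a J, ?_⟩
      rw [hE, DA_apply, map_sum]
      refine Finset.sum_congr rfl fun a _ => ?_
      rw [DD_apply, map_sum]
      refine Finset.sum_congr rfl fun J _ => ?_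
      rw [coeff_map, hd, map_mul]
    have h1 : ∀ a, eval x (map (algebraMap k L) (H a)) = - dF (F a) x (fun l => E (x l)) := by
      intro a
      have h2 := dF_vA hF hD x (G := fun a => map (algebraMap k L) (H a))
        (fun a => (hH a).map (algebraMap k L)) a
      rw [hxF, map_zero, zero_sub] at h2
      have h3 : vA D x (fun a => map (algebraMap k L) (H a)) = fun l => E (x l) := by
        funext l
        rw [vA_apply, hE]
      rw [h3] at h2
      rw [h2, neg_neg]
    choose c hc using fun l s => hES (ψ l s)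
    have hcr : ∀ l, l ∈ Set.range i → ∀ s, algebraMap k L (c l s) = 0 := by
      rintro l ⟨s', rfl⟩ s
      rw [← hc, hψi]
      split_ifs
      · rw [map_one, E.map_one_eq_zero]
      · rw [map_zero, map_zero]
    have h2 : (fun l => E (x l)) = (fun l => ∑ s, algebraMap k L (c l s) * z s) +
        fun l => ∑ s, algebraMap k L (ψ l s) * E (z s) := by
      funext l
      rw [Pi.add_apply, hψ l, map_sum, ← Finset.sum_add_distrib]
      refine Finset.sum_congr rfl fun s _ => ?_
      rw [E.leibniz, hc]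
      simp only [smul_eq_mul]
      ring
    have h3 : (fun a => eval x (map (algebraMap k L) (H a))) =
        (fun a => - dF (F a) x (fun l => ∑ s, algebraMap k L (c l s) * z s)) +
          (fun a => -(κ a * det3 z w fun s => E (z s))) := by
      funext a
      rw [Pi.add_apply, h1, h2, dF_add, hdF _ _ (fun s => E (z s)) (fun l => rfl), hdet, neg_add]
    rw [h3]
    refine Submodule.add_mem_sup ?_ ?_
    · have h4 : (fun a => - dF (F a) x (fun l => ∑ s, algebraMap k L (c l s) * z s)) =
          ∑ q : {l : Fin (n + 1) // l ∉ Set.range i} × Fin (2 + 1),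
            (-c q.1.1 q.2) • gA q := by
        funext a
        rw [Finset.sum_apply, Fintype.sum_prod_type]
        unfold dF
        rw [← Finset.sum_neg_distrib, ← Fintype.sum_subtype_add_sum_subtype
          (fun l => l ∉ Set.range i)]
        rw [add_eq_left.2 ?_]
        · refine Finset.sum_congr rfl fun l _ => ?_
          rw [Finset.mul_sum, ← Finset.sum_neg_distrib]
          refine Finset.sum_congr rfl fun s _ => ?_
          rw [Pi.smul_apply, hgA, Algebra.smul_def, map_neg]
          ring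
        · refine Finset.sum_eq_zero fun l _ => ?_
          dsimp only
          rw [Finset.sum_eq_zero fun s _ => by rw [hcr l.1 (not_not.1 l.2), zero_mul], mul_zero,
            neg_zero]
      rw [h4, hB]
      exact sum_mem fun q _ => Submodule.smul_mem _ _ (Submodule.subset_span ⟨q, rfl⟩)
    · rw [hM]
      have h4 : (fun a => -(κ a * det3 z w fun s => E (z s))) =
          mul (-(det3 z w fun s => E (z s))) := by
        funext a
        rw [hmul]
        ring
      rw [h4]
      refine Submodule.mem_map_of_mem (neg_mem ?_)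
      rw [mem_LL]
      by_cases h0 : det3 z w (fun s => E (z s)) = 0
      · exact Or.inl h0
      · right
        intro P
        have h3 := ge_det3 P hES hδ hz0
        rw [← hw] at h3
        rw [hDv, neg_neg]
        exact h3.resolve_left h0
  refine ⟨B ⊔ M, inferInstance, hle, ?_⟩
  have h5 := Submodule.finrank_add_le_finrank_add_finrank B M
  omega

end

end Pool.Agent.H435.CT
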